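import Pool.Agent.H941.SC.Class
import Pool.Graph.R_seed8.W574.CN.Deh2
import Pool.Graph.R_seed8.W574.SM.NodeCurve
import Pool.Graph.R_pool_sql_team_seeded_620a6dc7.helper748_mc_.Thm

set_option autoImplicit false
set_option linter.unusedSectionVars false
set_option linter.unusedVariables false

/-! # The root `-1/m` of a form which vanishes on a smooth curve -/

namespace Pool.Agent.H941.SC

open MvPolynomial Pool.Agent.Helper748.MC Pool.Agent.Helper748.TP Pool.Agent.H941.TF
  Pool.Agent.W574.SM Pool.Agent.W574.CN Pool.Agent.W574.MO Pool.Agent.W574.HS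
  Pool.Agent.W574.LM Pool.Agent.H628R4.TP

theorem exists_point3 {n : ℕ} (p D : MvPolynomial (Fin n) ℂ) (hp : Prime p) (hD : ¬ p ∣ D) :
    ∃ P : Fin n → ℂ, eval P p = 0 ∧ eval P D ≠ 0 := by
  by_contra hne
  push Not at hne
  have hpr : (Ideal.span {p} : Ideal (MvPolynomial (Fin n) ℂ)).IsPrime :=
    (Ideal.span_singleton_prime hp.ne_zero).2 hp
  have h2 : D ∈ vanishingIdeal ℂ (zeroLocus ℂ (Ideal.span {p})) := by
    rw [mem_vanishingIdeal_iff]
    intro P hP
    rw [mem_zeroLocus_iff] at hP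
    have h3 := hP p (Ideal.mem_span_singleton_self p)
    rw [aeval_eq_eval] at h3 ⊢
    exact hne P h3
  rw [vanishingIdeal_zeroLocus_eq_radical, hpr.radical, Ideal.mem_span_singleton] at h2
  exact hD h2

/-- a prime divides at most one of the variables -/
theorem exists_X {p : MvPolynomial (Fin 3) ℂ} (hp : Prime p) : ∃ i : Fin 3, ¬ p ∣ X i := by
  by_contra h
  push Not at h
  have h0 := h 0
  have h1 := h 1
  have hX : Prime (X 0 : MvPolynomial (Fin 3) ℂ) := MvPolynomial.X_prime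
  have h2 : (X 0 : MvPolynomial (Fin 3) ℂ) ∣ p := (hp.associated_of_dvd hX h0).symm.dvd
  have h3 : (X 0 : MvPolynomial (Fin 3) ℂ) ∣ X 1 := h2.trans h1
  rw [X_dvd_X] at h3
  exact absurd h3 (by decide)

/-- a point of the smooth component outside of the other components -/
theorem exists_pt {m : ℕ} {f : MvPolynomial (Fin 3) ℂ} {h g G : MvPolynomial (Fin 3) ℂ}
    {e k : ℕ} (he : 2 ≤ e) (hh : h.IsHomogeneous e) (hgG : g ∣ G ^ k) (hsq : Squarefree (h * G)) :
    ∃ (i : Fin 3) (z : Fin 3 → ℂ), z i ≠ 0 ∧ eval z h = 0 ∧ eval z g ≠ 0 := by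
  have h0 : h ≠ 0 := left_ne_zero_of_mul hsq.ne_zero
  have hu : ¬ IsUnit h := by
    intro hu
    have h1 := MvPolynomial.isUnit_iff_totalDegree_of_isReduced.1 hu
    have h2 := hh.totalDegree h0
    omega
  obtain ⟨p, hp, hph⟩ := WfDvdMonoid.exists_irreducible_factor hu h0
  have hpp := hp.prime
  have hpG : ¬ p ∣ G := by
    intro hd
    exact hp.not_isUnit (hsq p (mul_dvd_mul hph hd))
  have hpg : ¬ p ∣ g := fun hd => hpG (hpp.dvd_of_dvd_pow (hd.trans hgG))
  obtain ⟨i, hi⟩ := exists_X hpp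
  obtain ⟨z, hz, hz2⟩ := exists_point3 p (X i * g) hpp fun hd =>
    (hpp.dvd_or_dvd hd).elim hi hpg
  rw [map_mul, eval_X] at hz2
  obtain ⟨q, hq⟩ := hph
  exact ⟨i, z, left_ne_zero_of_mul hz2, by rw [hq, map_mul, hz, zero_mul],
    right_ne_zero_of_mul hz2⟩

theorem eval_deh (i : Fin 3) (P : Fin 2 → ℂ) (p : MvPolynomial (Fin 3) ℂ) :
    eval P (deh i p) = eval (Fin.insertNth (α := fun _ => ℂ) i (1 : ℂ) P) p := by
  induction p using MvPolynomial.induction_on with
  | C a => rw [algHom_C, algebraMap_eq, eval_C, eval_C]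
  | add p q hp hq => rw [map_add, map_add, map_add, hp, hq]
  | mul_X p j hp =>
    rw [map_mul, map_mul, map_mul, hp, eval_X]
    congr 1
    rcases Fin.eq_self_or_eq_succAbove i j with rfl | ⟨u, rfl⟩
    · rw [deh_self, map_one, Fin.insertNth_apply_same]
    · rw [deh_succAbove, eval_X, Fin.insertNth_apply_succAbove]

theorem eval_smul_pt {n : ℕ} {p : MvPolynomial (Fin 3) ℂ} (hp : p.IsHomogeneous n) (c : ℂ)
    (z : Fin 3 → ℂ) : eval (fun i => c * z i) p = c ^ n * eval z p := by
  rw [eval_eq', eval_eq', Finset.mul_sum]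
  refine Finset.sum_congr rfl fun d hd => ?_
  have h1 := hp (mem_support_iff.1 hd)
  rw [Finsupp.weight_apply, Finsupp.sum_fintype _ _ (by intro; simp)] at h1
  simp only [Pi.one_apply, smul_eq_mul, mul_one] at h1
  simp only [mul_pow]
  rw [Finset.prod_mul_distrib, Finset.prod_pow_eq_pow_sum, h1]
  ring

/-- **The root `-1/m`.** -/
theorem curve_root' {m d : ℕ} {f : MvPolynomial (Fin 3) ℂ} (hf : f.IsHomogeneous d)
    (hfs : SmoothComp m f) (b : Polynomial ℂ) (hb : IsBFunction f b) :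
    b.eval (-1 / (m : ℂ)) = 0 := by
  obtain ⟨h, g, G, e, δ, n, k, hfe, hm, he, hh, hg, hG, hGg, hgG, hsq, hsm, htr⟩ := hfs
  obtain ⟨i, z, hzi, hz, hzg⟩ := exists_pt (m := m) (f := f) he hh hgG hsq
  set P : Fin 2 → ℂ := fun t => (z i)⁻¹ * z (i.succAbove t) with hP
  have hPz : Fin.insertNth (α := fun _ => ℂ) i (1 : ℂ) P = fun j => (z i)⁻¹ * z j := by
    funext j
    rcases Fin.eq_self_or_eq_succAbove i j with rfl | ⟨u, rfl⟩
    · rw [Fin.insertNth_apply_same, inv_mul_cancel₀ hzi]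
    · rw [Fin.insertNth_apply_succAbove]
  set y : Fin 3 → ℂ := fun j => (z i)⁻¹ * z j with hy
  have hyi : y i = 1 := by rw [hy]; exact inv_mul_cancel₀ hzi
  have hy0 : y ≠ 0 := by
    intro h
    rw [h] at hyi
    exact zero_ne_one hyi
  have hyh : eval y h = 0 := by rw [hy, eval_smul_pt hh, hz, mul_zero]
  have hyg : eval y g ≠ 0 := by
    rw [hy, eval_smul_pt hg]
    exact mul_ne_zero (pow_ne_zero _ (inv_ne_zero hzi)) hzg
  have hdh : eval P (deh i h) = 0 := by rw [eval_deh, hPz, hyh]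
  have hdg : eval P (deh i g) ≠ 0 := by rw [eval_deh, hPz]; exact hyg
  have hder : ∃ t : Fin 2, eval P (pderiv t (deh i h)) ≠ 0 := by
    by_contra hne
    push Not at hne
    have h1 : ∀ t : Fin 2, eval y (pderiv (i.succAbove t) h) = 0 := by
      intro t
      have := hne t
      rwa [← deh_pderiv, eval_deh, hPz] at this
    have h2 := congrArg (eval y) hh.sum_X_mul_pderiv
    rw [nsmul_eq_mul, map_mul, hyh, mul_zero, Fin.sum_univ_succAbove _ i, map_add, map_sum,
      map_mul, eval_X, hyi, one_mul, Finset.sum_eq_zero, add_zero] at h2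
    · obtain ⟨j, hj⟩ := hsm y hy0 hyh
      rcases Fin.eq_self_or_eq_succAbove i j with rfl | ⟨u, rfl⟩
      · exact hj h2
      · exact hj (h1 u)
    · intro t _
      rw [map_mul, h1, mul_zero]
  have hb1 := functionalEq_deh i (fun _ : Unit => f) d (fun _ => hf) b (funEq_unit f b hb)
  have hX : ∀ q : MvPolynomial (Fin 2) ℂ, aeval (X : Fin 2 → MvPolynomial (Fin 2) ℂ) q = q :=
    fun q => aeval_X_left_apply q
  have hjac : jac (X : Fin 2 → MvPolynomial (Fin 2) ℂ) = 1 := by
    rw [jac, Matrix.det_fin_two]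
    simp only [Matrix.of_apply]
    rw [pderiv_X_self, pderiv_X_self, pderiv_X_of_ne (by decide), pderiv_X_of_ne (by decide)]
    ring
  rw [vec2 P] at hdh hdg hder
  have hfd : ∀ _ : Unit, aeval (X : Fin 2 → MvPolynomial (Fin 2) ℂ) (deh i f) =
      (deh i h) ^ m * deh i g := by
    intro _
    rw [hX, hfe, map_mul, map_pow]
  obtain ⟨t, ht⟩ := hder
  have ht' : t = 0 ∨ t = 1 := by omega
  rcases ht' with rfl | rfl
  · refine plane_curve' (fun _ : Unit => deh i f) b hb1 X m (by omega) (deh i h)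
      (fun _ => deh i g) hfd (P 0) (P 1) hdh ht ?_ () hdg
    rw [hjac, map_one]
    exact one_ne_zero
  · refine plane_curve (fun _ : Unit => deh i f) b hb1 X m (by omega) (deh i h)
      (fun _ => deh i g) hfd (P 0) (P 1) hdh ht ?_ () hdg
    rw [hjac, map_one]
    exact one_ne_zero

/-- **The root `-3/d` of the Bernstein-Sato polynomial** of a form with a smooth component. -/
theorem smooth_single {m d : ℕ} {f : MvPolynomial (Fin 3) ℂ} (hf : f.IsHomogeneous d)
    (h : SmoothComp m f) (b : Polynomial ℂ) (hb : IsBFunction f b) : b.eval (-3 / d : ℂ) = 0 := by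
  by_cases h3 : 3 * m = d
  · have h1 := curve_root' hf h b hb
    have hm : m ≠ 0 := by
      have := h.deg hf
      omega
    have hmc : (m : ℂ) ≠ 0 := Nat.cast_ne_zero.2 hm
    have h2 : (-3 / d : ℂ) = -1 / (m : ℂ) := by
      rw [← h3]
      push_cast
      field_simp
    rw [h2]
    exact h1
  · exact root_of_not_exact (fun _ : Unit => f) d (h.deg hf) (fun _ => hf) b (funEq_unit f b hb)
      (fun _ => 1) (by rw [lcomb_unit]; exact h.ne)
      (by rw [lcomb_unit]; exact not_exact_smooth hf h h3)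

variable {ι : Type} [Fintype ι] [DecidableEq ι]

theorem smooth_ideal {m d : ℕ} (f : ι → MvPolynomial (Fin 3) ℂ)
    (hf : ∀ j, (f j).IsHomogeneous d) (lam : ι → ℂ) (h : SmoothComp m (lcomb f lam))
    (h3 : 3 * m ≠ d) (b : Polynomial ℂ) (hb : IsFunctionalEq f b) :
    b.eval (-3 / d : ℂ) = 0 :=
  root_of_not_exact f d (h.deg (lcomb_homog hf lam)) hf b hb lam h.ne
    (not_exact_smooth (lcomb_homog hf lam) h h3)

end Pool.Agent.H941.SC
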