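import Pool.Graph.R_pool_sql_team_seeded_620a6dc7.helper748_mc_.Stab

set_option autoImplicit false
set_option linter.unusedSectionVars false
set_option linter.unusedVariables false

/-! # A line which meets a reduced curve in different points -/

namespace Pool.Agent.H941.SC

open MvPolynomial Pool.Agent.Helper748.MC

theorem aeval_lin (B : Matrix (Fin 3) (Fin 3) ℂ) (v : Fin 3 → Polynomial ℂ)
    (p : MvPolynomial (Fin 3) ℂ) :
    aeval v (lin B p) = aeval (fun i => ∑ j, Polynomial.C (B i j) * v j) p := by
  induction p using MvPolynomial.induction_on with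
  | C a => rw [lin_C, aeval_C, aeval_C]
  | add p q hp hq => rw [map_add, map_add, map_add, hp, hq]
  | mul_X p i hp =>
    rw [map_mul, map_mul, map_mul, hp, lin_X, map_sum, aeval_X]
    simp only [map_mul, aeval_C, aeval_X, Polynomial.algebraMap_eq]

/-- Gauss: a monic squarefree polynomial is squarefree over the field of fractions. -/
theorem squarefree_frac {R : Type} [CommRing R] [IsDomain R] [IsIntegrallyClosed R]
    {T : Polynomial R} (hT : T.Monic) (hs : Squarefree T) :
    Squarefree (T.map (algebraMap R (FractionRing R))) := by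
  intro p hp
  have hp1 : p ∣ T.map (algebraMap R (FractionRing R)) := (dvd_mul_right p p).trans hp
  have hp0 : p ≠ 0 := ne_zero_of_dvd_ne_zero (hT.map _).ne_zero hp1
  obtain ⟨q, hq⟩ := IsIntegrallyClosed.eq_map_mul_C_of_dvd (FractionRing R) hT hp1
  have hinj : Function.Injective (algebraMap R (FractionRing R)) :=
    IsFractionRing.injective R (FractionRing R)
  have hlc : p.leadingCoeff ≠ 0 := Polynomial.leadingCoeff_ne_zero.2 hp0
  have hqm : q.Monic := by
    have h1 := congrArg Polynomial.leadingCoeff hq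
    rw [Polynomial.leadingCoeff_mul, Polynomial.leadingCoeff_C,
      Polynomial.leadingCoeff_map_of_injective hinj] at h1
    have h2 : algebraMap R (FractionRing R) q.leadingCoeff = 1 :=
      mul_right_cancel₀ hlc (by rw [one_mul]; exact h1)
    rw [Polynomial.Monic]
    apply hinj
    rw [h2, map_one]
  have h3 : (q * q).map (algebraMap R (FractionRing R)) ∣ T.map (algebraMap R (FractionRing R)) := by
    refine dvd_trans ⟨Polynomial.C p.leadingCoeff * Polynomial.C p.leadingCoeff, ?_⟩ hp
    rw [Polynomial.map_mul]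
    linear_combination (-(p + q.map (algebraMap R (FractionRing R)) *
      Polynomial.C p.leadingCoeff)) * hq
  rw [Polynomial.map_dvd_map _ hinj (hqm.mul hqm)] at h3
  have h4 := hs q h3
  rw [← hq]
  exact (h4.map (Polynomial.mapRingHom _)).mul (Polynomial.isUnit_C.2 hlc.isUnit)

/-- the resultant of a monic squarefree polynomial with its derivative -/
theorem res_frac {R : Type} [CommRing R] [IsDomain R] [IsIntegrallyClosed R] [CharZero R]
    {T : Polynomial R} (hT : T.Monic) (hs : Squarefree T) (hN : 0 < T.natDegree) :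
    ∃ (D : R) (α β : Polynomial R), D ≠ 0 ∧ Polynomial.C D = α * T + β * Polynomial.derivative T := by
  obtain ⟨α, β, _, _, h⟩ := Polynomial.exists_mul_add_mul_eq_C_resultant (m := T.natDegree)
    (n := T.natDegree - 1) T (Polynomial.derivative T) le_rfl (Polynomial.natDegree_derivative_le T)
    (Or.inl hN.ne')
  refine ⟨Polynomial.resultant T (Polynomial.derivative T) T.natDegree (T.natDegree - 1), α, β,
    ?_, ?_⟩
  · intro h1
    have hinj : Function.Injective (algebraMap R (FractionRing R)) :=
      IsFractionRing.injective R (FractionRing R)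
    have : CharZero (FractionRing R) := charZero_of_injective_algebraMap hinj
    have h2 := Polynomial.resultant_map_map T (Polynomial.derivative T) T.natDegree
      (T.natDegree - 1) (algebraMap R (FractionRing R))
    rw [h1, map_zero] at h2
    have h0 : (T.map (algebraMap R (FractionRing R))).Separable :=
      PerfectField.separable_iff_squarefree.2 (squarefree_frac hT hs)
    rw [← Polynomial.derivative_map] at h2
    have h5 : (T.map (algebraMap R (FractionRing R))).natDegree = T.natDegree :=
      Polynomial.natDegree_map_eq_of_injective hinj T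
    have h6 : (Polynomial.derivative (T.map (algebraMap R (FractionRing R)))).natDegree =
        T.natDegree - 1 := by
      rw [Polynomial.natDegree_derivative, h5]
    exact Polynomial.resultant_ne_zero _ _ h0 (by rw [h5, h6]; exact h2)
  · rw [← h]
    ring

theorem lin_one (p : MvPolynomial (Fin 3) ℂ) : lin 1 p = p := by
  have h : lin (1 : Matrix (Fin 3) (Fin 3) ℂ) = AlgHom.id ℂ _ := by
    apply algHom_ext
    intro i
    rw [lin_X, AlgHom.id_apply, Finset.sum_eq_single i]
    · rw [Matrix.one_apply_eq, C_1, one_mul]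
    · intro j _ hj
      rw [Matrix.one_apply_ne hj.symm, C_0, zero_mul]
    · intro h; exact absurd (Finset.mem_univ i) h
  rw [h, AlgHom.id_apply]

/-- a linear change of coordinates -/
noncomputable def linE (A : Matrix (Fin 3) (Fin 3) ℂ) (hA : A.det ≠ 0) :
    MvPolynomial (Fin 3) ℂ ≃+* MvPolynomial (Fin 3) ℂ where
  toFun := lin A
  invFun := lin A⁻¹
  left_inv p := by
    rw [lin_lin, Matrix.mul_nonsing_inv A (isUnit_iff_ne_zero.2 hA), lin_one]
  right_inv p := by
    rw [lin_lin, Matrix.nonsing_inv_mul A (isUnit_iff_ne_zero.2 hA), lin_one]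
  map_mul' p q := map_mul _ p q
  map_add' p q := map_add _ p q

theorem squarefree_ringEquiv {R S : Type} [CommRing R] [CommRing S] (e : R ≃+* S) {p : R}
    (hp : Squarefree p) : Squarefree (e p) := by
  intro q hq
  have h1 : e.symm q * e.symm q ∣ p := by
    have := map_dvd e.symm hq
    rwa [map_mul, e.symm_apply_apply] at this
  have h2 := (hp _ h1).map e
  rwa [e.apply_symm_apply] at h2

theorem squarefree_lin {A : Matrix (Fin 3) (Fin 3) ℂ} (hA : A.det ≠ 0)
    {p : MvPolynomial (Fin 3) ℂ} (hp : Squarefree p) : Squarefree (lin A p) :=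
  squarefree_ringEquiv (linE A hA) hp

theorem exists_eval_ne {n : ℕ} {p : MvPolynomial (Fin n) ℂ} (hp : p ≠ 0) :
    ∃ x, eval x p ≠ 0 := by
  by_contra h
  push Not at h
  exact hp (funext fun x => by rw [h x, map_zero])

theorem coeff_fin {N : ℕ} {S : MvPolynomial (Fin 3) ℂ} (hS : S.IsHomogeneous N) :
    (finSuccEquiv ℂ 2 S).natDegree ≤ N ∧
      (finSuccEquiv ℂ 2 S).coeff N = C (eval ![1, 0, 0] S) := by
  have key : ∀ (m : Fin 2 →₀ ℕ) (i : ℕ), coeff (m.cons i) S ≠ 0 → i + (m 0 + m 1) = N := by
    intro m i h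
    have h1 := hS h
    rw [Finsupp.weight_apply, Finsupp.sum_fintype _ _ (by intro; simp), Fin.sum_univ_three] at h1
    simp only [Pi.one_apply, smul_eq_mul, mul_one] at h1
    have e0 : (Finsupp.cons i m) 0 = i := Finsupp.cons_zero i m
    have e1 : (Finsupp.cons i m) 1 = m 0 := Finsupp.cons_succ 0 i m
    have e2 : (Finsupp.cons i m) 2 = m 1 := Finsupp.cons_succ 1 i m
    rw [e0, e1, e2] at h1
    omega
  have hc : (finSuccEquiv ℂ 2 S).coeff N = C (coeff (Finsupp.cons N 0) S) := by
    ext m
    rw [finSuccEquiv_coeff_coeff, coeff_C]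
    split_ifs with h
    · rw [← h]
    · by_contra h1
      have h2 := key m N h1
      apply h
      ext j
      fin_cases j
      · simp only [Finsupp.coe_zero, Pi.zero_apply]
        have : m 0 = 0 := by omega
        exact this.symm
      · simp only [Finsupp.coe_zero, Pi.zero_apply]
        have : m 1 = 0 := by omega
        exact this.symm
  refine ⟨?_, ?_⟩
  · rw [Polynomial.natDegree_le_iff_coeff_eq_zero]
    intro i hi
    ext m
    rw [finSuccEquiv_coeff_coeff, coeff_zero]
    by_contra h1
    have h2 := key m i h1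
    omega
  · rw [hc]
    congr 1
    rw [eval_eq', Finset.sum_eq_single (Finsupp.cons N (0 : Fin 2 →₀ ℕ))]
    · have e0 : (Finsupp.cons N (0 : Fin 2 →₀ ℕ)) 0 = N := Finsupp.cons_zero _ _
      have e1 : (Finsupp.cons N (0 : Fin 2 →₀ ℕ)) 1 = 0 := Finsupp.cons_succ 0 N _
      have e2 : (Finsupp.cons N (0 : Fin 2 →₀ ℕ)) 2 = 0 := Finsupp.cons_succ 1 N _
      rw [Fin.prod_univ_three, e0, e1, e2, pow_zero, pow_zero, mul_one, mul_one]
      change _ = _ * (1 : ℂ) ^ N
      rw [one_pow, mul_one]
    · intro d hd hne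
      rw [Fin.prod_univ_three]
      have h1 := hS (mem_support_iff.1 hd)
      rw [Finsupp.weight_apply, Finsupp.sum_fintype _ _ (by intro; simp), Fin.sum_univ_three] at h1
      simp only [Pi.one_apply, smul_eq_mul, mul_one] at h1
      by_cases h2 : d 1 = 0
      · have h3 : d 2 ≠ 0 := by
          intro h3
          apply hne
          ext j
          fin_cases j
          · change d 0 = (Finsupp.cons N (0 : Fin 2 →₀ ℕ)) 0
            rw [Finsupp.cons_zero]
            omega
          · change d 1 = (Finsupp.cons N (0 : Fin 2 →₀ ℕ)) (Fin.succ 0)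
            rw [Finsupp.cons_succ]
            exact h2
          · change d 2 = (Finsupp.cons N (0 : Fin 2 →₀ ℕ)) (Fin.succ 1)
            rw [Finsupp.cons_succ]
            exact h3
        have h4 : (![1, 0, 0] : Fin 3 → ℂ) 2 ^ d 2 = 0 := by
          change (0 : ℂ) ^ d 2 = 0
          exact zero_pow h3
        rw [h4, mul_zero, mul_zero]
      · have h4 : (![1, 0, 0] : Fin 3 → ℂ) 1 ^ d 1 = 0 := by
          change (0 : ℂ) ^ d 1 = 0
          exact zero_pow h2
        rw [h4, mul_zero, zero_mul, mul_zero]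
    · intro h
      rw [notMem_support_iff.1 h, zero_mul]

theorem map_fin (a b : ℂ) (S : MvPolynomial (Fin 3) ℂ) :
    (finSuccEquiv ℂ 2 S).map (eval ![a, b]) =
      aeval ![Polynomial.X, Polynomial.C a, Polynomial.C b] S := by
  induction S using MvPolynomial.induction_on with
  | C c =>
    rw [aeval_C, finSuccEquiv_apply, eval₂Hom_C, RingHom.comp_apply, Polynomial.map_C, eval_C]
    rfl
  | add p q hp hq => rw [map_add, map_add, Polynomial.map_add, hp, hq]
  | mul_X p i hp =>
    rw [map_mul, map_mul, Polynomial.map_mul, hp, aeval_X]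
    congr 1
    fin_cases i
    · change (finSuccEquiv ℂ 2 (X 0)).map _ = Polynomial.X
      rw [finSuccEquiv_X_zero, Polynomial.map_X]
    · change (finSuccEquiv ℂ 2 (X (Fin.succ 0))).map _ = Polynomial.C a
      rw [finSuccEquiv_X_succ, Polynomial.map_C, eval_X]
      rfl
    · change (finSuccEquiv ℂ 2 (X (Fin.succ 1))).map _ = Polynomial.C b
      rw [finSuccEquiv_X_succ, Polynomial.map_C, eval_X]
      rfl

/-- **Bertini.** In suitable linear coordinates, the line `x₁ = 0` meets a reduced curve of the
degree `N` in `N` points different from `(0 : 0 : 1)`... -/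
theorem bertini {N : ℕ} {S : MvPolynomial (Fin 3) ℂ} (hS : S.IsHomogeneous N) (hN : 0 < N)
    (hsq : Squarefree S) : ∃ A : Matrix (Fin 3) (Fin 3) ℂ, A.det ≠ 0 ∧
      (aeval ![(1 : Polynomial ℂ), 0, Polynomial.X] (lin A S)).Separable ∧
      (aeval ![(1 : Polynomial ℂ), 0, Polynomial.X] (lin A S)).natDegree = N := by
  have hS0 : S ≠ 0 := hsq.ne_zero
  obtain ⟨q, hq⟩ := exists_eval_ne (mul_ne_zero hS0 (X_ne_zero (R := ℂ) (0 : Fin 3)))
  rw [map_mul, eval_X] at hq
  have hqS := left_ne_zero_of_mul hq
  have hq0 := right_ne_zero_of_mul hq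
  set A : Matrix (Fin 3) (Fin 3) ℂ := !![q 0, 0, 0; q 1, 1, 0; q 2, 0, 1] with hA
  have hAd : A.det ≠ 0 := by
    rw [hA, Matrix.det_fin_three]
    simp
    exact hq0
  set S' := lin A S with hS'
  have hS'h : S'.IsHomogeneous N := lin_homog A hS
  have hS'sq : Squarefree S' := squarefree_lin hAd hsq
  have hS'e : eval ![1, 0, 0] S' = eval q S := by
    rw [hS', eval_lin]
    congr 1
    congr 1
    funext i
    rw [Fin.sum_univ_three, hA]
    fin_cases i <;> simp
  set c := eval ![1, 0, 0] S' with hc
  have hc0 : c ≠ 0 := by rw [hS'e]; exact hqS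
  obtain ⟨Td, Tc⟩ := coeff_fin hS'h
  rw [← hc] at Tc
  set T := finSuccEquiv ℂ 2 S' with hT
  have hTsq : Squarefree T := squarefree_ringEquiv (finSuccEquiv ℂ 2).toRingEquiv hS'sq
  have hCc : (C c⁻¹ : MvPolynomial (Fin 2) ℂ) * C c = 1 := by
    rw [← C_mul, inv_mul_cancel₀ hc0, C_1]
  set T' : Polynomial (MvPolynomial (Fin 2) ℂ) := Polynomial.C (C c⁻¹) * T with hT'
  have hT'c : T'.coeff N = 1 := by rw [hT', Polynomial.coeff_C_mul, Tc, hCc]
  have hT'd : T'.natDegree = N := by
    refine le_antisymm ((Polynomial.natDegree_C_mul_le _ _).trans Td)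
      (Polynomial.le_natDegree_of_ne_zero ?_)
    rw [hT'c]
    exact one_ne_zero
  have hT'm : T'.Monic := by rw [Polynomial.Monic, Polynomial.leadingCoeff, hT'd, hT'c]
  have hu : IsUnit (Polynomial.C (C c⁻¹ : MvPolynomial (Fin 2) ℂ)) :=
    Polynomial.isUnit_C.2 ((inv_ne_zero hc0).isUnit.map C)
  have hT'sq : Squarefree T' := by
    refine (Associated.squarefree_iff ?_).1 hTsq
    exact ⟨hu.unit, by rw [mul_comm]; rfl⟩
  obtain ⟨D, α, β, hD, hαβ⟩ := res_frac hT'm hT'sq (by omega)
  obtain ⟨x, hx⟩ := exists_eval_ne (mul_ne_zero hD (X_ne_zero (R := ℂ) (0 : Fin 2)))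
  rw [map_mul, eval_X] at hx
  have hxD := left_ne_zero_of_mul hx
  have hx0 := right_ne_zero_of_mul hx
  have hxx : x = ![x 0, x 1] := by
    funext i
    fin_cases i <;> rfl
  have hsep : (T'.map (eval x)).Separable := by
    have h1 := congrArg (Polynomial.map (eval x)) hαβ
    have g1 : (α * T').map (eval x) = α.map (eval x) * T'.map (eval x) := Polynomial.map_mul _
    have g2 : (β * Polynomial.derivative T').map (eval x) =
        β.map (eval x) * Polynomial.derivative (T'.map (eval x)) := by
      rw [Polynomial.map_mul, ← Polynomial.derivative_map]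
    rw [Polynomial.map_C, Polynomial.map_add, g1, g2] at h1
    refine ⟨Polynomial.C (eval x D)⁻¹ * α.map (eval x), Polynomial.C (eval x D)⁻¹ * β.map (eval x),
      ?_⟩
    have h2 : Polynomial.C (eval x D)⁻¹ * Polynomial.C (eval x D) = 1 := by
      rw [← Polynomial.C_mul, inv_mul_cancel₀ hxD, Polynomial.C_1]
    linear_combination (-Polynomial.C (eval x D)⁻¹) * h1 + h2
  have hmap : T'.map (eval x) = Polynomial.C c⁻¹ *
      aeval ![Polynomial.X, Polynomial.C (x 0), Polynomial.C (x 1)] S' := by
    rw [hT', Polynomial.map_mul, Polynomial.map_C, eval_C, hT, hxx, map_fin]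
    rfl
  set R := aeval ![Polynomial.X, Polynomial.C (x 0), Polynomial.C (x 1)] S' with hR
  have hRT : R = Polynomial.C c * T'.map (eval x) := by
    rw [hmap, ← mul_assoc, ← Polynomial.C_mul, mul_inv_cancel₀ hc0, Polynomial.C_1, one_mul]
  have hRs : R.Separable := by
    rw [hRT]
    exact hsep.unit_mul (Polynomial.isUnit_C.2 hc0.isUnit)
  have hRd : R.natDegree = N := by
    rw [hRT, Polynomial.natDegree_C_mul hc0, hT'm.natDegree_map, hT'd]
  refine ⟨A * !![0, 0, 1; x 0, 0, 0; x 1, 1, 0], ?_, ?_⟩
  · rw [Matrix.det_mul]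
    refine mul_ne_zero hAd ?_
    rw [Matrix.det_fin_three]
    simp
    exact hx0
  · rw [← lin_lin, ← hS', aeval_lin]
    have h3 : (fun i => ∑ j, Polynomial.C ((!![0, 0, 1; x 0, 0, 0; x 1, 1, 0] :
        Matrix (Fin 3) (Fin 3) ℂ) i j) * (![(1 : Polynomial ℂ), 0, Polynomial.X] : _) j) =
        ![Polynomial.X, Polynomial.C (x 0), Polynomial.C (x 1)] := by
      funext i
      rw [Fin.sum_univ_three]
      fin_cases i <;> simp
    rw [h3, ← hR]
    exact ⟨hRs, hRd⟩

end Pool.Agent.H941.SC
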