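import Pool.Agent.H941.SC.Core
import Pool.Agent.H941.SC.Bertini

set_option autoImplicit false
set_option linter.unusedSectionVars false
set_option linter.unusedVariables false

/-! # Forms which vanish on a smooth curve: the class -/

namespace Pool.Agent.H941.SC

open MvPolynomial Pool.Agent.Helper748.MC Pool.Agent.Helper748.TP Pool.Agent.H941.TF
  Pool.Agent.W574.SM Pool.Agent.W574.CN Pool.Agent.W574.MO Pool.Agent.W574.HS
  Pool.Agent.W574.LM Pool.Agent.H628R4.TP

/-- **Forms with a smooth component of degree at least two** (of the multiplicity `m ≥ 1`).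
`f = h ^ m g`, where `h` is a form of degree `e ≥ 2` such that the curve `h = 0` is smooth, and
`g` is an arbitrary form such that the curve `G = 0` of its zeros (`G` and `g` have the same
irreducible factors, `h G` is squarefree) is transversal to `h = 0`: at the common points, the
gradient of `G` is not a multiple of the gradient of `h`. There is no condition on the
multiplicities of `g`, and none on the singularities of the curve `G = 0` (outside of `h = 0`). -/
def SmoothComp (m : ℕ) (f : MvPolynomial (Fin 3) ℂ) : Prop :=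
  ∃ (h g G : MvPolynomial (Fin 3) ℂ) (e δ n k : ℕ),
    f = h ^ m * g ∧ 1 ≤ m ∧ 2 ≤ e ∧ h.IsHomogeneous e ∧ g.IsHomogeneous δ ∧ G.IsHomogeneous n ∧
    G ∣ g ∧ g ∣ G ^ k ∧ Squarefree (h * G) ∧
    (∀ z : Fin 3 → ℂ, z ≠ 0 → eval z h = 0 → ∃ i, eval z (pderiv i h) ≠ 0) ∧
    (∀ z : Fin 3 → ℂ, z ≠ 0 → eval z h = 0 → eval z G = 0 → ∀ c : ℂ,
      ∃ i, eval z (pderiv i G) ≠ c * eval z (pderiv i h))

theorem SmoothComp.ne {m : ℕ} {f : MvPolynomial (Fin 3) ℂ} (hf : SmoothComp m f) : f ≠ 0 := by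
  obtain ⟨h, g, G, e, δ, n, k, rfl, hm, he, hh, hg, hG, hGg, hgG, hsq, hsm, htr⟩ := hf
  have h0 : h * G ≠ 0 := hsq.ne_zero
  have hh0 := left_ne_zero_of_mul h0
  have hG0 := right_ne_zero_of_mul h0
  refine mul_ne_zero (pow_ne_zero _ hh0) ?_
  rintro rfl
  exact pow_ne_zero k hG0 (zero_dvd_iff.1 hgG)

theorem eval_pderiv_lin (A : Matrix (Fin 3) (Fin 3) ℂ) (z : Fin 3 → ℂ)
    (p : MvPolynomial (Fin 3) ℂ) (j : Fin 3) :
    eval z (pderiv j (lin A p)) =
      Matrix.vecMul (fun i => eval (fun i => ∑ j, A i j * z j) (pderiv i p)) A j := by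
  rw [pderiv_lin, map_sum, Matrix.vecMul, dotProduct]
  refine Finset.sum_congr rfl fun i _ => ?_
  rw [map_mul, eval_C, eval_lin, mul_comm]

theorem lin_vec_ne {A : Matrix (Fin 3) (Fin 3) ℂ} (hA : A.det ≠ 0) {z : Fin 3 → ℂ} (hz : z ≠ 0) :
    (fun i => ∑ j, A i j * z j) ≠ 0 := fun h => hz (Matrix.eq_zero_of_mulVec_eq_zero hA h)

theorem smooth_lin {A : Matrix (Fin 3) (Fin 3) ℂ} (hA : A.det ≠ 0) {h : MvPolynomial (Fin 3) ℂ}
    (hsm : ∀ z : Fin 3 → ℂ, z ≠ 0 → eval z h = 0 → ∃ i, eval z (pderiv i h) ≠ 0)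
    (z : Fin 3 → ℂ) (hz : z ≠ 0) (h0 : eval z (lin A h) = 0) :
    ∃ i, eval z (pderiv i (lin A h)) ≠ 0 := by
  by_contra hne
  push Not at hne
  rw [eval_lin] at h0
  obtain ⟨i, hi⟩ := hsm _ (lin_vec_ne hA hz) h0
  apply hi
  have h1 : Matrix.vecMul (fun i => eval (fun i => ∑ j, A i j * z j) (pderiv i h)) A = 0 := by
    funext j
    rw [← eval_pderiv_lin, hne j]
    rfl
  exact congrFun (Matrix.eq_zero_of_vecMul_eq_zero hA h1) i

theorem trans_lin {A : Matrix (Fin 3) (Fin 3) ℂ} (hA : A.det ≠ 0) {h G : MvPolynomial (Fin 3) ℂ}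
    (htr : ∀ z : Fin 3 → ℂ, z ≠ 0 → eval z h = 0 → eval z G = 0 → ∀ c : ℂ,
      ∃ i, eval z (pderiv i G) ≠ c * eval z (pderiv i h))
    (z : Fin 3 → ℂ) (hz : z ≠ 0) (h0 : eval z (lin A h) = 0) (g0 : eval z (lin A G) = 0) (c : ℂ) :
    ∃ i, eval z (pderiv i (lin A G)) ≠ c * eval z (pderiv i (lin A h)) := by
  by_contra hne
  push Not at hne
  have k1 : ∀ (p : MvPolynomial (Fin 3) ℂ) (j : Fin 3), _ := fun p j => eval_pderiv_lin A z p j
  rw [eval_lin] at h0 g0
  obtain ⟨i, hi⟩ := htr _ (lin_vec_ne hA hz) h0 g0 c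
  apply hi
  set w : Fin 3 → ℂ := fun i => ∑ j, A i j * z j with hw
  have h1 : Matrix.vecMul (fun i => eval w (pderiv i G) - c * eval w (pderiv i h)) A = 0 := by
    funext j
    have h2 := hne j
    rw [k1, k1, Matrix.vecMul, Matrix.vecMul, dotProduct, dotProduct, Finset.mul_sum] at h2
    rw [Matrix.vecMul, dotProduct]
    simp only [sub_mul]
    rw [Finset.sum_sub_distrib, h2, Pi.zero_apply, sub_eq_zero]
    refine Finset.sum_congr rfl fun i _ => ?_
    ring
  have h3 := congrFun (Matrix.eq_zero_of_vecMul_eq_zero hA h1) i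
  exact sub_eq_zero.1 h3

theorem SmoothComp.deg {m d : ℕ} {f : MvPolynomial (Fin 3) ℂ} (hf : f.IsHomogeneous d)
    (h : SmoothComp m f) : 0 < d := by
  have hf0 := h.ne
  obtain ⟨h, g, G, e, δ, n, k, rfl, hm, he, hh, hg, hG, hGg, hgG, hsq, hsm, htr⟩ := h
  have h1 := hf.inj_right ((hh.pow m).mul hg) hf0
  nlinarith

/-- Forms with a smooth component of degree at least two are not exact. -/
theorem not_exact_smooth {m d : ℕ} {f : MvPolynomial (Fin 3) ℂ} (hf : f.IsHomogeneous d)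
    (h : SmoothComp m f) (h3 : 3 * m ≠ d) : ¬ Exact d f (-3 / d) := by
  have hf0 := h.ne
  obtain ⟨h, g, G, e, δ, n, k, hfe, hm, he, hh, hg, hG, hGg, hgG, hsq, hsm, htr⟩ := h
  obtain ⟨A, hA, hsep, hdeg⟩ := bertini (hh.mul hG) (by omega) hsq
  intro hE
  have hd : d = m * e + δ := by
    have h1 := hf.inj_right (by rw [hfe]; exact (hh.pow m).mul hg) hf0
    rw [h1, mul_comm]
  rw [map_mul] at hsep hdeg
  refine core (F := lin A f) (g := lin A g) (G := lin A G) (H := lin A h) (k := k) ?_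
    (lin_homog A hf) hd
    hm he (lin_homog A hh) (lin_homog A hg) (lin_homog A hG) (map_dvd (lin A) hGg) ?_
    (smooth_lin hA hsm) (trans_lin hA htr) hsep hdeg (exact_lin hE A (isUnit_iff_ne_zero.2 hA)) h3
  · rw [hfe, map_mul, map_pow]
  · rw [← map_pow]
    exact map_dvd (lin A) hgG

end Pool.Agent.H941.SC
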