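import Pool.Agent.H941.SC.Fin

set_option autoImplicit false
set_option linter.unusedSectionVars false
set_option linter.unusedVariables false

/-! # The remaining residues and their limits -/

namespace Pool.Agent.H941.SC

open Polynomial Finset Filter Topology Metric Pool.Agent.Helper748.TP Pool.Agent.H941.TF

/-- the curves -/
structure Full (Φ G hx ht γ Φi Gi : ℂ[X][X]) (D0 : ℂ[X]) (σ β : ℝ) (e n : ℕ) : Prop where
  cv : Cv Φ G hx ht γ D0.roots.toFinset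
  D00 : D0 ≠ 0
  disc : ∃ α β' : ℂ[X][X], C D0 = α * (Φ * G) + β' * derivative (Φ * G)
  Φd : Φ.natDegree = e
  Gd : G.natDegree = n
  he : 2 ≤ e
  TΦ : TD e Φ
  TG : TD n G
  iΦ : Inf Φ Φi e
  iG : Inf G Gi n
  sepi : (evt 0 (Φi * Gi)).Separable
  hσ : σ < 0
  hβ : β < 0
  hβ1 : β ≠ -1

theorem ev_notin (B : Finset ℂ) (b : ℂ) {m : ℕ} (hm : 0 < m) :
    ∀ᶠ u in 𝓝[≠] (0 : ℂ), b + u ^ m ∉ B := by
  classical
  have h0 : ∀ᶠ t in 𝓝 b, t ∉ B.erase b := by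
    have h1 : ((B.erase b : Finset ℂ) : Set ℂ)ᶜ ∈ 𝓝 b :=
      (B.erase b).finite_toSet.isClosed.isOpen_compl.mem_nhds (by simp)
    filter_upwards [h1] with t ht
    exact fun h => ht (Finset.mem_coe.2 h)
  have h6 : Tendsto (fun u : ℂ => b + u ^ m) (𝓝 0) (𝓝 b) := by
    have h7 : ContinuousAt (fun u : ℂ => b + u ^ m) 0 := by fun_prop
    have := h7.tendsto
    simpa [zero_pow hm.ne'] using this
  filter_upwards [(h6.eventually h0).filter_mono nhdsWithin_le_nhds, ev_ne] with u hu hu0 hB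
  refine hu (Finset.mem_erase.2 ⟨fun h => ?_, hB⟩)
  have h' : u ^ m = 0 := by linear_combination h
  exact pow_ne_zero m hu0 h'

theorem ev_notin' (B : Finset ℂ) : ∀ᶠ u in 𝓝[≠] (0 : ℂ), u⁻¹ ∉ B := by
  have hcob : Tendsto (fun u : ℂ => u⁻¹) (𝓝[≠] 0) (cocompact ℂ) := by
    rw [← Metric.cobounded_eq_cocompact]
    exact tendsto_inv₀_nhdsNE_zero
  have h1 := hcob (B.finite_toSet.isCompact.compl_mem_cocompact)
  filter_upwards [h1] with u hu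
  simpa using hu

theorem tendP (P : ℂ[X][X]) (b : ℂ) {m : ℕ} (hm : 0 < m) {a : ℂ → ℂ} (ha : AnalyticAt ℂ a 0) :
    Tendsto (fun u => ev2 P (b + u ^ m) (a u)) (𝓝[≠] 0) (𝓝 (ev2 P b (a 0))) := by
  have hT : AnalyticAt ℂ (fun u : ℂ => b + u ^ m) 0 := by fun_prop
  have h1 := (hasDerivAt_ev2 P hT.differentiableAt.hasDerivAt
    ha.differentiableAt.hasDerivAt).continuousAt.tendsto.mono_left
    (nhdsWithin_le_nhds (s := {0}ᶜ))
  have h2 : b + (0 : ℂ) ^ m = b := by rw [zero_pow hm.ne', add_zero]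
  rw [h2] at h1
  exact h1

section
variable {Φ G hx ht γ Φi Gi : ℂ[X][X]} {D0 : ℂ[X]} {σ β : ℝ} {e n : ℕ}

theorem Full.gx (F : Full Φ G hx ht γ Φi Gi D0 σ β e n) {t x : ℂ} (hB : t ∉ D0.roots.toFinset)
    (h0 : ev2 G t x = 0) : ev2 (derivative G) t x ≠ 0 := by
  have h1 := sep_der (F.cv.sepG hB) h0
  rwa [← evt_der] at h1

theorem Full.h1 (F : Full Φ G hx ht γ Φi Gi D0 σ β e n) {t x : ℂ} (hB : t ∉ D0.roots.toFinset)
    (h0 : ev2 G t x = 0) : ev2 (kc (σ : ℂ) * hx) t x ≠ 0 := by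
  obtain ⟨k, hk, h1, h2⟩ := F.cv.kap h0 (Or.inr (F.gx hB h0))
  rw [ev2_mul, ev2_kc, h1]
  have h3 : (σ : ℂ) ≠ 0 := by exact_mod_cast F.hσ.ne
  have h4 : (k : ℂ) ≠ 0 := Nat.cast_ne_zero.2 (by omega)
  exact mul_ne_zero h3 (mul_ne_zero h4 (F.gx hB h0))

theorem Full.rel5 (F : Full Φ G hx ht γ Φi Gi D0 σ β e n) {a5 c5 : ℂ[X][X]}
    (h5 : G ∣ (kc (σ : ℂ) * ht - dt G) * a5 + (kc (σ : ℂ) * hx - derivative G) * c5) {t x : ℂ}
    (hB : t ∉ D0.roots.toFinset) (h0 : ev2 G t x = 0) :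
    ev2 (kc (σ : ℂ) * ht) t x * ev2 a5 t x + ev2 (kc (σ : ℂ) * hx) t x * ev2 c5 t x = 0 := by
  obtain ⟨k, hk, e1, e2⟩ := F.cv.kap h0 (Or.inr (F.gx hB h0))
  have h3 := ev2_dvd h5 h0
  rw [ev2_add, ev2_mul, ev2_mul, ev2_sub, ev2_sub, ev2_mul, ev2_mul, ev2_kc, e1, e2] at h3
  have h4 : (σ * k - 1 : ℂ) ≠ 0 := by
    intro h
    have h5 : ((σ * k - 1 : ℝ) : ℂ) = 0 := by
      push_cast
      exact h
    have h6 : (σ * k - 1 : ℝ) = 0 := by exact_mod_cast h5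
    have h7 : (1 : ℝ) ≤ k := by exact_mod_cast hk
    have := F.hσ
    nlinarith
  have h6 : ev2 (dt G) t x * ev2 a5 t x + ev2 (derivative G) t x * ev2 c5 t x = 0 := by
    refine (mul_eq_zero.1 ?_).resolve_left h4
    linear_combination h3
  rw [ev2_mul, ev2_mul, ev2_kc, e1, e2]
  linear_combination (σ * k : ℂ) * h6

/-- the remaining residues -/
noncomputable def vv (Φ hx a5 : ℂ[X][X]) (σ : ℝ) (t x : ℂ) : ℂ :=
  ev2 a5 t x / (ev2 (kc (σ : ℂ) * hx) t x * ev2 Φ t x)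

theorem ev2_hh {t x : ℂ} (h0 : ev2 G t x = 0) :
    ev2 (hh Φ G hx σ β) t x = ev2 Φ t x * ev2 (kc (σ : ℂ) * hx) t x := by
  rw [hh, ev2_add, ev2_mul, h0, mul_zero, zero_add, ev2_mul]

theorem vv_eq {p1 Z a5 : ℂ[X][X]}
    (h5 : p1 - (Φ * G * derivative Z + hh Φ G hx σ β * Z) = Φ ^ 2 * a5) {t x : ℂ}
    (h0 : ev2 G t x = 0) (h1 : ev2 Φ t x ≠ 0) (h2 : ev2 (kc (σ : ℂ) * hx) t x ≠ 0) :
    vv Φ hx a5 σ t x = (ev2 p1 t x / ev2 (hh Φ G hx σ β) t x - ev2 Z t x) / ev2 Φ t x ^ 2 := by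
  have h3 := congrArg (fun P => ev2 P t x) h5
  beta_reduce at h3
  rw [ev2_sub, ev2_add, ev2_mul, ev2_mul Φ G, h0, ev2_mul, ev2_mul (Φ ^ 2), ev2_pow,
    ev2_hh h0] at h3
  rw [vv, ev2_hh h0]
  field_simp
  linear_combination -h3

/-- differentiability -/
theorem Full.diff (F : Full Φ G hx ht γ Φi Gi D0 σ β e n) {a5 : ℂ[X][X]} {t : ℂ}
    (hB : t ∉ D0.roots.toFinset) {a : ℂ → ℂ} (ha : DifferentiableAt ℂ a t)
    (h : ∀ᶠ s in 𝓝 t, ev2 (Φ * G) s (a s) = 0) :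
    DifferentiableAt ℂ (fun s => vv Φ hx a5 σ s (a s)) t := by
  have hid : HasDerivAt (fun u : ℂ => u) 1 t := hasDerivAt_id' t
  have hd : ∀ P : ℂ[X][X], DifferentiableAt ℂ (fun u => ev2 P u (a u)) t := fun P =>
    (hasDerivAt_ev2 P hid ha.hasDerivAt).differentiableAt
  have h0 := h.self_of_nhds
  rw [ev2_mul] at h0
  by_cases h1 : ev2 Φ t (a t) = 0
  · have h2 := F.cv.ne hB h1
    have h3 : ∀ᶠ s in 𝓝 t, ev2 G s (a s) ≠ 0 := (hd G).continuousAt.eventually_ne h2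
    have h4 : (fun s => vv Φ hx a5 σ s (a s)) =ᶠ[𝓝 t] fun _ => 0 := by
      filter_upwards [h, h3] with s e1 e2
      rw [ev2_mul] at e1
      rw [vv, (mul_eq_zero.1 e1).resolve_right e2, mul_zero, div_zero]
    exact (differentiableAt_const _).congr_of_eventuallyEq h4
  · have h2 := (mul_eq_zero.1 h0).resolve_left h1
    exact (hd a5).fun_div ((hd _).fun_mul (hd _)) (mul_ne_zero (F.h1 hB h2) h1)

/-- the limits at finite points -/
theorem Full.fin (F : Full Φ G hx ht γ Φi Gi D0 σ β e n) {p1 Z a5 c5 : ℂ[X][X]}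
    (h5 : p1 - (Φ * G * derivative Z + hh Φ G hx σ β * Z) = Φ ^ 2 * a5)
    (hG : G ∣ (kc (σ : ℂ) * ht - dt G) * a5 + (kc (σ : ℂ) * hx - derivative G) * c5)
    (hA : ∃ A A', a5 = Φ * A + G * A') (hC : ∃ A A', c5 = Φ * A + G * A')
    {b : ℂ} {m : ℕ} (hm : 0 < m) {a : ℂ → ℂ} (ha : AnalyticAt ℂ a 0)
    (hr : ∀ᶠ u in 𝓝[≠] (0 : ℂ), ev2 (Φ * G) (b + u ^ m) (a u) = 0) {L : ℂ}
    (hL : Tendsto (fun u => ev2 p1 (b + u ^ m) (a u) / ev2 (hh Φ G hx σ β) (b + u ^ m) (a u))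
      (𝓝[≠] 0) (𝓝 L)) :
    ∃ L', Tendsto (fun u => vv Φ hx a5 σ (b + u ^ m) (a u)) (𝓝[≠] 0) (𝓝 L') := by
  have hT : AnalyticAt ℂ (fun u : ℂ => b + u ^ m) 0 := by fun_prop
  rcases (mero_ev2 Φ hT.meromorphicAt ha.meromorphicAt).eventually_eq_zero_or_eventually_ne_zero
    with h1 | h1
  · refine ⟨0, tendsto_const_nhds.congr' ?_⟩
    filter_upwards [h1] with u hu
    rw [vv, hu, mul_zero, div_zero]
  have hG0 : ∀ᶠ u in 𝓝[≠] (0 : ℂ), ev2 G (b + u ^ m) (a u) = 0 := by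
    filter_upwards [h1, hr] with u e1 e2
    rw [ev2_mul] at e2
    exact (mul_eq_zero.1 e2).resolve_left e1
  have hGq : ev2 G b (a 0) = 0 := by
    refine tendsto_nhds_unique (tendP G b hm ha) (tendsto_const_nhds.congr' ?_)
    exact hG0.mono fun u hu => hu.symm
  have hB := ev_notin D0.roots.toFinset b hm
  have hh1 : ∀ᶠ u in 𝓝[≠] (0 : ℂ), ev2 (kc (σ : ℂ) * hx) (b + u ^ m) (a u) ≠ 0 := by
    filter_upwards [hG0, hB] with u e1 e2
    exact F.h1 e2 e1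
  by_cases hq : ev2 Φ b (a 0) = 0
  · have hJ := F.cv.trans b (a 0) hq hGq
    obtain ⟨k, hk, k1, k2⟩ := F.cv.kap hGq (by
      by_contra hcon
      push Not at hcon
      apply hJ
      rw [hcon.1, hcon.2]
      ring)
    have hσ0 : (σ : ℂ) ≠ 0 := by exact_mod_cast F.hσ.ne
    have hk0 : (k : ℂ) ≠ 0 := Nat.cast_ne_zero.2 (by omega)
    by_cases hgx : ev2 (derivative G) b (a 0) = 0
    · have hgt : ev2 (dt G) b (a 0) ≠ 0 := by
        intro h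
        apply hJ
        rw [hgx, h]
        ring
      have hl1 : ev2 (kc (σ : ℂ) * ht) b (a 0) ≠ 0 := by
        rw [ev2_mul, ev2_kc, k2]
        exact mul_ne_zero hσ0 (mul_ne_zero hk0 hgt)
      have tl := tendP (kc (σ : ℂ) * ht) b hm ha
      obtain ⟨A, A', hC'⟩ := hC
      refine ⟨_, (((tendP A b hm ha).div tl hl1).neg).congr' ?_⟩
      filter_upwards [hG0, hB, hh1, h1, tl.eventually_ne hl1] with u e1 e2 e3 e4 e5
      have e6 := F.rel5 hG e2 e1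
      have e7 : ev2 c5 (b + u ^ m) (a u) = ev2 Φ (b + u ^ m) (a u) * ev2 A (b + u ^ m) (a u) := by
        rw [hC', ev2_add, ev2_mul, ev2_mul, e1, zero_mul, add_zero]
      rw [e7] at e6
      rw [vv]
      change -(ev2 A (b + u ^ m) (a u) / ev2 (kc (σ : ℂ) * ht) (b + u ^ m) (a u)) = _
      field_simp
      linear_combination -e6
    · have hh2 : ev2 (kc (σ : ℂ) * hx) b (a 0) ≠ 0 := by
        rw [ev2_mul, ev2_kc, k1]
        exact mul_ne_zero hσ0 (mul_ne_zero hk0 hgx)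
      have th := tendP (kc (σ : ℂ) * hx) b hm ha
      obtain ⟨A, A', hA'⟩ := hA
      refine ⟨_, ((tendP A b hm ha).div th hh2).congr' ?_⟩
      filter_upwards [hG0, h1, hh1] with u e1 e4 e5
      have e7 : ev2 a5 (b + u ^ m) (a u) = ev2 Φ (b + u ^ m) (a u) * ev2 A (b + u ^ m) (a u) := by
        rw [hA', ev2_add, ev2_mul, ev2_mul, e1, zero_mul, add_zero]
      rw [vv, e7]
      change ev2 A (b + u ^ m) (a u) / ev2 (kc (σ : ℂ) * hx) (b + u ^ m) (a u) = _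
      field_simp
  · refine ⟨_, ((hL.sub (tendP Z b hm ha)).div ((tendP Φ b hm ha).pow 2)
      (pow_ne_zero 2 hq)).congr' ?_⟩
    filter_upwards [hG0, h1, hh1] with u e1 e4 e5
    exact (vv_eq h5 e1 e4 e5).symm

/-- the limit at infinity -/
theorem Full.inf (F : Full Φ G hx ht γ Φi Gi D0 σ β e n) {p1 Z a5 : ℂ[X][X]}
    (h5 : p1 - (Φ * G * derivative Z + hh Φ G hx σ β * Z) = Φ ^ 2 * a5) (hZ : TD 3 Z)
    {X : ℂ → ℂ} (hX : AnalyticAt ℂ X 0)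
    (hr : ∀ᶠ u in 𝓝 (0 : ℂ), ev2 (Φi * Gi) u (X u) = 0) {L : ℂ}
    (hL : Tendsto (fun u => u ^ (3 : ℤ) * (ev2 p1 u⁻¹ (X u / u) /
      ev2 (hh Φ G hx σ β) u⁻¹ (X u / u))) (𝓝[≠] 0) (𝓝 L)) :
    Tendsto (fun u => vv Φ hx a5 σ u⁻¹ (X u / u)) (𝓝[≠] 0) (𝓝 0) := by
  have hr0 := hr.self_of_nhds
  rw [ev2_mul] at hr0
  by_cases h1 : ev2 Φi 0 (X 0) = 0
  · have h2 : ev2 Gi 0 (X 0) ≠ 0 := by
      have h3 := F.sepi
      rw [map_mul] at h3
      exact sep_ne h3 h1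
    have h3 : ∀ᶠ u in 𝓝 (0 : ℂ), ev2 Gi u (X u) ≠ 0 := (cont_ev2' Gi hX).eventually_ne h2
    refine tendsto_const_nhds.congr' ?_
    filter_upwards [hr.filter_mono nhdsWithin_le_nhds, h3.filter_mono nhdsWithin_le_nhds, ev_ne]
      with u e1 e2 e3
    rw [ev2_mul] at e1
    have e4 := (mul_eq_zero.1 e1).resolve_right e2
    rw [F.iΦ.rel u _ e3] at e4
    rw [vv, (mul_eq_zero.1 e4).resolve_left (pow_ne_zero _ e3), mul_zero, div_zero]
  · have h3 : ∀ᶠ u in 𝓝 (0 : ℂ), ev2 Φi u (X u) ≠ 0 := (cont_ev2' Φi hX).eventually_ne h1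
    obtain ⟨lz, hlz⟩ := hZ.lim (X := X) (hX.continuousAt.tendsto.mono_left nhdsWithin_le_nhds)
    obtain ⟨k, hk⟩ := Nat.exists_eq_add_of_le F.he
    have hu : Tendsto (fun u : ℂ => u ^ (2 * k + 1)) (𝓝[≠] 0) (𝓝 0) := by
      have := ((continuous_pow (2 * k + 1)).tendsto (0 : ℂ)).mono_left
        (nhdsWithin_le_nhds (s := {0}ᶜ))
      rwa [zero_pow (Nat.succ_ne_zero _)] at this
    have h4 := hu.mul ((hL.sub hlz).div ((F.iΦ.lim hX).pow 2) (pow_ne_zero 2 h1))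
    rw [zero_mul] at h4
    refine h4.congr' ?_
    filter_upwards [hr.filter_mono nhdsWithin_le_nhds, h3.filter_mono nhdsWithin_le_nhds, ev_ne,
      ev_notin' D0.roots.toFinset] with u e1 e2 e3 e5
    rw [ev2_mul] at e1
    have e4 := (mul_eq_zero.1 e1).resolve_left e2
    rw [F.iG.rel u _ e3] at e4
    have e6 := (mul_eq_zero.1 e4).resolve_left (pow_ne_zero _ e3)
    rw [F.iΦ.rel u _ e3] at e2
    have e7 := right_ne_zero_of_mul e2
    rw [vv_eq h5 e6 e7 (F.h1 e5 e6)]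
    change u ^ (2 * k + 1) * ((u ^ (3 : ℤ) * _ - u ^ (3 : ℤ) * _) /
      (u ^ (e : ℤ) * ev2 Φ u⁻¹ (X u / u)) ^ 2) = _
    rw [zpow_natCast, show (3 : ℤ) = ((3 : ℕ) : ℤ) from rfl, zpow_natCast, hk]
    have e8 : (u ^ (2 + k) * ev2 Φ u⁻¹ (X u / u)) ^ 2 = u ^ (2 * k + 1) * u ^ 3 *
        ev2 Φ u⁻¹ (X u / u) ^ 2 := by ring
    rw [e8]
    field_simp

end

end Pool.Agent.H941.SC
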