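import Pool.Agent.H941.TF.Ode

set_option autoImplicit false
set_option linter.unusedSectionVars false
set_option linter.unusedVariables false

/-! # Polynomials in two variables and their zeros -/

namespace Pool.Agent.H941.SC

open Polynomial Pool.Agent.Helper748.TP Pool.Agent.H941.TF

/-- the evaluation at a point -/
noncomputable def evh (t x : ℂ) : ℂ[X][X] →+* ℂ := (evalRingHom x).comp (evt t)

theorem evh_eq (t x : ℂ) (P : ℂ[X][X]) : evh t x P = ev2 P t x := rfl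

theorem ev2_sub (P Q : ℂ[X][X]) (t x : ℂ) : ev2 (P - Q) t x = ev2 P t x - ev2 Q t x :=
  map_sub (evh t x) P Q

theorem ev2_pow (P : ℂ[X][X]) (n : ℕ) (t x : ℂ) : ev2 (P ^ n) t x = ev2 P t x ^ n :=
  map_pow (evh t x) P n

theorem ev2_one (t x : ℂ) : ev2 1 t x = 1 := map_one (evh t x)

theorem ev2_zero (t x : ℂ) : ev2 0 t x = 0 := map_zero (evh t x)

theorem ev2_kc (c t x : ℂ) : ev2 (kc c) t x = c := by rw [ev2, evt_kc, eval_C]

theorem ev2_C (c : ℂ[X]) (t x : ℂ) : ev2 (C c) t x = c.eval t := by rw [ev2, evt_C, eval_C]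

theorem ev2_X (t x : ℂ) : ev2 X t x = x := by
  rw [ev2, evt, coe_mapRingHom, map_X, eval_X]

theorem ev2_nat (n : ℕ) (t x : ℂ) : ev2 (n : ℂ[X][X]) t x = n := map_natCast (evh t x) n

/-- the maximal ideals are points -/
theorem max_pt (M : Ideal ℂ[X][X]) (hM : M.IsMaximal) : ∃ t x : ℂ, ∀ F, F ∈ M ↔ ev2 F t x = 0 := by
  have := hM
  let _ : Field (ℂ[X][X] ⧸ M) := Ideal.Quotient.field M
  have h0 : Algebra.FiniteType ℂ ℂ[X] := inferInstance
  have h1 : Algebra.FiniteType ℂ[X] ℂ[X][X] := inferInstance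
  have h2 : Algebra.FiniteType ℂ ℂ[X][X] := Algebra.FiniteType.trans h0 h1
  have h3 : Algebra.FiniteType ℂ (ℂ[X][X] ⧸ M) :=
    Algebra.FiniteType.of_surjective (Ideal.Quotient.mkₐ ℂ M) (Ideal.Quotient.mkₐ_surjective ℂ M)
  have h4 : Module.Finite ℂ (ℂ[X][X] ⧸ M) := finite_of_finite_type_of_isJacobsonRing ℂ _
  have hb := IsAlgClosed.algebraMap_bijective_of_isIntegral (k := ℂ) (K := ℂ[X][X] ⧸ M)
  obtain ⟨t, ht⟩ := hb.2 (Ideal.Quotient.mk M (C X))
  obtain ⟨x, hx⟩ := hb.2 (Ideal.Quotient.mk M X)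
  refine ⟨t, x, fun F => ?_⟩
  have key : (algebraMap ℂ (ℂ[X][X] ⧸ M)).comp (evh t x) = Ideal.Quotient.mk M := by
    refine Polynomial.ringHom_ext' (Polynomial.ringHom_ext ?_ ?_) ?_
    · intro a
      change algebraMap ℂ (ℂ[X][X] ⧸ M) (ev2 (C (C a)) t x) = _
      rw [ev2_C, eval_C]
      rfl
    · change algebraMap ℂ (ℂ[X][X] ⧸ M) (ev2 (C X) t x) = _
      rw [ev2_C, eval_X, ht]
      rfl
    · change algebraMap ℂ (ℂ[X][X] ⧸ M) (ev2 X t x) = _
      rw [ev2_X, hx]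
  have h5 : algebraMap ℂ (ℂ[X][X] ⧸ M) (ev2 F t x) = Ideal.Quotient.mk M F :=
    congrArg (fun f : ℂ[X][X] →+* ℂ[X][X] ⧸ M => f F) key
  rw [← Ideal.Quotient.eq_zero_iff_mem, ← h5]
  exact map_eq_zero_iff _ hb.1

/-- a decomposition at a point -/
theorem dec (P : ℂ[X][X]) (t x : ℂ) : ∃ A B : ℂ[X][X],
    P = kc (ev2 P t x) + C (X - C t) * A + (X - C (C x)) * B := by
  obtain ⟨B, hB⟩ : X - C (C x) ∣ P - C (P.eval (C x)) := X_sub_C_dvd_sub_C_eval
  obtain ⟨a, ha⟩ : X - C t ∣ P.eval (C x) - C ((P.eval (C x)).eval t) := X_sub_C_dvd_sub_C_eval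
  have h1 : (P.eval (C x)).eval t = ev2 P t x := by
    rw [ev2, evt, coe_mapRingHom, map_evalRingHom_eval]
  refine ⟨C a, B, ?_⟩
  have h2 := congrArg (fun p : ℂ[X] => (C p : ℂ[X][X])) ha
  beta_reduce at h2
  rw [C_sub, C_mul (a := X - C t), h1] at h2
  rw [kc]
  linear_combination hB + h2

theorem dec' (P : ℂ[X][X]) (t x : ℂ) (h : ev2 P t x = 0) : ∃ A B : ℂ[X][X],
    P = C (X - C t) * A + (X - C (C x)) * B ∧ ev2 (dt P) t x = ev2 A t x ∧
      ev2 (derivative P) t x = ev2 B t x := by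
  obtain ⟨A, B, hAB⟩ := dec P t x
  have h0 : (kc 0 : ℂ[X][X]) = 0 := by rw [kc, C_0, C_0]
  rw [h, h0, zero_add] at hAB
  refine ⟨A, B, hAB, ?_, ?_⟩
  · have h1 : dt P = A + C (X - C t) * dt A + (X - C (C x)) * dt B := by
      rw [hAB, dt_add, dt_mul, dt_mul, dt_C, derivative_X_sub_C, dt_sub, dt_C, derivative_C]
      have hX : dt (X : ℂ[X][X]) = 0 := by
        ext1 n
        rw [coeff_dt, coeff_X, coeff_zero]
        split_ifs
        · exact derivative_one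
        · exact derivative_zero
      rw [hX, C_1]
      simp
    rw [h1, ev2_add, ev2_add, ev2_mul, ev2_mul, ev2_C, ev2_sub, ev2_C, ev2_X]
    simp
  · have h1 : derivative P = B + C (X - C t) * derivative A + (X - C (C x)) * derivative B := by
      rw [hAB, derivative_add, derivative_mul, derivative_mul, derivative_C, derivative_sub,
        derivative_X, derivative_C]
      ring
    rw [h1, ev2_add, ev2_add, ev2_mul, ev2_mul, ev2_C, ev2_sub, ev2_C, ev2_X]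
    simp

/-- the ideal of a transversal intersection is radical -/
theorem rad {Φ G F : ℂ[X][X]} (hJ : ∀ t x, ev2 Φ t x = 0 → ev2 G t x = 0 →
      ev2 (dt Φ) t x * ev2 (derivative G) t x - ev2 (derivative Φ) t x * ev2 (dt G) t x ≠ 0)
    (hF : ∀ t x, ev2 Φ t x = 0 → ev2 G t x = 0 → ev2 F t x = 0) :
    ∃ A B, F = Φ * A + G * B := by
  classical
  set I : Ideal ℂ[X][X] := Ideal.span {Φ, G} with hI
  set J : Ideal ℂ[X][X] := Submodule.comap (LinearMap.toSpanSingleton ℂ[X][X] ℂ[X][X] F) I with hJd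
  have hmem : ∀ c, c ∈ J ↔ ∃ A B, c * F = Φ * A + G * B := by
    intro c
    rw [hJd, Submodule.mem_comap, LinearMap.toSpanSingleton_apply, smul_eq_mul, hI,
      Ideal.mem_span_pair]
    constructor
    · rintro ⟨a, b, hab⟩
      exact ⟨a, b, by rw [← hab]; ring⟩
    · rintro ⟨a, b, hab⟩
      exact ⟨a, b, by rw [hab]; ring⟩
  by_cases hT : J = ⊤
  · have h1 : (1 : ℂ[X][X]) ∈ J := by rw [hT]; trivial
    obtain ⟨A, B, h⟩ := (hmem 1).1 h1
    exact ⟨A, B, by rw [← h, one_mul]⟩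
  · exfalso
    obtain ⟨M, hM, hJM⟩ := Ideal.exists_le_maximal J hT
    obtain ⟨t, x, hpt⟩ := max_pt M hM
    have hΦ : ev2 Φ t x = 0 := (hpt Φ).1 (hJM ((hmem Φ).2 ⟨F, 0, by ring⟩))
    have hG : ev2 G t x = 0 := (hpt G).1 (hJM ((hmem G).2 ⟨0, F, by ring⟩))
    obtain ⟨A1, B1, h1, a1, b1⟩ := dec' Φ t x hΦ
    obtain ⟨A2, B2, h2, a2, b2⟩ := dec' G t x hG
    obtain ⟨A3, B3, h3, -, -⟩ := dec' F t x (hF t x hΦ hG)
    have hc : A1 * B2 - B1 * A2 ∈ J := (hmem _).2 ⟨B2 * A3 - A2 * B3, A1 * B3 - B1 * A3, by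
      rw [h1, h2, h3]; ring⟩
    have h4 := (hpt _).1 (hJM hc)
    refine hJ t x hΦ hG ?_
    rw [a1, b1, a2, b2, ← h4, ev2_sub, ev2_mul, ev2_mul]

/-- a smooth curve -/
theorem smooth_unit {Φ : ℂ[X][X]} (hS : ∀ t x, ev2 Φ t x = 0 → ev2 (dt Φ) t x = 0 →
    ev2 (derivative Φ) t x ≠ 0) :
    ∃ α β κ : ℂ[X][X], α * derivative Φ + β * dt Φ + κ * Φ = 1 := by
  set I : Ideal ℂ[X][X] := Ideal.span {derivative Φ, dt Φ, Φ} with hI
  have hT : I = ⊤ := by
    by_contra hT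
    obtain ⟨M, hM, hIM⟩ := Ideal.exists_le_maximal I hT
    obtain ⟨t, x, hpt⟩ := max_pt M hM
    have h1 : derivative Φ ∈ I := Ideal.subset_span (by simp)
    have h2 : dt Φ ∈ I := Ideal.subset_span (by simp)
    have h3 : Φ ∈ I := Ideal.subset_span (by simp)
    exact hS t x ((hpt _).1 (hIM h3)) ((hpt _).1 (hIM h2)) ((hpt _).1 (hIM h1))
  have h1 : (1 : ℂ[X][X]) ∈ I := by rw [hT]; trivial
  rw [hI, Ideal.mem_span_insert] at h1
  obtain ⟨α, z, hz, h2⟩ := h1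
  obtain ⟨β, κ, h3⟩ := Ideal.mem_span_pair.1 hz
  exact ⟨α, β, κ, by rw [h2, ← h3]; ring⟩

/-- divisibility by a monic polynomial from the values -/
theorem dvd_of_ev {Φ F : ℂ[X][X]} (hΦ : Φ.Monic) {B : Finset ℂ}
    (h : ∀ t ∉ B, (evt t Φ).Separable ∧ ∀ x, ev2 Φ t x = 0 → ev2 F t x = 0) : Φ ∣ F := by
  classical
  rw [← modByMonic_eq_zero_iff_dvd hΦ]
  have h1 : ∀ t ∉ B, evt t (F %ₘ Φ) = 0 := by
    intro t ht
    obtain ⟨h2, h3⟩ := h t ht
    have h4 : (evt t Φ).Monic := by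
      rw [evt, coe_mapRingHom]
      exact hΦ.map _
    have h5 : evt t Φ ∣ evt t F := by
      by_cases hF : evt t F = 0
      · rw [hF]; exact dvd_zero _
      · rw [IsAlgClosed.dvd_iff_roots_le_roots h4.ne_zero hF,
          Multiset.le_iff_subset (nodup_roots h2)]
        intro x hx
        rw [mem_roots h4.ne_zero] at hx
        rw [mem_roots hF]
        exact h3 x hx
    have h6 : evt t (F %ₘ Φ) = evt t F %ₘ evt t Φ := by
      rw [evt, coe_mapRingHom, map_modByMonic _ hΦ]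
    rw [h6, modByMonic_eq_zero_iff_dvd h4]
    exact h5
  ext1 i
  rw [coeff_zero]
  by_contra hc
  obtain ⟨t, ht⟩ := Infinite.exists_notMem_finset (B ∪ ((F %ₘ Φ).coeff i).roots.toFinset)
  rw [Finset.mem_union, not_or] at ht
  refine ht.2 ?_
  rw [Multiset.mem_toFinset, mem_roots hc, IsRoot, ← Pool.Agent.Helper748.TP.coeff_evt, h1 t ht.1,
    coeff_zero]

end Pool.Agent.H941.SC
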