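import Pool.Agent.H941.TF.Glob
import Pool.Agent.H941.SC.Null

set_option autoImplicit false
set_option linter.unusedSectionVars false
set_option linter.unusedVariables false

/-! # Bounded functions on the curve which vanish at infinity -/

namespace Pool.Agent.H941.SC

open Polynomial Finset Filter Topology Metric Pool.Agent.Helper748.TP Pool.Agent.H941.TF

variable {N : ℕ}

/-- the product over the roots -/
noncomputable def Pl (Q : ℂ[X][X]) (v : ℂ → ℂ → ℂ) (t : ℂ) : ℂ :=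
  ∏ z ∈ (evt t Q).roots.toFinset, (1 - v t z)

theorem Pl_eq {Q : ℂ[X][X]} {v : ℂ → ℂ → ℂ} {t : ℂ} {a : Fin N → ℂ} (hr : evt t Q = nod a)
    (ha : Function.Injective a) : Pl Q v t = ∏ j, (1 - v t (a j)) := by
  classical
  rw [Pl, hr, roots_nod, Finset.prod_image fun i _ j _ h => ha h]

theorem Pl_lim {Q : ℂ[X][X]} {v : ℂ → ℂ → ℂ} {T : ℂ → ℂ} {a : Fin N → ℂ → ℂ} {f : Filter ℂ}
    (h : ∀ᶠ u in f, evt (T u) Q = nod fun j => a j u)
    (hi : ∀ᶠ u in f, Function.Injective fun j => a j u) {L : Fin N → ℂ}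
    (hL : ∀ j, Tendsto (fun u => v (T u) (a j u)) f (𝓝 (L j))) :
    Tendsto (fun u => Pl Q v (T u)) f (𝓝 (∏ j, (1 - L j))) := by
  have h1 : (fun u => ∏ j, (1 - v (T u) (a j u))) =ᶠ[f] fun u => Pl Q v (T u) := by
    filter_upwards [h, hi] with u hu hiu
    exact (Pl_eq hu hiu).symm
  exact Tendsto.congr' h1 (tendsto_finsetProd _ fun j _ => tendsto_const_nhds.sub (hL j))

/-- **Liouville's theorem on the curve.** -/
theorem van {Q : ℂ[X][X]} (hQ : Q.Monic) (hN : Q.natDegree = N) {D0 : ℂ[X]} {α β : ℂ[X][X]}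
    (hαβ : C D0 = α * Q + β * derivative Q) {v : ℂ → ℂ → ℂ} {B : Finset ℂ}
    (hB : ∀ t ∉ B, D0.eval t ≠ 0)
    (h1 : ∀ t ∉ B, ∀ a : ℂ → ℂ, DifferentiableAt ℂ a t → (∀ᶠ s in 𝓝 t, ev2 Q s (a s) = 0) →
      DifferentiableAt ℂ (fun s => v s (a s)) t)
    (h2 : ∀ b ∈ B, ∃ (m : ℕ) (a : Fin N → ℂ → ℂ), 0 < m ∧ Par N Q (fun u => b + u ^ m) a ∧
      ∀ j, ∃ L, Tendsto (fun u => v (b + u ^ m) (a j u)) (𝓝[≠] 0) (𝓝 L))
    (h3 : ∃ X : Fin N → ℂ → ℂ, Par N Q (fun u => u⁻¹) (fun j u => X j u / u) ∧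
      ∀ j, Tendsto (fun u => v u⁻¹ (X j u / u)) (𝓝[≠] 0) (𝓝 0)) :
    ∀ t ∉ B, ∀ x, ev2 Q t x = 0 → v t x = 0 := by
  classical
  have key : ∀ ζ : ℂ, ∀ t ∉ B, Pl Q (fun s x => ζ * v s x) t = 1 := by
    intro ζ
    refine (liou (F := Pl Q fun s x => ζ * v s x) (B := B) ?_ ?_ ?_).1
    · intro t ht
      have h4 : (B : Set ℂ)ᶜ ∈ 𝓝 t :=
        B.finite_toSet.isClosed.isOpen_compl.mem_nhds (by simpa using ht)
      obtain ⟨ρ, hρ, h5⟩ := Metric.mem_nhds_iff.1 h4
      have h5' : ∀ u ∈ ball t ρ, u ∉ B := fun u hu => by simpa using h5 hu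
      obtain ⟨a, h6, h7, h8⟩ := par_ball hQ hN (c := t) (ρ := ρ) (fun u hu =>
        sep_of_disc hαβ (hB u (h5' u hu)))
      have hbt := ball_mem_nhds t hρ
      have e1 : ∀ᶠ u in 𝓝 t, evt u Q = nod fun j => a j u := Filter.mem_of_superset hbt h8
      have e2 : ∀ᶠ u in 𝓝 t, Function.Injective fun j => a j u := Filter.mem_of_superset hbt h7
      have e3 : Pl Q (fun s x => ζ * v s x) =ᶠ[𝓝 t] fun u => ∏ j, (1 - ζ * v u (a j u)) := by
        filter_upwards [e1, e2] with u hu hiu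
        exact Pl_eq hu hiu
      refine DifferentiableAt.congr_of_eventuallyEq ?_ e3
      refine DifferentiableAt.fun_finsetProd fun j _ => (differentiableAt_const _).fun_sub
        ((differentiableAt_const _).fun_mul (h1 t ht (a j) ((h6 j).differentiableAt hbt) ?_))
      filter_upwards [e1] with u hu
      rw [ev2, hu]
      exact eval_nod (x := fun j => a j u) j
    · intro b hb
      obtain ⟨m, a, hm, P, hL⟩ := h2 b hb
      choose L hL using hL
      exact ⟨_, lim_pow hm (Pl_lim (v := fun s x => ζ * v s x) P.root P.inj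
        fun j => (hL j).const_mul ζ)⟩
    · obtain ⟨X', P, hL⟩ := h3
      have h4 := lim_inv (Pl_lim (v := fun s x => ζ * v s x) P.root P.inj
        fun j => (hL j).const_mul ζ)
      simpa using h4
  intro t ht x hx
  by_contra hv
  have h4 := key (v t x)⁻¹ t ht
  rw [Pl, Finset.prod_eq_zero (i := x)] at h4
  · exact zero_ne_one h4
  · rw [Multiset.mem_toFinset, mem_roots (evt_monic hQ t).ne_zero]
    exact hx
  · rw [inv_mul_cancel₀ hv, sub_self]

end Pool.Agent.H941.SC
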