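import Pool.Agent.H941.SC.Sys
import Pool.Agent.H941.SC.Null
import Pool.Agent.H941.TF.Contra

set_option autoImplicit false
set_option linter.unusedSectionVars false
set_option linter.unusedVariables false

/-! # The primitive has no poles outside the curve -/

namespace Pool.Agent.H941.SC

open Polynomial Finset Filter Topology Metric Pool.Agent.Helper748.TP Pool.Agent.H941.TF

theorem lag_eval {N : ℕ} {x : Fin N → ℂ} (hx : Function.Injective x) {r : ℂ[X]}
    (hr : r.degree < (N : WithBot ℕ)) (z : ℂ) :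
    r.eval z = ∑ j, r.eval (x j) / (derivative (nod x)).eval (x j) *
      ∏ i ∈ univ.erase j, (z - x i) := by
  have hsd : r.degree < (#(univ : Finset (Fin N)) : WithBot ℕ) := by
    rwa [card_univ, Fintype.card_fin]
  have h2 := Lagrange.eq_interpolate (v := x) (s := univ) (fun a _ b _ h => hx h) hsd
  conv_lhs => rw [h2]
  rw [Lagrange.interpolate_apply, eval_finsetSum]
  refine Finset.sum_congr rfl fun j _ => ?_
  rw [eval_mul, eval_C, Lagrange.basis, eval_prod, der_nod, div_mul_eq_mul_div, mul_div_assoc,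
    ← Finset.prod_div_distrib]
  congr 1
  refine Finset.prod_congr rfl fun k hk => ?_
  rw [Lagrange.basisDivisor, eval_mul, eval_C, eval_sub, eval_X, eval_C, div_eq_mul_inv, mul_comm]

theorem cont_ev2 (p : ℂ[X][X]) (t x : ℂ) : ContinuousAt (fun v => ev2 p v x) t :=
  (hasDerivAt_ev2 p (hasDerivAt_id' t) (hasDerivAt_const t x)).continuousAt

theorem C_dvd_of_lim (n : ℕ) : ∀ d : ℂ[X], d.natDegree = n → d ≠ 0 → ∀ p : ℂ[X][X],
    (∀ t₀ x : ℂ, ∃ l, Tendsto (fun t => ev2 p t x / d.eval t) (𝓝[≠] t₀) (𝓝 l)) → C d ∣ p := by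
  induction n with
  | zero =>
    intro d hd hd0 p h
    have h1 : IsUnit (C d : ℂ[X][X]) := by
      rw [isUnit_C, eq_C_of_natDegree_eq_zero hd, isUnit_C]
      refine isUnit_iff_ne_zero.2 fun h0 => hd0 ?_
      rw [eq_C_of_natDegree_eq_zero hd, h0, C_0]
    exact h1.dvd
  | succ n ih =>
    intro d hd hd0 p h
    obtain ⟨t₀, ht⟩ := IsAlgClosed.exists_root d (by
      rw [degree_eq_natDegree hd0, hd]
      exact_mod_cast Nat.succ_ne_zero n)
    have hdt : ∀ᶠ t in 𝓝[≠] t₀, d.eval t ≠ 0 := by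
      obtain ⟨ρ, hρ, h1⟩ := ball_ne hd0 t₀
      filter_upwards [mem_nhdsWithin_of_mem_nhds (ball_mem_nhds t₀ hρ), self_mem_nhdsWithin]
        with t h2 h3
      exact h1 t h2 h3
    have h0 : evt t₀ p = 0 := by
      refine Polynomial.funext fun x => ?_
      rw [eval_zero]
      obtain ⟨l, hl⟩ := h t₀ x
      have h2 : Tendsto (fun t => d.eval t) (𝓝[≠] t₀) (𝓝 0) := by
        have h3 := (d.continuous.tendsto t₀).mono_left (nhdsWithin_le_nhds (s := {t₀}ᶜ))
        rwa [IsRoot.def.1 ht] at h3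
      have h3 := hl.mul h2
      rw [mul_zero] at h3
      have h4 : Tendsto (fun t => ev2 p t x) (𝓝[≠] t₀) (𝓝 (ev2 p t₀ x)) :=
        (cont_ev2 p t₀ x).tendsto.mono_left nhdsWithin_le_nhds
      refine tendsto_nhds_unique h4 (h3.congr' ?_)
      filter_upwards [hdt] with t h5
      field_simp
    obtain ⟨p', hp'⟩ := tau_dvd h0
    obtain ⟨d', hd'⟩ := dvd_iff_isRoot.2 ht
    have hd'0 : d' ≠ 0 := by
      rintro rfl
      exact hd0 (by rw [hd', mul_zero])
    have h5 := ih d' (by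
      have h6 := congrArg natDegree hd'
      rw [natDegree_mul (X_sub_C_ne_zero t₀) hd'0, natDegree_X_sub_C, hd] at h6
      omega) hd'0 p' (fun t₁ x => by
      obtain ⟨l, hl⟩ := h t₁ x
      refine ⟨l, hl.congr' ?_⟩
      have h7 : ∀ᶠ t in 𝓝[≠] t₁, t ≠ t₀ := by
        by_cases h8 : t₁ = t₀
        · rw [h8]
          exact self_mem_nhdsWithin
        · exact (isOpen_compl_singleton.mem_nhds (show t₁ ∈ ({t₀} : Set ℂ)ᶜ from h8)) |>
            mem_nhdsWithin_of_mem_nhds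
      filter_upwards [h7] with t h8
      rw [hp', hd', ev2_mul, ev2_C, tau, eval_mul, eval_sub, eval_X, eval_C]
      exact mul_div_mul_left _ _ (sub_ne_zero.2 h8))
    obtain ⟨w, hw⟩ := h5
    refine ⟨w, ?_⟩
    rw [hp', hw, hd', tau, C_mul]
    ring

theorem C_dvd_op {Q g r : ℂ[X][X]} {N n : ℕ} {c : ℂ} {d : ℂ[X]} (hN : Q.natDegree ≤ N)
    (hQ : Q.coeff N = 1) (hN1 : 1 ≤ N) (hg : g.natDegree ≤ N - 1) (hgc : g.coeff (N - 1) = C c)
    (hr : r.natDegree ≤ n) (hc : ∀ k : ℕ, k ≤ n → (k : ℂ) + c ≠ 0)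
    (h : C d ∣ Q * derivative r + g * r) : C d ∣ r := by
  set A := ℂ[X] ⧸ Ideal.span {d} with hA
  set φ : ℂ[X] →+* A := Ideal.Quotient.mk _ with hφ
  have hφd : φ d = 0 := Ideal.Quotient.eq_zero_iff_mem.2 (Ideal.mem_span_singleton_self d)
  have key : r.map φ = 0 := by
    by_contra hne
    set k := (r.map φ).natDegree with hk
    have hkn : k ≤ n := natDegree_map_le.trans hr
    have h1 := lead_op (Q := Q.map φ) (g := g.map φ) (R := r.map φ) (N := N) (n := k)
      (c := φ (C c)) (natDegree_map_le.trans hN) (by rw [coeff_map, hQ, map_one]) hN1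
      (natDegree_map_le.trans hg) (by rw [coeff_map, hgc]) le_rfl
    have h2 : Q.map φ * derivative (r.map φ) + g.map φ * r.map φ = 0 := by
      obtain ⟨w, hw⟩ := h
      have h3 := congrArg (Polynomial.map φ) hw
      rw [Polynomial.map_add, Polynomial.map_mul, Polynomial.map_mul, Polynomial.map_mul, map_C,
        hφd, C_0, zero_mul] at h3
      rw [derivative_map]
      exact h3
    rw [h2, coeff_zero] at h1
    have h4 : (k : A) + φ (C c) = φ (C ((k : ℂ) + c)) := by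
      rw [C_add, RingHom.map_add]
      simp
    have h5 : φ (C ((k : ℂ) + c)⁻¹) * φ (C ((k : ℂ) + c)) = 1 := by
      rw [← RingHom.map_mul, ← C_mul, inv_mul_cancel₀ (hc k hkn), C_1, RingHom.map_one]
    have h6 : (r.map φ).coeff k = 0 := by
      calc (r.map φ).coeff k = (φ (C ((k : ℂ) + c)⁻¹) * φ (C ((k : ℂ) + c))) *
            (r.map φ).coeff k := by rw [h5, one_mul]
        _ = φ (C ((k : ℂ) + c)⁻¹) * (((k : A) + φ (C c)) * (r.map φ).coeff k) := by
          rw [h4]; ring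
        _ = 0 := by rw [← h1, mul_zero]
    exact hne (leadingCoeff_eq_zero.1 h6)
  rw [C_dvd_iff_dvd_coeff]
  intro i
  rw [← Ideal.mem_span_singleton, ← Ideal.Quotient.eq_zero_iff_mem]
  have h1 := congrArg (fun p => coeff p i) key
  beta_reduce at h1
  rwa [coeff_map, coeff_zero] at h1

section
variable {N : ℕ} {Qp γ hx ht V : ℂ[X][X]} {σ : ℝ} {d : ℂ[X]} {p r q : ℂ[X][X]}

/-- The parametrization of the roots near a point, and the limits of the residues -/
theorem fin_pt (D : Dat N Qp γ hx ht σ V d p r q) (hN2 : 2 ≤ N) (hσ : σ < 0) {M : ℕ}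
    (hγ : γ ∣ Qp ^ M) {D0 : ℂ[X]} {α β : ℂ[X][X]} (hD : D0 ≠ 0)
    (hαβ : C D0 = α * Qp + β * derivative Qp) (b : ℂ) :
    ∃ (m : ℕ) (a : Fin N → ℂ → ℂ) (L : Fin N → ℂ), 0 < m ∧ (∀ j, AnalyticAt ℂ (a j) 0) ∧
      Par N Qp (fun u => b + u ^ m) a ∧ (∀ᶠ u in 𝓝[≠] (0 : ℂ), d.eval (b + u ^ m) ≠ 0) ∧
      (∀ j, Tendsto (fun u => yy σ hx d p (b + u ^ m) (a j u)) (𝓝[≠] 0) (𝓝 (L j))) := by
  obtain ⟨ρ, hρ, h1⟩ := ball_ne (mul_ne_zero D.d0 hD) b
  obtain ⟨m, a, hm, h2, h3, h4⟩ := par_punct D.monic D.deg (c := b) hρ (fun t ht htb => by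
    have h := h1 t ht htb
    rw [eval_mul] at h
    exact sep_of_disc hαβ (right_ne_zero_of_mul h))
  have hTan : AnalyticAt ℂ (fun u : ℂ => b + u ^ m) 0 := by fun_prop
  have P : Par N Qp (fun u => b + u ^ m) a :=
    ⟨hTan.meromorphicAt, fun j => (h2 j).meromorphicAt, h4, h3⟩
  have hd : ∀ᶠ u in 𝓝[≠] (0 : ℂ), d.eval (b + u ^ m) ≠ 0 := by
    have h5 : ∀ᶠ u in 𝓝 (0 : ℂ), b + u ^ m ∈ ball b ρ := by
      have h6 : Tendsto (fun u : ℂ => b + u ^ m) (𝓝 0) (𝓝 b) := by
        have := hTan.continuousAt.tendsto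
        simpa [zero_pow hm.ne'] using this
      exact h6 (ball_mem_nhds b hρ)
    filter_upwards [h5.filter_mono nhdsWithin_le_nhds, ev_ne] with u hu hu0
    have h := h1 _ hu (by
      intro h
      have h' : u ^ m = 0 := by linear_combination h
      exact pow_ne_zero m hu0 h')
    rw [eval_mul] at h
    exact left_ne_zero_of_mul h
  obtain ⟨L, h5⟩ := lim_fin' D hN2 hσ hγ P hTan h2 hd
  exact ⟨m, a, L, hm, h2, P, hd, h5⟩

/-- **The primitive has no other poles.** -/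
theorem poly (D : Dat N Qp γ hx ht σ V d p r q) (hN2 : 2 ≤ N) (hσ : σ < 0) {M : ℕ}
    (hγ : γ ∣ Qp ^ M) {D0 : ℂ[X]} {α β : ℂ[X][X]} (hD : D0 ≠ 0)
    (hαβ : C D0 = α * Qp + β * derivative Qp) (hlc : (kc (σ : ℂ) * hx).coeff (N - 1) = -3)
    (hV : V.natDegree ≤ 1) :
    ∃ p1 ρ : ℂ[X][X], p = C d * p1 ∧ p1.natDegree ≤ N - 2 ∧ (ρ - V * Qp).natDegree ≤ N - 1 ∧
      Qp ^ 2 = Qp * (dt p1 + derivative ρ) + (kc (σ : ℂ) * ht - dt Qp) * p1 +
        (kc (σ : ℂ) * hx - derivative Qp) * ρ := by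
  have hCd : (C d : ℂ[X][X]) ≠ 0 := C_ne_zero.2 D.d0
  -- the first component
  obtain ⟨p1, hp1⟩ : C d ∣ p := by
    refine C_dvd_of_lim _ d rfl D.d0 p fun t₀ z => ?_
    obtain ⟨m, a, L, hm, ha, P, hd, hL⟩ := fin_pt D hN2 hσ hγ hD hαβ t₀
    obtain ⟨b, hb, hbe, -, -⟩ := D.system hN2 hσ hγ P hd
    refine ⟨∑ j, (b j : ℂ) * L j * ∏ i ∈ univ.erase j, (z - a i 0), lim_pow hm ?_⟩
    have h1 : (fun u => ∑ j, (b j : ℂ) * yy σ hx d p (t₀ + u ^ m) (a j u) *
        ∏ i ∈ univ.erase j, (z - a i u)) =ᶠ[𝓝[≠] 0]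
        fun u => ev2 p (t₀ + u ^ m) z / d.eval (t₀ + u ^ m) := by
      filter_upwards [P.root, P.inj, hbe, hd] with u h1 h2 h3 h4
      have h5 := lag_eval h2 (r := evt (t₀ + u ^ m) p) (evt_deg (lt_of_le' (by omega)
        (D.pd.trans (by omega))) _) z
      change _ = (evt (t₀ + u ^ m) p).eval z / _
      rw [h5, Finset.sum_div]
      refine Finset.sum_congr rfl fun j _ => ?_
      have h7 := der_nod_ne h2 j
      have h8 : ev2 (derivative Qp) (t₀ + u ^ m) (a j u) =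
          (derivative (nod fun j => a j u)).eval (a j u) := by
        rw [ev2, evt_der, h1]
      have h9 : (b j : ℂ) ≠ 0 := by exact_mod_cast (hb j).ne
      rw [yy, h3 j, h8]
      change (b j : ℂ) * ((evt (t₀ + u ^ m) p).eval (a j u) / _) * _ = _
      field_simp
    refine Tendsto.congr' h1 (tendsto_finsetSum _ fun j _ => ((hL j).const_mul _).mul
      (tendsto_finsetProd _ fun i _ => tendsto_const_nhds.sub ?_))
    exact (ha i).continuousAt.tendsto.mono_left nhdsWithin_le_nhds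
  -- the second one
  set l := kc (σ : ℂ) * ht with hl
  set h := kc (σ : ℂ) * hx with hh
  have hQN : Qp.coeff N = 1 := by rw [← D.deg]; exact D.monic
  have hhd : h.natDegree ≤ N - 1 := (natDegree_C_mul_le _ _).trans D.hxd
  have hg1 : (h - derivative Qp).natDegree ≤ N - 1 := by
    have := natDegree_derivative_le Qp
    have h2 := D.deg
    exact (natDegree_sub_le _ _).trans (max_le hhd (by omega))
  have hgc : (h - derivative Qp).coeff (N - 1) = C (-3 - (N : ℂ)) := by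
    rw [coeff_sub, hlc, coeff_derivative, (by omega : N - 1 + 1 = N), hQN, one_mul]
    have h1 : ((N - 1 : ℕ) : ℂ[X]) + 1 = (N : ℂ[X]) := by
      rw [← Nat.cast_succ]
      congr 1
      omega
    rw [h1, C_sub, C_neg, map_ofNat (C : ℂ →+* ℂ[X]) 3]
    simp
  have hrd : r.natDegree ≤ N + 1 := by
    rw [D.rE]
    refine (natDegree_add_le _ _).trans (max_le ?_ (D.qd.trans (by omega)))
    refine natDegree_mul_le.trans ?_
    have h1 : (C d * V).natDegree ≤ 1 := (natDegree_C_mul_le _ _).trans hV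
    have h2 := D.deg
    omega
  have heq : C d * Qp ^ 2 = C d * (Qp * dt p1) + C d * ((l - dt Qp) * p1) +
      (Qp * derivative r + (h - derivative Qp) * r) := by
    refine mul_left_cancel₀ hCd ?_
    have h1 := D.eq
    rw [hp1, dt_mul, dt_C] at h1
    linear_combination h1
  obtain ⟨ρ, hρ⟩ : C d ∣ r := by
    refine C_dvd_op (c := -3 - (N : ℂ)) D.deg.le hQN (by omega) hg1 hgc hrd ?_
      ⟨Qp ^ 2 - Qp * dt p1 - (l - dt Qp) * p1, by linear_combination -heq⟩
    intro k hk h0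
    have h1 : ((N + 3 : ℕ) : ℂ) = (k : ℂ) := by
      push_cast
      linear_combination -h0
    have h2 := Nat.cast_injective h1
    omega
  refine ⟨p1, ρ, hp1, ?_, ?_, ?_⟩
  · have h1 := D.pd
    rw [hp1] at h1
    rwa [natDegree_C_mul_of_mul_ne_zero' D.d0] at h1
  · have h1 := D.qd
    have h2 : q = C d * (ρ - V * Qp) := by
      have h3 := D.rE
      rw [hρ] at h3
      linear_combination -h3
    rw [h2, natDegree_C_mul_of_mul_ne_zero' D.d0] at h1
    exact h1
  · refine mul_left_cancel₀ hCd ?_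
    rw [hρ, derivative_C_mul] at heq
    linear_combination heq
where
  natDegree_C_mul_of_mul_ne_zero' {d : ℂ[X]} (hd : d ≠ 0) {p : ℂ[X][X]} :
      (C d * p).natDegree = p.natDegree := natDegree_C_mul hd

end

end Pool.Agent.H941.SC
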