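import Pool.Agent.H941.SC.Ana
import Pool.Agent.H941.SC.Poly
import Pool.Agent.H941.SC.Liou

set_option autoImplicit false
set_option linter.unusedSectionVars false
set_option linter.unusedVariables false

/-! # There is no primitive -/

namespace Pool.Agent.H941.SC

open Polynomial Finset Filter Topology Metric Pool.Agent.Helper748.TP Pool.Agent.H941.TF

section
variable {Φ G hx ht γ Φi Gi hxQ htQ : ℂ[X][X]} {D0 d : ℂ[X]} {σ β : ℝ} {e n : ℕ}
  {γ' V p r q : ℂ[X][X]}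

/-- **There is no primitive.** -/
theorem main (F : Full Φ G hx ht γ Φi Gi D0 σ β e n)
    (e1 : kc (σ : ℂ) * hxQ = hh Φ G hx σ β) (e2 : kc (σ : ℂ) * htQ = ll Φ G ht σ β)
    (D : Dat (e + n) (Φ * G) γ' hxQ htQ σ V d p r q)
    (hV : V = VV (e + n) (Φ * G) (kc (σ : ℂ) * hxQ)) {M : ℕ} (hγ : γ' ∣ (Φ * G) ^ M)
    {δ : ℕ} (hlc : hxQ.coeff (e + n - 1) = C (δ : ℂ)) (hsum : σ * δ = -3) : False := by
  classical
  have he := F.he
  have hσ := F.hσ
  set N := e + n with hNd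
  have hN2 : 2 ≤ N := by omega
  set Q := Φ * G with hQd
  have hQm : Q.Monic := D.monic
  have hQN : Q.natDegree = N := D.deg
  have hD0 := F.D00
  obtain ⟨α, β', hαβ⟩ := F.disc
  have hB : ∀ t ∉ D0.roots.toFinset, D0.eval t ≠ 0 := by
    intro t ht h
    rw [Multiset.mem_toFinset, mem_roots hD0] at ht
    exact ht h
  have hi : dt (hh Φ G hx σ β) * Q - hh Φ G hx σ β * dt Q =
      derivative (ll Φ G ht σ β) * Q - ll Φ G ht σ β * derivative Q := by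
    rw [← e1, ← e2]
    exact integ (σ : ℂ) D.γ0 D.hxE D.htE
  have hhd : (hh Φ G hx σ β).natDegree ≤ N - 1 := by
    rw [← e1]
    exact (natDegree_C_mul_le _ _).trans D.hxd
  have hld : (ll Φ G ht σ β).natDegree ≤ N - 1 := by
    rw [← e2]
    exact (natDegree_C_mul_le _ _).trans D.htd
  have hhc : (hh Φ G hx σ β).coeff (N - 1) = -3 := by
    rw [← e1, kc, coeff_C_mul, hlc, ← C_mul]
    have h1 : (σ : ℂ) * δ = -3 := by
      have : ((σ * δ : ℝ) : ℂ) = ((-3 : ℝ) : ℂ) := by rw [hsum]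
      push_cast at this
      exact this
    rw [h1, C_neg, map_ofNat (C : ℂ →+* ℂ[X]) 3]
  -- infinity
  have iQ : Inf Q (Φi * Gi) N := F.iΦ.mul F.iG
  obtain ⟨X', hX, hX0, hXr, P⟩ := iQ.par hQm hQN (by omega) F.sepi
  have hdinf : ∀ᶠ u in 𝓝[≠] (0 : ℂ), d.eval u⁻¹ ≠ 0 := by
    filter_upwards [ev_notin' d.roots.toFinset] with u hu h
    apply hu
    rw [Multiset.mem_toFinset, mem_roots D.d0]
    exact h
  obtain ⟨b, hb, hbe, -, -⟩ := D.system hN2 hσ hγ P hdinf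
  rw [e1] at hbe
  have TH : TD ((N : ℤ) - 1) (hh Φ G hx σ β) := TDh iQ (by omega) hX hX0 hhd hbe
  have TQ : TD N Q := by
    have := F.TΦ.mul F.TG
    rwa [← Nat.cast_add] at this
  have TV : TD 1 V := by
    rw [hV, e1]
    exact TD_VV hN2 TQ TH
  have hyi := lim_inf' D hN2 hσ hγ P hX hX0 hdinf hlc hsum TV
  obtain ⟨p1, ρ, hp1, hp1d, hρd, hE⟩ := poly D hN2 hσ hγ hD0 hαβ (by rw [e1]; exact hhc)
    (by rw [hV]; exact natDegree_VV _ _ _)
  rw [e1, e2] at hE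
  have E : EE Q (hh Φ G hx σ β) (ll Φ G ht σ β) p1 ρ := hE
  have hyy : ∀ t x, d.eval t ≠ 0 → yy σ hxQ d p t x =
      ev2 p1 t x / ev2 (hh Φ G hx σ β) t x := by
    intro t x h0
    rw [yy, e1, hp1, ev2_mul, ev2_C]
    exact mul_div_mul_left _ _ h0
  -- the residues near infinity
  have hinf : ∀ x : ℂ → ℂ, AnalyticAt ℂ x 0 → (∀ᶠ u in 𝓝 (0 : ℂ), ev2 (Φi * Gi) u (x u) = 0) →
      (∃ L, Tendsto (fun u => u ^ (3 : ℤ) * (ev2 p1 u⁻¹ (x u / u) /
        ev2 (hh Φ G hx σ β) u⁻¹ (x u / u))) (𝓝[≠] 0) (𝓝 L)) ∧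
      ∀ᶠ u in 𝓝[≠] (0 : ℂ), ev2 (hh Φ G hx σ β) u⁻¹ (x u / u) ≠ 0 := by
    intro x hxa hx0
    obtain ⟨j, hj⟩ := root_uniq hX hX0 hXr hxa.continuousAt hx0
    have hj' := hj.filter_mono (nhdsWithin_le_nhds (s := {0}ᶜ))
    obtain ⟨L, hL⟩ := hyi j
    refine ⟨⟨L, hL.congr' ?_⟩, ?_⟩
    · filter_upwards [hj', hdinf] with u h1 h2
      rw [hyy _ _ h2, h1]
      rfl
    · filter_upwards [hj', hbe, P.root, P.inj] with u h1 h2 h3 h4
      rw [h1, h2 j]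
      have h5 := der_nod_ne h4 j
      have h6 : ev2 (derivative Q) u⁻¹ (X' j u / u) ≠ 0 := by
        rw [ev2, evt_der, h3]
        exact h5
      exact mul_ne_zero (by exact_mod_cast (hb j).ne) h6
  have hXroot : ∀ j, ∀ᶠ u in 𝓝 (0 : ℂ), ev2 (Φi * Gi) u (X' j u) = 0 := by
    intro j
    filter_upwards [hXr] with u hu
    rw [ev2, hu]
    exact eval_nod (x := fun j => X' j u) j
  have TP : TD ((N : ℤ) + 2) p1 := by
    refine TD_of_lim (fun j => (hX j).continuousAt.tendsto.mono_left nhdsWithin_le_nhds) hX0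
      (lt_of_le' (by omega) (hp1d.trans (by omega))) fun j => ?_
    obtain ⟨⟨L, hL⟩, hne⟩ := hinf (X' j) (hX j) (hXroot j)
    obtain ⟨l, hl⟩ := TH.lim ((hX j).continuousAt.tendsto.mono_left (nhdsWithin_le_nhds (s := {0}ᶜ)))
    refine ⟨_, (hL.mul hl).congr' ?_⟩
    filter_upwards [hne, ev_ne] with u h1 h2
    have h3 : (N : ℤ) + 2 = 3 + ((N : ℤ) - 1) := by ring
    rw [h3, zpow_add₀ h2]
    have h13 : ∀ A B' w1 w2 : ℂ, B' ≠ 0 → w1 * (A / B') * (w2 * B') = w1 * w2 * A := by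
      intro A B' w1 w2 i1
      field_simp
    exact h13 _ _ _ _ h1
  -- the first gauge transformation
  obtain ⟨Y, a3, c3, hYd, hYa, hYc⟩ := step1 F.cv hσ F.hβ E
  have hΦdeg : Φ.degree = (e : WithBot ℕ) := by
    rw [degree_eq_natDegree F.cv.Φm.ne_zero, F.Φd]
  have hsΦ : (evt 0 Φi).Separable := by
    have h := F.sepi
    rw [map_mul] at h
    exact h.of_mul_left
  obtain ⟨XH, hXH, hXH0, hXHr, PH⟩ := F.iΦ.par F.cv.Φm F.Φd (by omega) hsΦ
  have hXHroot : ∀ j, ∀ᶠ u in 𝓝 (0 : ℂ), ev2 Φi u (XH j u) = 0 := by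
    intro j
    filter_upwards [hXHr] with u hu
    rw [ev2, hu]
    exact eval_nod (x := fun j => XH j u) j
  have hXHroot' : ∀ j, ∀ᶠ u in 𝓝 (0 : ℂ), ev2 (Φi * Gi) u (XH j u) = 0 := by
    intro j
    filter_upwards [hXHroot j] with u hu
    rw [ev2_mul, hu, zero_mul]
  have hXHΦ : ∀ j, ∀ᶠ u in 𝓝[≠] (0 : ℂ), ev2 Φ u⁻¹ (XH j u / u) = 0 := by
    intro j
    filter_upwards [(hXHroot j).filter_mono nhdsWithin_le_nhds, ev_ne] with u h1 h2
    rw [F.iΦ.rel u _ h2] at h1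
    exact (mul_eq_zero.1 h1).resolve_left (pow_ne_zero _ h2)
  have TY : TD 3 Y := by
    refine TD_of_lim (fun j => (hXH j).continuousAt.tendsto.mono_left nhdsWithin_le_nhds) hXH0
      (by rw [← hΦdeg]; exact hYd) fun j => ?_
    obtain ⟨⟨L, hL⟩, hne⟩ := hinf (XH j) (hXH j) (hXHroot' j)
    refine ⟨L, hL.congr' ?_⟩
    filter_upwards [hne, hXHΦ j] with u h1 h2
    have h3 := congrArg (fun P => ev2 P u⁻¹ (XH j u / u)) hYa
    beta_reduce at h3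
    rw [ev2_sub, ev2_add, ev2_mul, ev2_mul Φ G, h2, ev2_mul, ev2_mul Φ a3, h2] at h3
    congr 1
    rw [div_eq_iff h1]
    linear_combination h3
  have E2 := E.gauge hi Y
  rw [hYa, hYc] at E2
  obtain ⟨Λ, hΛd, hΛa, hΛc⟩ := step2 F.cv hσ F.hβ E2
  -- the growth of `Λ`
  have TA : TD ((N : ℤ) + 1) (derivative (Φ * a3)) := by
    have h1 : TD ((N : ℤ) + 2) (Φ * a3) := by
      rw [← hYa]
      refine TP.sub (TD.add ?_ ?_)
      · exact (TQ.mul TY.der).mono (by omega)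
      · exact (TH.mul TY).mono (by omega)
    exact h1.der.mono (by omega)
  have TL : TD (3 - (e : ℤ)) Λ := by
    refine TD_of_lim (fun j => (hXH j).continuousAt.tendsto.mono_left nhdsWithin_le_nhds) hXH0
      (by rw [← hΦdeg]; exact hΛd) fun j => ?_
    have h0 : ev2 Φi 0 (XH j 0) = 0 := (hXHroot j).self_of_nhds
    have n1 : ev2 (derivative Φi) 0 (XH j 0) ≠ 0 := by
      have := sep_der hsΦ h0
      rwa [← evt_der] at this
    have n2 : ev2 Gi 0 (XH j 0) ≠ 0 := by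
      have h := F.sepi
      rw [map_mul] at h
      exact sep_ne h h0
    have t1 := F.iΦ.lim' (hXH j)
    have t2 := F.iG.lim (hXH j)
    obtain ⟨l, hl⟩ := TA.lim ((hXH j).continuousAt.tendsto.mono_left
      (nhdsWithin_le_nhds (s := {0}ᶜ)))
    refine ⟨_, (hl.div ((t1.pow 2).mul t2) (mul_ne_zero (pow_ne_zero 2 n1) n2)).congr' ?_⟩
    filter_upwards [hXHΦ j, ev_ne, t1.eventually_ne n1, t2.eventually_ne n2] with u h1 h2 h3 h4
    have h5 := ev2_dvd hΛa h1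
    rw [ev2_sub, ev2_mul, ev2_mul] at h5
    have h6 : ev2 (derivative (Φ * a3)) u⁻¹ (XH j u / u) =
        ev2 (derivative Φ) u⁻¹ (XH j u / u) * ev2 a3 u⁻¹ (XH j u / u) := by
      rw [derivative_mul, ev2_add, ev2_mul, ev2_mul, h1, zero_mul, add_zero]
    have h7 : ev2 a3 u⁻¹ (XH j u / u) = ev2 (derivative Φ) u⁻¹ (XH j u / u) *
        ev2 G u⁻¹ (XH j u / u) * ev2 Λ u⁻¹ (XH j u / u) := by linear_combination h5
    have h8 := right_ne_zero_of_mul h3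
    have h9 := right_ne_zero_of_mul h4
    have h10 := left_ne_zero_of_mul h3
    have h11 := left_ne_zero_of_mul h4
    have h12 : u ^ ((N : ℤ) + 1) = u ^ (3 - (e : ℤ)) * (u ^ ((e : ℤ) - 1)) ^ 2 * u ^ (n : ℤ) := by
      rw [← zpow_natCast (u ^ ((e : ℤ) - 1)), ← zpow_mul, ← zpow_add₀ h2, ← zpow_add₀ h2]
      congr 1
      rw [hNd]
      push_cast
      ring
    change u ^ ((N : ℤ) + 1) * _ / ((u ^ ((e : ℤ) - 1) * _) ^ 2 * (u ^ (n : ℤ) * _)) = _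
    rw [h6, h7, h12]
    have h13 : ∀ A Gv Lv w1 w2 w3 : ℂ, A ≠ 0 → Gv ≠ 0 → w2 ≠ 0 → w3 ≠ 0 →
        w1 * w2 ^ 2 * w3 * (A * (A * Gv * Lv)) / ((w2 * A) ^ 2 * (w3 * Gv)) = w1 * Lv := by
      intro A Gv Lv w1 w2 w3 i1 i2 i3 i4
      field_simp
    exact h13 _ _ _ _ _ _ h8 h9 h10 h11
  -- the second gauge transformation
  obtain ⟨a5, c5, h5a, h5c⟩ := step3 (σ := σ) (hx := hx) (ht := ht) F.hβ1 hΛa hΛc
  set Z2 := kc ((1 : ℂ) + β)⁻¹ * (Φ * Λ) with hZ2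
  have E3 := E2.gauge hi Z2
  rw [h5a, h5c] at E3
  obtain ⟨hA, hC, hGa⟩ := step4 F.cv hσ F.hβ1 E3
  set Z := Y + Z2 with hZ
  have TZ : TD 3 Z := TY.add (((F.TΦ.mul TL).kc_mul _).mono (by omega))
  have hZa : p1 - (Q * derivative Z + hh Φ G hx σ β * Z) = Φ ^ 2 * a5 := by
    rw [← h5a, ← hYa, hZ, derivative_add]
    ring
  have hZc : ρ + (Q * dt Z + ll Φ G ht σ β * Z) = Φ ^ 2 * c5 := by
    rw [← h5c, ← hYc, hZ, dt_add]
    ring
  -- Liouville's theorem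
  have hvan := van (v := vv Φ hx a5 σ) hQm hQN hαβ hB (fun t ht a ha h => F.diff ht ha h)
    (fun b' hb' => by
      obtain ⟨m, a, L, hm, ha, Pf, hd, hL⟩ := fin_pt D hN2 hσ hγ hD0 hαβ b'
      refine ⟨m, a, hm, Pf, fun j => F.fin hZa hGa hA hC hm (ha j) ?_ (L := L j) ?_⟩
      · filter_upwards [Pf.root] with u hu
        rw [ev2, hu]
        exact eval_nod (x := fun j => a j u) j
      · refine (hL j).congr' ?_
        filter_upwards [hd] with u hu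
        exact hyy _ _ hu)
    ⟨X', P, fun j => by
      obtain ⟨⟨L, hL⟩, -⟩ := hinf (X' j) (hX j) (hXroot j)
      exact F.inf hZa TZ (hX j) (hXroot j) hL⟩
  have hva : ∀ t ∉ D0.roots.toFinset, ∀ x, ev2 G t x = 0 → ev2 a5 t x = 0 := by
    intro t ht x h0
    have h1 := hvan t ht x (by rw [hQd, ev2_mul, h0, mul_zero])
    rw [vv, div_eq_zero_iff] at h1
    exact h1.resolve_right (mul_ne_zero (F.h1 ht h0) (F.cv.ne' ht h0))
  obtain ⟨a6, ha6⟩ : G ∣ a5 := dvd_of_ev F.cv.Gm (B := D0.roots.toFinset) fun t ht =>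
    ⟨F.cv.sepG ht, fun x h0 => hva t ht x h0⟩
  obtain ⟨c6, hc6⟩ : G ∣ c5 := dvd_of_ev F.cv.Gm (B := D0.roots.toFinset) fun t ht =>
    ⟨F.cv.sepG ht, fun x h0 => by
      have h1 := F.rel5 hGa ht h0
      rw [hva t ht x h0, mul_zero, zero_add] at h1
      exact (mul_eq_zero.1 h1).resolve_left (F.h1 ht h0)⟩
  refine fin_alg (a6 := a6) (c6 := c6) he hN2 F.cv.Φm F.Φd hQm hQN hhd hhc hld hi hp1d hρd
    (by rw [hV]; exact natDegree_VV _ _ _) TZ E ?_ ?_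
  · rw [hZa, ha6, hQd]
    ring
  · rw [hZc, hc6, hQd]
    ring

end

end Pool.Agent.H941.SC
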