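import Pool.Agent.H941.SC.Main
import Pool.Agent.H941.TF.Two

set_option autoImplicit false
set_option linter.unusedSectionVars false
set_option linter.unusedVariables false

/-! # Forms which vanish on a smooth curve, in coordinates -/

namespace Pool.Agent.H941.SC

open MvPolynomial Pool.Agent.Helper748.MC Pool.Agent.Helper748.TP Pool.Agent.H941.TF

/-- the equation of an exact form in two of the variables -/
theorem exact_two' {d : ℕ} {G : MvPolynomial (Fin 3) ℂ} (hG : G.IsHomogeneous d) {s : ℂ}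
    (hs : (d : ℂ) * s = -3) (h : Exact d G s) :
    ∃ (K : ℕ) (P Q : MvPolynomial (Fin 3) ℂ), P.IsHomogeneous (d * K + 2) ∧
      Q.IsHomogeneous (d * K + 2) ∧ eval ![0, 0, 1] P = 0 ∧
      X 1 * G ^ (K + 1) = G * (pderiv 0 P + pderiv 2 Q) +
        C (s - K) * (pderiv 0 G * P + pderiv 2 G * Q) := by
  obtain ⟨K, v, hv, hE⟩ := h
  have hX : ∀ i j : Fin 3, (X i * v j).IsHomogeneous (d * K + 2) := by
    intro i j
    have := (isHomogeneous_X ℂ i).mul (hv j)
    rwa [show 1 + (d * K + 1) = d * K + 2 by ring] at this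
  refine ⟨K, X 1 * v 0 - X 0 * v 1, X 1 * v 2 - X 2 * v 1, (hX _ _).sub (hX _ _),
    (hX _ _).sub (hX _ _), ?_, ?_⟩
  · rw [map_sub, map_mul, map_mul, eval_X, eval_X]
    simp
  have e1 := (hv 1).sum_X_mul_pderiv
  have e2 := hG.sum_X_mul_pderiv
  rw [Fin.sum_univ_three, nsmul_eq_mul] at e1 e2
  rw [Fin.sum_univ_three] at hE
  have p1 : pderiv 0 (X 1 * v 0 - X 0 * v 1 : MvPolynomial (Fin 3) ℂ) =
      X 1 * pderiv 0 (v 0) - (v 1 + X 0 * pderiv 0 (v 1)) := by
    rw [map_sub, Derivation.leibniz, Derivation.leibniz, pderiv_X_self,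
      pderiv_X_of_ne (by decide : (1 : Fin 3) ≠ 0)]
    simp only [smul_eq_mul]
    ring
  have p2 : pderiv 2 (X 1 * v 2 - X 2 * v 1 : MvPolynomial (Fin 3) ℂ) =
      X 1 * pderiv 2 (v 2) - (v 1 + X 2 * pderiv 2 (v 1)) := by
    rw [map_sub, Derivation.leibniz, Derivation.leibniz, pderiv_X_self,
      pderiv_X_of_ne (by decide : (1 : Fin 3) ≠ 2)]
    simp only [smul_eq_mul]
    ring
  rw [p1, p2]
  have h0 : ((d : MvPolynomial (Fin 3) ℂ) * (K : MvPolynomial (Fin 3) ℂ) + 3) +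
      (d : MvPolynomial (Fin 3) ℂ) * C (s - K) = 0 := by
    have h1 : (C ((d : ℂ) * K + 3 + d * (s - K)) : MvPolynomial (Fin 3) ℂ) = 0 := by
      rw [show (d : ℂ) * K + 3 + d * (s - K) = 0 by linear_combination hs, C_0]
    have h2 : (C ((d : ℂ) * K + 3 + d * (s - K)) : MvPolynomial (Fin 3) ℂ) =
        (d : MvPolynomial (Fin 3) ℂ) * (K : MvPolynomial (Fin 3) ℂ) + 3 +
          (d : MvPolynomial (Fin 3) ℂ) * C (s - K) := by
      rw [C_add, C_add, C_mul, C_mul]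
      simp only [map_natCast, map_ofNat]
    rw [← h2, h1]
  push_cast at e1
  linear_combination X 1 * hE + G * e1 + C (s - K) * v 1 * e2 + G * v 1 * h0

/-- the total degree of a form in affine coordinates -/
theorem TD_ch {n : ℕ} {F : MvPolynomial (Fin 3) ℂ} (hF : F.IsHomogeneous n) : TD n (ch F) := by
  intro i j hij
  have hm := deg3 hF
  have hs : F = ∑ m ∈ F.support, monomial m (coeff m F) := F.as_sum
  rw [hs, map_sum, Polynomial.finsetSum_coeff, Polynomial.finsetSum_coeff]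
  refine Finset.sum_eq_zero fun m hm' => ?_
  have := hm m hm'
  rw [ch_monomial, Polynomial.coeff_monomial]
  split_ifs with h1
  · rw [Polynomial.coeff_C_mul, Polynomial.coeff_X_pow, if_neg (by omega), mul_zero]
  · rw [Polynomial.coeff_zero]

theorem monic_ch {n : ℕ} {F : MvPolynomial (Fin 3) ℂ} (hF : F.IsHomogeneous n)
    (h0 : eval ![0, 0, 1] F ≠ 0) : (kc (eval ![0, 0, 1] F)⁻¹ * ch F).Monic ∧
      (kc (eval ![0, 0, 1] F)⁻¹ * ch F).natDegree = n := by
  obtain ⟨gd, gc⟩ := ch_top hF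
  have hQlc : (kc (eval ![0, 0, 1] F)⁻¹ * ch F).coeff n = 1 := by
    rw [kc, Polynomial.coeff_C_mul, gc, ← Polynomial.C_mul, inv_mul_cancel₀ h0, Polynomial.C_1]
  have hQd : (kc (eval ![0, 0, 1] F)⁻¹ * ch F).natDegree = n := by
    refine le_antisymm ((Polynomial.natDegree_C_mul_le _ _).trans gd)
      (Polynomial.le_natDegree_of_ne_zero ?_)
    rw [hQlc]
    exact one_ne_zero
  exact ⟨by rw [Polynomial.Monic, Polynomial.leadingCoeff, hQd, hQlc], hQd⟩

theorem inf_ch {n : ℕ} {F : MvPolynomial (Fin 3) ℂ} (hF : F.IsHomogeneous n)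
    (h0 : eval ![0, 0, 1] F ≠ 0) : Inf (kc (eval ![0, 0, 1] F)⁻¹ * ch F)
      (kc (eval ![0, 0, 1] F)⁻¹ * ch (sw F)) n := by
  have h1 : eval ![0, 0, 1] (sw F) = eval ![0, 0, 1] F := eval_sw 0 0 1 F
  have h2 := monic_ch (sw_homog hF) (by rw [h1]; exact h0)
  rw [h1] at h2
  refine ⟨h2.1, h2.2, fun u x hu => ?_⟩
  rw [ev2_mul, ev2_mul, ev2_kc, ev2_kc, ev_ch, ev_ch, eval_sw, eval_scale hF hu]
  ring

theorem euler {n : ℕ} {F : MvPolynomial (Fin 3) ℂ} (hF : F.IsHomogeneous n) (t x : ℂ)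
    (h0 : eval ![t, 1, x] F = 0) :
    t * eval ![t, 1, x] (pderiv 0 F) + eval ![t, 1, x] (pderiv 1 F) +
      x * eval ![t, 1, x] (pderiv 2 F) = 0 := by
  have h1 := congrArg (eval ![t, 1, x]) hF.sum_X_mul_pderiv
  rw [Fin.sum_univ_three, nsmul_eq_mul, map_mul, h0, mul_zero, map_add, map_add, map_mul,
    map_mul, map_mul, eval_X, eval_X, eval_X] at h1
  simpa using h1

theorem disc' {Q : Polynomial (Polynomial ℂ)} (hQ : Q.Monic) (hN : 0 < Q.natDegree) {t₀ : ℂ}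
    (h0 : (evt t₀ Q).Separable) :
    ∃ (D0 : Polynomial ℂ) (α β : Polynomial (Polynomial ℂ)), D0 ≠ 0 ∧
      Polynomial.C D0 = α * Q + β * Polynomial.derivative Q := by
  obtain ⟨α, β, _, _, h⟩ := Polynomial.exists_mul_add_mul_eq_C_resultant (m := Q.natDegree)
    (n := Q.natDegree - 1) Q (Polynomial.derivative Q) le_rfl (Polynomial.natDegree_derivative_le Q)
    (Or.inl hN.ne')
  refine ⟨Polynomial.resultant Q (Polynomial.derivative Q) Q.natDegree (Q.natDegree - 1), α, β,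
    ?_, ?_⟩
  · intro h1
    have h2 := Polynomial.resultant_map_map Q (Polynomial.derivative Q) Q.natDegree
      (Q.natDegree - 1) (Polynomial.evalRingHom t₀)
    rw [h1, map_zero] at h2
    have h3 : Q.map (Polynomial.evalRingHom t₀) = evt t₀ Q := rfl
    have h4 : (Polynomial.derivative Q).map (Polynomial.evalRingHom t₀) =
        Polynomial.derivative (evt t₀ Q) := by
      rw [← Polynomial.derivative_map]; rfl
    rw [h3, h4] at h2
    have h5 : (evt t₀ Q).natDegree = Q.natDegree := natDegree_evt hQ t₀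
    have h6 : (Polynomial.derivative (evt t₀ Q)).natDegree = Q.natDegree - 1 := by
      rw [Polynomial.natDegree_derivative, h5]
    exact Polynomial.resultant_ne_zero _ _ h0 (by rw [h5, h6]; exact h2)
  · rw [← h]
    ring

theorem htd_aux {γ Q ht : Polynomial (Polynomial ℂ)} {N δ : ℕ} (hγ0 : γ ≠ 0) (hQm : Q.Monic)
    (hQd : Q.natDegree = N) (hN : 1 ≤ N) (hγδ : γ.natDegree = δ) {c : ℂ}
    (γc : γ.coeff δ = Polynomial.C c) (htE : dt γ * Q = γ * ht) : ht.natDegree ≤ N - 1 := by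
  by_cases hz : ht = 0
  · rw [hz, Polynomial.natDegree_zero]; exact Nat.zero_le _
  · have hdt : dt γ ≠ 0 := by
      intro h
      rw [h, zero_mul] at htE
      exact hz ((mul_eq_zero.1 htE.symm).resolve_left hγ0)
    have h2 := congrArg Polynomial.natDegree htE
    rw [Polynomial.natDegree_mul hdt hQm.ne_zero, Polynomial.natDegree_mul hγ0 hz, hQd,
      hγδ] at h2
    have h3 : (dt γ).natDegree < δ := by
      refine (Polynomial.natDegree_lt_iff_degree_lt hdt).2 ?_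
      rw [Polynomial.degree_lt_iff_coeff_zero]
      intro i hi
      rw [coeff_dt]
      rcases hi.eq_or_lt with h4 | h4
      · rw [← h4, γc, Polynomial.derivative_C]
      · rw [Polynomial.coeff_eq_zero_of_natDegree_lt (by rw [hγδ]; exact h4),
          Polynomial.derivative_zero]
    omega

theorem pow_dt (Φ : Polynomial (Polynomial ℂ)) (m : ℕ) :
    Φ * dt (Φ ^ m) = (m : Polynomial (Polynomial ℂ)) * Φ ^ m * dt Φ := by
  induction m with
  | zero =>
    have : dt (1 : Polynomial (Polynomial ℂ)) = 0 := by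
      rw [← Polynomial.C_1, dt_C, Polynomial.derivative_one, Polynomial.C_0]
    rw [pow_zero, this, Nat.cast_zero]
    ring
  | succ j ih =>
    rw [pow_succ, dt_mul]
    push_cast
    linear_combination Φ * ih

theorem pow_der' (Φ : Polynomial (Polynomial ℂ)) (m : ℕ) :
    Φ * Polynomial.derivative (Φ ^ m) = (m : Polynomial (Polynomial ℂ)) * Φ ^ m *
      Polynomial.derivative Φ := by
  induction m with
  | zero => rw [pow_zero, Polynomial.derivative_one, Nat.cast_zero]; ring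
  | succ j ih =>
    rw [pow_succ, Polynomial.derivative_mul]
    push_cast
    linear_combination Φ * ih

/-- **No primitive for a form which vanishes on a smooth curve, in coordinates.** -/
theorem core {F g G H : MvPolynomial (Fin 3) ℂ} {m e n δ k d : ℕ}
    (hF : F = H ^ m * g) (hFh : F.IsHomogeneous d) (hd : d = m * e + δ)
    (hm : 1 ≤ m) (he : 2 ≤ e) (hH : H.IsHomogeneous e) (hg : g.IsHomogeneous δ)
    (hG : G.IsHomogeneous n) (hGg : G ∣ g) (hgG : g ∣ G ^ k)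
    (hsm : ∀ z : Fin 3 → ℂ, z ≠ 0 → eval z H = 0 → ∃ i, eval z (pderiv i H) ≠ 0)
    (htr : ∀ z : Fin 3 → ℂ, z ≠ 0 → eval z H = 0 → eval z G = 0 → ∀ c : ℂ,
      ∃ i, eval z (pderiv i G) ≠ c * eval z (pderiv i H))
    (si : (aeval ![(1 : Polynomial ℂ), 0, Polynomial.X] (H * G)).Separable)
    (ni : (aeval ![(1 : Polynomial ℂ), 0, Polynomial.X] (H * G)).natDegree = e + n)
    (hE : Exact d F (-3 / d)) (hcase : 3 * m ≠ d) : False := by
  have hme : 2 ≤ m * e := by nlinarith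
  have hd0 : 0 < d := by omega
  have hdc : (d : ℂ) ≠ 0 := Nat.cast_ne_zero.2 hd0.ne'
  have hds : (d : ℂ) * (-3 / d) = -3 := by field_simp
  have hσ := neg3 hd0
  set σ : ℝ := -3 / d with hσd
  have hsσ : (-3 / d : ℂ) = (σ : ℂ) := by
    rw [hσd]
    push_cast
    rfl
  -- the point `(0 : 0 : 1)`
  rw [← aeval_sw, ← evt_ch] at si ni
  have hHG : eval ![0, 0, 1] (H * G) ≠ 0 := by
    intro h
    have h1 := (ch_top (sw_homog (hH.mul hG))).2
    rw [eval_sw, h, Polynomial.C_0] at h1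
    have h2 : (evt 0 (ch (sw (H * G)))).coeff (e + n) = 0 := by
      rw [Pool.Agent.Helper748.TP.coeff_evt, h1, Polynomial.eval_zero]
    rw [← ni, Polynomial.coeff_natDegree, Polynomial.leadingCoeff_eq_zero] at h2
    rw [h2, Polynomial.natDegree_zero] at ni
    omega
  rw [map_mul] at hHG
  have hH0 := left_ne_zero_of_mul hHG
  have hG0 := right_ne_zero_of_mul hHG
  obtain ⟨v, hv⟩ := hgG
  have hg0 : eval ![0, 0, 1] g ≠ 0 := by
    intro h
    have h2 := congrArg (eval ![0, 0, 1]) hv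
    rw [map_pow, map_mul, h, zero_mul] at h2
    exact pow_ne_zero k hG0 h2
  have hF0 : eval ![0, 0, 1] F ≠ 0 := by
    rw [hF, map_mul, map_pow]
    exact mul_ne_zero (pow_ne_zero m hH0) hg0
  set cH := eval ![0, 0, 1] H with hcH
  set cG := eval ![0, 0, 1] G with hcG
  have hcc : (kc cH⁻¹ * kc cH) = 1 := by rw [← kc_mul, inv_mul_cancel₀ hH0, kc_one]
  have hcc' : (kc cG⁻¹ * kc cG) = 1 := by rw [← kc_mul, inv_mul_cancel₀ hG0, kc_one]
  obtain ⟨Φm, Φd⟩ := monic_ch hH hH0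
  obtain ⟨Gm, Gd⟩ := monic_ch hG hG0
  have iΦ := inf_ch hH hH0
  have iG := inf_ch hG hG0
  rw [← hcH] at Φm Φd iΦ
  rw [← hcG] at Gm Gd iG
  set Φ : Polynomial (Polynomial ℂ) := kc cH⁻¹ * ch H with hΦ
  set G1 : Polynomial (Polynomial ℂ) := kc cG⁻¹ * ch G with hG1
  set Φi : Polynomial (Polynomial ℂ) := kc cH⁻¹ * ch (sw H) with hΦi
  set Gi : Polynomial (Polynomial ℂ) := kc cG⁻¹ * ch (sw G) with hGi
  clear_value Gi Φi G1 Φ
  have TΦ : TD e Φ := by rw [hΦ]; exact (TD_ch hH).kc_mul _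
  have TG : TD n G1 := by rw [hG1]; exact (TD_ch hG).kc_mul _
  have hQm : (Φ * G1).Monic := Φm.mul Gm
  have hQd : (Φ * G1).natDegree = e + n := by rw [Φm.natDegree_mul Gm, Φd, Gd]
  have hsepi : (evt 0 (Φi * Gi)).Separable := by
    have h1 : Φi * Gi = kc (cH⁻¹ * cG⁻¹) * ch (sw (H * G)) := by
      rw [hΦi, hGi, map_mul sw, map_mul ch, kc_mul]
      ring
    rw [h1, map_mul, evt_kc]
    exact si.unit_mul (Polynomial.isUnit_C.2
      (mul_ne_zero (inv_ne_zero hH0) (inv_ne_zero hG0)).isUnit)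
  -- the discriminant
  have hdisc : ∃ (D0 : Polynomial ℂ) (α β : Polynomial (Polynomial ℂ)), D0 ≠ 0 ∧
      Polynomial.C D0 = α * (Φ * G1) + β * Polynomial.derivative (Φ * G1) := by
    obtain ⟨X', -, -, -, P⟩ := (iΦ.mul iG).par hQm hQd (by omega) hsepi
    obtain ⟨u, h1, h2⟩ := (P.root.and P.inj).exists
    refine disc' (t₀ := u⁻¹) hQm (by rw [hQd]; omega) ?_
    rw [h1, nod]
    exact Polynomial.separable_prod_X_sub_C_iff.2 h2
  obtain ⟨D0, α, β', hD0, hαβ⟩ := hdisc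
  -- the logarithmic derivatives
  have hprime : ∀ p, Prime p → p ∣ g → p ∣ G := fun p hp hpg =>
    hp.dvd_of_dvd_pow (hpg.trans ⟨v, hv⟩)
  obtain ⟨w2, hw2⟩ := log_dvd (g := g) (G := G) 2 hprime
  obtain ⟨w0, hw0⟩ := log_dvd (g := g) (G := G) 0 hprime
  have e2 := congrArg ch hw2
  have e0 := congrArg ch hw0
  rw [map_mul, map_mul, ch_pderiv2] at e2
  rw [map_mul, map_mul, ch_pderiv0] at e0
  set γ₁ : Polynomial (Polynomial ℂ) := kc (cH ^ m) * ch g with hγ₁
  set hx : Polynomial (Polynomial ℂ) := kc cG⁻¹ * ch w2 with hhx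
  set ht : Polynomial (Polynomial ℂ) := kc cG⁻¹ * ch w0 with hht
  clear_value ht hx γ₁
  have hxE : Polynomial.derivative γ₁ * G1 = γ₁ * hx := by
    rw [hG1, hhx, hγ₁, der_kc]
    linear_combination (kc cG⁻¹ * kc (cH ^ m)) * e2
  have htE : dt γ₁ * G1 = γ₁ * ht := by
    rw [hG1, hht, hγ₁, dt_kc]
    linear_combination (kc cG⁻¹ * kc (cH ^ m)) * e0
  have hcm : (kc (cH ^ m)⁻¹ * kc (cH ^ m)) = 1 := by
    rw [← kc_mul, inv_mul_cancel₀ (pow_ne_zero m hH0), kc_one]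
  have hchg0 : ch g ≠ 0 := by
    intro h
    have h1 := (ch_top hg).2
    rw [h, Polynomial.coeff_zero] at h1
    exact Polynomial.C_ne_zero.2 hg0 h1.symm
  have hγ₁0 : γ₁ ≠ 0 := by
    rw [hγ₁, kc]
    exact mul_ne_zero (Polynomial.C_ne_zero.2 (Polynomial.C_ne_zero.2 (pow_ne_zero m hH0))) hchg0
  have hGγ : G1 ∣ γ₁ := by
    obtain ⟨y, hy⟩ := hGg
    refine ⟨kc cG * kc (cH ^ m) * ch y, ?_⟩
    rw [hγ₁, hy, map_mul, hG1]
    linear_combination (-(kc (cH ^ m) * ch G * ch y)) * hcc'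
  have hγG : γ₁ ∣ G1 ^ k := by
    refine ⟨kc cG⁻¹ ^ k * kc (cH ^ m)⁻¹ * ch v, ?_⟩
    have h2 := congrArg ch hv
    rw [map_pow, map_mul] at h2
    rw [hG1, mul_pow, hγ₁]
    linear_combination kc cG⁻¹ ^ k * h2 - (kc cG⁻¹ ^ k * ch g * ch v) * hcm
  -- the form
  have hchF : ch F = Φ ^ m * γ₁ := by
    have h1 : (kc cH⁻¹ ^ m * kc (cH ^ m) : Polynomial (Polynomial ℂ)) = 1 := by
      have h2 : (kc (cH ^ m) : Polynomial (Polynomial ℂ)) = kc cH ^ m := by simp [kc]
      rw [h2, ← mul_pow, hcc, one_pow]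
    rw [hF, map_mul, map_pow, hΦ, hγ₁, mul_pow]
    linear_combination (-(ch H ^ m * ch g)) * h1
  set hxQ : Polynomial (Polynomial ℂ) := (m : Polynomial (Polynomial ℂ)) *
    Polynomial.derivative Φ * G1 + Φ * hx with hhxQ
  set htQ : Polynomial (Polynomial ℂ) := (m : Polynomial (Polynomial ℂ)) *
    dt Φ * G1 + Φ * ht with hhtQ
  clear_value hxQ htQ
  have hpd := pow_der' Φ m
  have hpt := pow_dt Φ m
  have HxE : Polynomial.derivative (ch F) * (Φ * G1) = ch F * hxQ := by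
    rw [hchF, Polynomial.derivative_mul, hhxQ]
    linear_combination (γ₁ * G1) * hpd + Φ ^ m * Φ * hxE
  have HtE : dt (ch F) * (Φ * G1) = ch F * htQ := by
    rw [hchF, dt_mul, hhtQ]
    linear_combination (γ₁ * G1) * hpt + Φ ^ m * Φ * htE
  have hQF : Φ * G1 ∣ ch F := by
    rw [hchF]
    exact mul_dvd_mul (dvd_pow_self Φ (by omega)) hGγ
  have hFQ : ch F ∣ (Φ * G1) ^ (m + k) := by
    rw [hchF, mul_pow]
    exact mul_dvd_mul (pow_dvd_pow Φ (by omega)) (hγG.trans (pow_dvd_pow G1 (by omega)))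
  obtain ⟨Fd, Fc⟩ := ch_top hFh
  have hFδ : (ch F).natDegree = d := by
    refine le_antisymm Fd (Polynomial.le_natDegree_of_ne_zero ?_)
    rw [Fc]
    exact Polynomial.C_ne_zero.2 hF0
  have hchF0 : ch F ≠ 0 := by
    intro h
    rw [h, Polynomial.natDegree_zero] at hFδ
    omega
  obtain ⟨hxn, hxlc⟩ := lead_h hchF0 HxE hQd (by omega) hFδ (by omega)
  have hQN : (Φ * G1).coeff (e + n) = 1 := by rw [← hQd]; exact hQm
  rw [hQN, mul_one] at hxlc
  have hxlc' : hxQ.coeff (e + n - 1) = Polynomial.C (d : ℂ) := by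
    rw [hxlc]
    simp
  have htn : htQ.natDegree ≤ e + n - 1 := htd_aux hchF0 hQm hQd (by omega) hFδ Fc HtE
  -- the equation
  obtain ⟨K, P, R, hPh, hRh, hP0, hEq⟩ := exact_two' hFh hds hE
  have hX1 : ch (X 1) = 1 := by simp [ch]
  have hEq' := congrArg ch hEq
  rw [map_mul, map_add, map_mul, map_mul, map_add, map_add, map_mul, map_mul, map_pow, ch_C,
    ch_pderiv0, ch_pderiv0, ch_pderiv2, ch_pderiv2, hX1, one_mul] at hEq'
  have hPd : (ch P).natDegree ≤ d * K + 1 := by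
    obtain ⟨a1, a2⟩ := ch_top hPh
    rw [hP0, Polynomial.C_0] at a2
    exact natDegree_le_pred (n := d * K + 1) a1 a2
  have hRd : (ch R).natDegree ≤ d * K + 2 := (ch_top hRh).1
  have hs : ∀ K m : ℕ, (σ : ℂ) * ((m : ℂ) + 1) - K ≠ 0 := by
    intro K m h
    have h2 : ((σ * (m + 1) - K : ℝ) : ℂ) = 0 := by
      push_cast
      exact h
    have h3 : (σ * (m + 1) - K : ℝ) = 0 := by exact_mod_cast h2
    have h4 : (0 : ℝ) ≤ K := Nat.cast_nonneg _
    have h5 : (0 : ℝ) ≤ m := Nat.cast_nonneg _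
    nlinarith
  have hσdr : σ * d = -3 := by
    rw [hσd]
    have : (d : ℝ) ≠ 0 := by exact_mod_cast hd0.ne'
    field_simp
  have hlc3 : (kc (σ : ℂ) * hxQ).coeff (e + n - 1) = -3 := by
    rw [kc, Polynomial.coeff_C_mul, hxlc', ← Polynomial.C_mul]
    have h1 : (σ : ℂ) * d = -3 := by
      have : ((σ * d : ℝ) : ℂ) = ((-3 : ℝ) : ℂ) := by rw [hσdr]
      push_cast at this
      exact this
    rw [h1, Polynomial.C_neg, map_ofNat (Polynomial.C : ℂ →+* Polynomial ℂ) 3]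
  rw [hsσ] at hEq'
  obtain ⟨dd, p, r, q, DD⟩ := dat hchF0 hQm HxE HtE hFQ hQF hQd (by omega) hxn htn
    ⟨D0, α, β', hD0, hαβ⟩ hs hFδ hPd hRd hlc3 hEq'
  -- the curves
  have hkm : (kc (σ : ℂ) * (m : Polynomial (Polynomial ℂ))) = kc ((σ * m : ℝ) : ℂ) := by
    push_cast
    rw [kc_mul, kc_nat]
  have hm1 : (1 : ℝ) ≤ m := by exact_mod_cast hm
  have hDr : ∀ t ∉ D0.roots.toFinset, D0.eval t ≠ 0 := by
    intro t ht h
    rw [Multiset.mem_toFinset, Polynomial.mem_roots hD0] at ht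
    exact ht h
  have hcHi : cH⁻¹ ≠ 0 := inv_ne_zero hH0
  have hcGi : cG⁻¹ ≠ 0 := inv_ne_zero hG0
  have v0 : ∀ t x, ev2 Φ t x = cH⁻¹ * eval ![t, 1, x] H := fun t x => by
    rw [hΦ, ev2_mul, ev2_kc, ev_ch]
  have v1 : ∀ t x, ev2 (dt Φ) t x = cH⁻¹ * eval ![t, 1, x] (pderiv 0 H) := fun t x => by
    rw [hΦ, dt_kc, ← ch_pderiv0, ev2_mul, ev2_kc, ev_ch]
  have v2 : ∀ t x, ev2 (Polynomial.derivative Φ) t x = cH⁻¹ * eval ![t, 1, x] (pderiv 2 H) :=
    fun t x => by rw [hΦ, der_kc, ← ch_pderiv2, ev2_mul, ev2_kc, ev_ch]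
  have v3 : ∀ t x, ev2 G1 t x = cG⁻¹ * eval ![t, 1, x] G := fun t x => by
    rw [hG1, ev2_mul, ev2_kc, ev_ch]
  have v4 : ∀ t x, ev2 (dt G1) t x = cG⁻¹ * eval ![t, 1, x] (pderiv 0 G) := fun t x => by
    rw [hG1, dt_kc, ← ch_pderiv0, ev2_mul, ev2_kc, ev_ch]
  have v5 : ∀ t x, ev2 (Polynomial.derivative G1) t x = cG⁻¹ * eval ![t, 1, x] (pderiv 2 G) :=
    fun t x => by rw [hG1, der_kc, ← ch_pderiv2, ev2_mul, ev2_kc, ev_ch]
  have hz : ∀ t x : ℂ, (![t, 1, x] : Fin 3 → ℂ) ≠ 0 := by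
    intro t x h
    exact one_ne_zero (congrFun h 1)
  have hsmA : ∀ t x : ℂ, eval ![t, 1, x] H = 0 → eval ![t, 1, x] (pderiv 0 H) = 0 →
      eval ![t, 1, x] (pderiv 2 H) ≠ 0 := by
    intro t x a1 a2 a3
    have a4 := euler hH t x a1
    rw [a2, a3, mul_zero, mul_zero, zero_add, add_zero] at a4
    obtain ⟨i, hi⟩ := hsm _ (hz t x) a1
    fin_cases i
    · exact hi a2
    · exact hi a4
    · exact hi a3
  have CV : Cv Φ G1 hx ht γ₁ D0.roots.toFinset := by
    refine ⟨Φm, Gm, fun t ht => sep_of_disc hαβ (hDr t ht), ?_, ?_, hγ₁0, hGγ, ⟨k, hγG⟩, hxE,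
      htE⟩
    · intro t x a1 a2 a3
      rw [v0] at a1
      rw [v1] at a2
      rw [v2] at a3
      exact hsmA t x ((mul_eq_zero.1 a1).resolve_left hcHi) ((mul_eq_zero.1 a2).resolve_left hcHi)
        ((mul_eq_zero.1 a3).resolve_left hcHi)
    · intro t x a1 a2 a3
      rw [v0] at a1
      rw [v3] at a2
      rw [v1, v2, v4, v5] at a3
      have b1 := (mul_eq_zero.1 a1).resolve_left hcHi
      have b2 := (mul_eq_zero.1 a2).resolve_left hcGi
      have b3 : eval ![t, 1, x] (pderiv 0 H) * eval ![t, 1, x] (pderiv 2 G) -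
          eval ![t, 1, x] (pderiv 2 H) * eval ![t, 1, x] (pderiv 0 G) = 0 := by
        refine (mul_eq_zero.1 ?_).resolve_left (mul_ne_zero hcHi hcGi)
        linear_combination a3
      have b4 := euler hH t x b1
      have b5 := euler hG t x b2
      obtain ⟨c, c1, c2⟩ : ∃ c : ℂ, eval ![t, 1, x] (pderiv 0 G) =
          c * eval ![t, 1, x] (pderiv 0 H) ∧ eval ![t, 1, x] (pderiv 2 G) =
          c * eval ![t, 1, x] (pderiv 2 H) := by
        by_cases h0 : eval ![t, 1, x] (pderiv 0 H) = 0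
        · have h2 := hsmA t x b1 h0
          refine ⟨eval ![t, 1, x] (pderiv 2 G) / eval ![t, 1, x] (pderiv 2 H), ?_, ?_⟩
          · rw [h0, mul_zero]
            rw [h0, zero_mul, zero_sub, neg_eq_zero] at b3
            exact (mul_eq_zero.1 b3).resolve_left h2
          · field_simp
        · refine ⟨eval ![t, 1, x] (pderiv 0 G) / eval ![t, 1, x] (pderiv 0 H), ?_, ?_⟩
          · field_simp
          · field_simp
            linear_combination b3
      obtain ⟨i, hi⟩ := htr _ (hz t x) b1 b2 c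
      fin_cases i
      · exact hi c1
      · refine hi ?_
        change eval ![t, 1, x] (pderiv 1 G) = c * eval ![t, 1, x] (pderiv 1 H)
        linear_combination b5 - c * b4 - t * c1 - x * c2
      · exact hi c2
  have FF : Full Φ G1 hx ht γ₁ Φi Gi D0 σ (σ * m) e n := by
    refine ⟨CV, hD0, ⟨α, β', hαβ⟩, Φd, Gd, he, TΦ, TG, iΦ, iG, hsepi, hσ, by nlinarith, ?_⟩
    intro h
    apply hcase
    have h1 : (d : ℝ) = 3 * m := by
      have h2 : σ * (3 * m) = σ * d := by rw [hσdr]; linarith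
      exact (mul_left_cancel₀ hσ.ne h2).symm
    exact_mod_cast h1.symm
  refine main FF (hxQ := hxQ) (htQ := htQ) ?_ ?_ DD rfl hFQ hxlc' hσdr
  · rw [hhxQ, hh, ← hkm]
    ring
  · rw [hhtQ, ll, ← hkm]
    ring

end Pool.Agent.H941.SC
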