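import Pool.Agent.H941.SC.TD
import Pool.Agent.H941.SC.Null
import Pool.Agent.H941.TF.Contra

set_option autoImplicit false
set_option linter.unusedSectionVars false
set_option linter.unusedVariables false

/-! # The roots near infinity -/

namespace Pool.Agent.H941.SC

open Polynomial Finset Filter Topology Metric Pool.Agent.Helper748.TP Pool.Agent.H941.TF

/-- the equation of the curve near infinity -/
structure Inf (Φ Φi : ℂ[X][X]) (e : ℕ) : Prop where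
  monic : Φi.Monic
  deg : Φi.natDegree = e
  rel : ∀ u x : ℂ, u ≠ 0 → ev2 Φi u x = u ^ e * ev2 Φ u⁻¹ (x / u)

theorem Inf.mul {Φ Φi G Gi : ℂ[X][X]} {e n : ℕ} (h : Inf Φ Φi e) (h' : Inf G Gi n) :
    Inf (Φ * G) (Φi * Gi) (e + n) := by
  refine ⟨h.monic.mul h'.monic, ?_, fun u x hu => ?_⟩
  · rw [h.monic.natDegree_mul h'.monic, h.deg, h'.deg]
  · rw [ev2_mul, ev2_mul, h.rel u x hu, h'.rel u x hu, pow_add]
    ring

theorem Inf.der {Φ Φi : ℂ[X][X]} {e : ℕ} (h : Inf Φ Φi e) {u : ℂ} (hu : u ≠ 0) (x : ℂ) :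
    ev2 (derivative Φi) u x = u ^ ((e : ℤ) - 1) * ev2 (derivative Φ) u⁻¹ (x / u) := by
  have h1 : HasDerivAt (fun v => ev2 Φi u v) (0 * ev2 (dt Φi) u x +
      1 * ev2 (derivative Φi) u x) x :=
    hasDerivAt_ev2 Φi (hasDerivAt_const x u) (hasDerivAt_id' x)
  have h2 : HasDerivAt (fun v => u ^ e * ev2 Φ u⁻¹ (v / u)) (u ^ e * (0 * ev2 (dt Φ) u⁻¹ (x / u) +
      1 / u * ev2 (derivative Φ) u⁻¹ (x / u))) x :=
    (hasDerivAt_ev2 Φ (hasDerivAt_const x u⁻¹) ((hasDerivAt_id' x).div_const u)).const_mul _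
  have h3 : (fun v => ev2 Φi u v) = fun v => u ^ e * ev2 Φ u⁻¹ (v / u) := by
    funext v
    exact h.rel u v hu
  rw [h3] at h1
  have h4 := h1.unique h2
  rw [zpow_sub_one₀ hu, zpow_natCast]
  linear_combination h4

theorem tend_ev2 (P : ℂ[X][X]) {X : ℂ → ℂ} (hX : AnalyticAt ℂ X 0) :
    Tendsto (fun u => ev2 P u (X u)) (𝓝[≠] 0) (𝓝 (ev2 P 0 (X 0))) :=
  (hasDerivAt_ev2 P (hasDerivAt_id' 0)
    hX.differentiableAt.hasDerivAt).continuousAt.tendsto.mono_left nhdsWithin_le_nhds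

theorem cont_ev2' (P : ℂ[X][X]) {X : ℂ → ℂ} (hX : AnalyticAt ℂ X 0) :
    ContinuousAt (fun u => ev2 P u (X u)) 0 :=
  (hasDerivAt_ev2 P (hasDerivAt_id' 0) hX.differentiableAt.hasDerivAt).continuousAt

theorem Inf.lim {Φ Φi : ℂ[X][X]} {e : ℕ} (h : Inf Φ Φi e) {X : ℂ → ℂ} (hX : AnalyticAt ℂ X 0) :
    Tendsto (fun u => u ^ (e : ℤ) * ev2 Φ u⁻¹ (X u / u)) (𝓝[≠] 0) (𝓝 (ev2 Φi 0 (X 0))) := by
  refine (tend_ev2 Φi hX).congr' ?_
  filter_upwards [self_mem_nhdsWithin] with u hu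
  rw [h.rel u _ hu, zpow_natCast]

theorem Inf.lim' {Φ Φi : ℂ[X][X]} {e : ℕ} (h : Inf Φ Φi e) {X : ℂ → ℂ} (hX : AnalyticAt ℂ X 0) :
    Tendsto (fun u => u ^ ((e : ℤ) - 1) * ev2 (derivative Φ) u⁻¹ (X u / u)) (𝓝[≠] 0)
      (𝓝 (ev2 (derivative Φi) 0 (X 0))) := by
  refine (tend_ev2 _ hX).congr' ?_
  filter_upwards [self_mem_nhdsWithin] with u hu
  rw [h.der hu]

/-- a root function is one of the roots -/
theorem root_uniq {N : ℕ} {Qi : ℂ[X][X]} {X : Fin N → ℂ → ℂ} (hX : ∀ j, AnalyticAt ℂ (X j) 0)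
    (hinj : Function.Injective fun j => X j 0)
    (hroot : ∀ᶠ u in 𝓝 (0 : ℂ), evt u Qi = nod fun j => X j u) {x : ℂ → ℂ}
    (hx : ContinuousAt x 0) (h : ∀ᶠ u in 𝓝 (0 : ℂ), ev2 Qi u (x u) = 0) :
    ∃ j, ∀ᶠ u in 𝓝 (0 : ℂ), x u = X j u := by
  have h0 := h.self_of_nhds
  have hr0 := hroot.self_of_nhds
  have key : ∀ (u y : ℂ), evt u Qi = (nod fun j => X j u) → ev2 Qi u y = ∏ j, (y - X j u) := by
    intro u y hu
    rw [ev2, hu, nod, eval_prod]
    exact Finset.prod_congr rfl fun j _ => by rw [eval_sub, eval_X, eval_C]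
  rw [key _ _ hr0, Finset.prod_eq_zero_iff] at h0
  obtain ⟨j, -, hj⟩ := h0
  refine ⟨j, ?_⟩
  have hne : ∀ᶠ u in 𝓝 (0 : ℂ), ∀ i : Fin N, i ≠ j → x u - X i u ≠ 0 := by
    rw [eventually_all]
    intro i
    by_cases hij : i = j
    · exact Eventually.of_forall fun u h => absurd hij h
    · have h1 : ContinuousAt (fun u => x u - X i u) 0 := hx.sub (hX i).continuousAt
      have h2 : x 0 - X i 0 ≠ 0 := by
        intro h3
        apply hij
        apply hinj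
        change X i 0 = X j 0
        linear_combination hj - h3
      exact (h1.eventually_ne h2).mono fun u hu _ => hu
  filter_upwards [h, hroot, hne] with u h1 h2 h3
  rw [key _ _ h2, Finset.prod_eq_zero_iff] at h1
  obtain ⟨i, -, hi⟩ := h1
  by_cases hij : i = j
  · rw [hij] at hi
    exact sub_eq_zero.1 hi
  · exact absurd hi (h3 i hij)

/-- the parametrization near infinity -/
theorem Inf.par {N : ℕ} {Q Qi : ℂ[X][X]} (hQ : Q.Monic) (hN : Q.natDegree = N) (hi : Inf Q Qi N)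
    (hN0 : 0 < N) (hs : (evt 0 Qi).Separable) :
    ∃ X : Fin N → ℂ → ℂ, (∀ j, AnalyticAt ℂ (X j) 0) ∧ (Function.Injective fun j => X j 0) ∧
      (∀ᶠ u in 𝓝 (0 : ℂ), evt u Qi = nod fun j => X j u) ∧
      Par N Q (fun u => u⁻¹) (fun j u => X j u / u) := by
  obtain ⟨X', hX1, hX2, hX3⟩ := par_reg hi.monic hi.deg hN0 hs
  have hX2' := hX2.filter_mono (nhdsWithin_le_nhds (s := {0}ᶜ))
  have hX3' := hX3.filter_mono (nhdsWithin_le_nhds (s := {0}ᶜ))
  have hX0 := hX2.self_of_nhds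
  refine ⟨X', hX1, hX0, hX3, ?_⟩
  have hinj : ∀ᶠ u in 𝓝[≠] (0 : ℂ), Function.Injective fun j => X' j u / u := by
    filter_upwards [hX2', ev_ne] with u hu hu0 j i hji
    have h : X' j u / u = X' i u / u := hji
    exact hu ((div_left_inj' hu0).1 h)
  refine ⟨(MeromorphicAt.id 0).inv, fun j => (hX1 j).meromorphicAt.div (MeromorphicAt.id 0),
    ?_, hinj⟩
  filter_upwards [hX3', hinj, ev_ne] with u hu hui hu0
  refine eq_nod (evt_monic hQ _) (by rw [natDegree_evt hQ, hN]) hui fun j => ?_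
  have h1 : ev2 Qi u (X' j u) = 0 := by
    rw [ev2, hu]
    exact eval_nod (x := fun j => X' j u) j
  rw [hi.rel u _ hu0] at h1
  exact (mul_eq_zero.1 h1).resolve_left (pow_ne_zero _ hu0)

end Pool.Agent.H941.SC
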