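import Mathlib

set_option autoImplicit false
set_option linter.unusedSectionVars false
set_option linter.unusedVariables false

/-! # The leading coefficient of a differential operator of the first order -/

namespace Pool.Agent.H941.SC

open Polynomial

variable {A : Type} [CommRing A]

theorem deg_op {Q g R : A[X]} {N n : ℕ} (hN : Q.natDegree ≤ N) (hN1 : 1 ≤ N)
    (hg : g.natDegree ≤ N - 1) (hR : R.natDegree ≤ n) :
    (Q * derivative R + g * R).natDegree ≤ N - 1 + n := by
  refine (natDegree_add_le _ _).trans (max_le ?_ (natDegree_mul_le.trans (by omega)))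
  rcases Nat.eq_zero_or_pos n with h | h
  · have : derivative R = 0 := derivative_of_natDegree_zero (by omega)
    rw [this, mul_zero, natDegree_zero]
    exact Nat.zero_le _
  · have h1 := natDegree_derivative_le R
    exact natDegree_mul_le.trans (by omega)

theorem lead_op {Q g R : A[X]} {N n : ℕ} {c : A} (hN : Q.natDegree ≤ N) (hQ : Q.coeff N = 1)
    (hN1 : 1 ≤ N) (hg : g.natDegree ≤ N - 1) (hgc : g.coeff (N - 1) = c)
    (hR : R.natDegree ≤ n) :
    (Q * derivative R + g * R).coeff (N - 1 + n) = ((n : A) + c) * R.coeff n := by
  rw [coeff_add, coeff_mul_add_eq_of_natDegree_le hg hR, hgc]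
  rcases Nat.eq_zero_or_pos n with h | h
  · have : derivative R = 0 := derivative_of_natDegree_zero (by omega)
    rw [this, mul_zero, coeff_zero, h, Nat.cast_zero]
    ring
  · have h1 := natDegree_derivative_le R
    obtain ⟨k, rfl⟩ : ∃ k, n = k + 1 := ⟨n - 1, by omega⟩
    have h2 : N - 1 + (k + 1) = N + k := by omega
    rw [h2, coeff_mul_add_eq_of_natDegree_le hN (by omega : (derivative R).natDegree ≤ k), hQ,
      coeff_derivative]
    push_cast
    ring

end Pool.Agent.H941.SC
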