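import Pool.Agent.H941.SC.Norm

set_option autoImplicit false
set_option linter.unusedSectionVars false
set_option linter.unusedVariables false

/-! # The primitive with polynomial coefficients -/

namespace Pool.Agent.H941.SC

open Polynomial Pool.Agent.Helper748.TP Pool.Agent.H941.TF

/-- the polynomial part of the second component -/
noncomputable def VV (N : ℕ) (Qp hp : ℂ[X][X]) : ℂ[X][X] :=
  C (-(C (1 / 2) * Qp.coeff (N - 1)) - C (1 / 6) * hp.coeff (N - 2)) - C (C (1 / 2)) * X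

/-- The data of the differential system. -/
structure Dat (N : ℕ) (Qp γ hx ht : ℂ[X][X]) (s : ℂ) (V : ℂ[X][X]) (d : ℂ[X])
    (p r q : ℂ[X][X]) : Prop where
  monic : Qp.Monic
  deg : Qp.natDegree = N
  γ0 : γ ≠ 0
  dvd : Qp ∣ γ
  hxE : derivative γ * Qp = γ * hx
  htE : dt γ * Qp = γ * ht
  hxd : hx.natDegree ≤ N - 1
  htd : ht.natDegree ≤ N - 1
  d0 : d ≠ 0
  pd : p.natDegree ≤ N - 2
  rE : r = C d * V * Qp + q
  qd : q.natDegree ≤ N - 1
  eq : C d ^ 2 * Qp ^ 2 = Qp * (C d * dt p - C (derivative d) * p) +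
        C d * (kc s * ht - dt Qp) * p + C d * (Qp * derivative r) +
        C d * (kc s * hx - derivative Qp) * r

/-- the primitive with simple poles -/
theorem nf0 {Qp γ hx ht P R : ℂ[X][X]} {s : ℂ} {K M N δ : ℕ} (hγ : γ ≠ 0) (hQ : Qp.Monic)
    (hxE : derivative γ * Qp = γ * hx) (htE : dt γ * Qp = γ * ht) (hV : γ ∣ Qp ^ M)
    (hQγ : Qp ∣ γ) (hN : Qp.natDegree = N) (hN2 : 2 ≤ N)
    (hxd : hx.natDegree ≤ N - 1) (htd : ht.natDegree ≤ N - 1)
    (hsq : ∃ (D0 : ℂ[X]) (α β : ℂ[X][X]), D0 ≠ 0 ∧ C D0 = α * Qp + β * derivative Qp)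
    (hs : ∀ K m : ℕ, s * ((m : ℂ) + 1) - K ≠ 0) (hγδ : γ.natDegree = δ)
    (hPd : P.natDegree ≤ δ * K + 1) (hRd : R.natDegree ≤ δ * K + 2)
    (hE : γ ^ (K + 1) = γ * (dt P + derivative R) + kc (s - K) * (dt γ * P + derivative γ * R)) :
    ∃ (P' R' : Kt[X]), Cl (Qp.map io) ((kc s * hx).map io) ((kc s * ht).map io) 0 1 P' R' ∧
      P'.natDegree ≤ N + 1 ∧ R'.natDegree ≤ N + 2 := by
  obtain ⟨V, hV⟩ := hV
  have hE' : (C X ^ 0 * γ) ^ (K + 1) = (C X ^ 0 * γ) * (dt P + derivative R) +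
      kc (s - K) * (dt (C X ^ 0 * γ) * P + derivative (C X ^ 0 * γ) * R) := by
    rw [pow_zero, one_mul]
    exact hE
  have hC := to_Cl hγ hQ.ne_zero hxE htE hV.symm hE'
  rw [ee_zero] at hC
  have hinj := io_inj
  have : CharZero Kt := charZero_of_injective_algebraMap (R := ℂ[X]) io_inj
  have hhp : (kc s * hx).natDegree ≤ N - 1 := (natDegree_C_mul_le _ _).trans hxd
  have hlp : (kc s * ht).natDegree ≤ N - 1 := (natDegree_C_mul_le _ _).trans htd
  have hQk : (Qp.map io).Monic := hQ.map io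
  have hnd : (Qp.map io).natDegree = N := by
    rw [natDegree_map_eq_of_injective io_inj, hN]
  have hhk : ((kc s * hx).map io).degree < ((Qp.map io).natDegree : WithBot ℕ) := by
    rw [hnd]; exact lt_of_le_of_lt degree_map_le (lt_of_le' (by omega) hhp)
  have hlk : ((kc s * ht).map io).degree < ((Qp.map io).natDegree : WithBot ℕ) := by
    rw [hnd]; exact lt_of_le_of_lt degree_map_le (lt_of_le' (by omega) hlp)
  have hi := integ_map s hγ hxE htE
  have hsep : IsCoprime (Qp.map io) (derivative (Qp.map io)) := by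
    obtain ⟨D0, α, β, hD, hαβ⟩ := hsq
    have hD' : io D0 ≠ 0 := fun h0 => hD (hinj (by rw [h0, map_zero]))
    refine ⟨C (io D0)⁻¹ * α.map io, C (io D0)⁻¹ * β.map io, ?_⟩
    have h2 := congrArg (Polynomial.map io) hαβ
    rw [Polynomial.map_add, Polynomial.map_mul, Polynomial.map_mul, map_C] at h2
    have h3 : (C (io D0)⁻¹ * C (io D0) : Kt[X]) = 1 := by
      rw [← C_mul, inv_mul_cancel₀ hD', C_1]
    rw [derivative_map]
    linear_combination h3 - C (io D0)⁻¹ * h2
  have hc : ∀ m : ℕ, IsCoprime (Qp.map io)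
      ((kc s * hx).map io - (m : Kt[X]) * derivative (Qp.map io)) := by
    intro m
    have h1 := cop_field (F := Kt) (G := γ.map io) (g := Qp.map io) (h := hx.map io) (s := io (C s))
      ((Polynomial.map_ne_zero_iff hinj).2 hγ) (Polynomial.map_dvd io hQγ) ?_ hsep m ?_
    · rw [Polynomial.map_mul, map_kc, ← natC]
      exact h1
    · rw [derivative_map, ← Polynomial.map_mul, hxE, Polynomial.map_mul]
    · intro k h0
      have h2 : io (C (s * ((k : ℂ) + 1) - m)) = 0 := by
        rw [← h0]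
        simp [map_sub, map_mul]
      have h3 : (C (s * ((k : ℂ) + 1) - m) : ℂ[X]) = 0 := hinj (by rw [h2, map_zero])
      exact hs m k (C_eq_zero.1 h3)
  obtain ⟨P', R', h1, h2, h3⟩ := hC.red hi hQk (by rw [hnd]; omega) hhk hlk hc _
    (PP_La hQ _ _ _) (PP_La hQ _ _ _)
  have hVd : V.natDegree = M * N - δ ∧ δ ≤ M * N := by
    have hV0 : V ≠ 0 := by
      rintro rfl
      rw [mul_zero] at hV
      exact (hQ.pow M).ne_zero hV
    have h4 := congrArg natDegree hV
    rw [hQ.natDegree_pow, natDegree_mul hγ hV0, hN, hγδ] at h4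
    omega
  have key : ∀ (S : ℂ[X][X]) (n : ℕ), S.natDegree ≤ δ * K + n →
      (La (0 * K) ((S * (V ^ K * Qp)) /ₘ (Qp ^ (M * K + 1)))).natDegree ≤ n := by
    intro S n hS
    refine (natDegree_La_le _ _).trans ?_
    rw [natDegree_divByMonic _ (hQ.pow _), hQ.natDegree_pow, hN]
    have h5 : (S * (V ^ K * Qp)).natDegree ≤ S.natDegree + (K * (M * N - δ) + N) := by
      refine natDegree_mul_le.trans (Nat.add_le_add_left (natDegree_mul_le.trans ?_) _)
      rw [hN]
      refine Nat.add_le_add_right (natDegree_pow_le.trans ?_) _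
      rw [hVd.1]
    have h6 : δ * K + K * (M * N - δ) = M * K * N := by
      have h7 := hVd.2
      obtain ⟨w, hw⟩ := Nat.exists_eq_add_of_le h7
      rw [hw, Nat.add_sub_cancel_left]
      calc δ * K + K * w = K * (δ + w) := by ring
        _ = K * (M * N) := by rw [hw]
        _ = M * K * N := by ring
    have h8 : (M * K + 1) * N = M * K * N + N := by ring
    omega
  refine ⟨P', R', h1, ?_, ?_⟩
  · exact PP_nat hnd (by omega) h2 (key P 1 hPd)
  · exact PP_nat hnd (by omega) h3 (key R 2 hRd)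

/-- **The primitive in normal form.** -/
theorem dat {Qp γ hx ht P R : ℂ[X][X]} {s : ℂ} {K M N δ : ℕ} (hγ : γ ≠ 0) (hQ : Qp.Monic)
    (hxE : derivative γ * Qp = γ * hx) (htE : dt γ * Qp = γ * ht) (hV : γ ∣ Qp ^ M)
    (hQγ : Qp ∣ γ) (hN : Qp.natDegree = N) (hN2 : 2 ≤ N)
    (hxd : hx.natDegree ≤ N - 1) (htd : ht.natDegree ≤ N - 1)
    (hsq : ∃ (D0 : ℂ[X]) (α β : ℂ[X][X]), D0 ≠ 0 ∧ C D0 = α * Qp + β * derivative Qp)
    (hs : ∀ K m : ℕ, s * ((m : ℂ) + 1) - K ≠ 0) (hγδ : γ.natDegree = δ)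
    (hPd : P.natDegree ≤ δ * K + 1) (hRd : R.natDegree ≤ δ * K + 2)
    (hc : (kc s * hx).coeff (N - 1) = -3)
    (hE : γ ^ (K + 1) = γ * (dt P + derivative R) + kc (s - K) * (dt γ * P + derivative γ * R)) :
    ∃ (d : ℂ[X]) (p r q : ℂ[X][X]), Dat N Qp γ hx ht s (VV N Qp (kc s * hx)) d p r q := by
  have : CharZero Kt := charZero_of_injective_algebraMap (R := ℂ[X]) io_inj
  have hQk : (Qp.map io).Monic := hQ.map io
  have hnd : (Qp.map io).natDegree = N := by
    rw [natDegree_map_eq_of_injective io_inj, hN]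
  have hi := integ_map s hγ hxE htE
  have hhp : (kc s * hx).natDegree ≤ N - 1 := (natDegree_C_mul_le _ _).trans hxd
  have hlp : (kc s * ht).natDegree ≤ N - 1 := (natDegree_C_mul_le _ _).trans htd
  have hhk : ((kc s * hx).map io).natDegree ≤ N - 1 := natDegree_map_le.trans hhp
  have hlk : ((kc s * ht).map io).natDegree ≤ N - 1 := natDegree_map_le.trans hlp
  have hck : ((kc s * hx).map io).coeff (N - 1) = -3 := by
    rw [coeff_map, hc, RingHom.map_neg, map_ofNat io 3]
  obtain ⟨P0, R0, a0, b0, c0⟩ := nf0 hγ hQ hxE htE hV hQγ hN hN2 hxd htd hsq hs hγδ hPd hRd hE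
  obtain ⟨P1, R1, a1, b1, c1⟩ := nf1 hi hQk hnd hN2 hhk hck hlk a0 b0 c0
  obtain ⟨r1, hr1, hr1d⟩ := nf2 hQk hnd hN2 hhk hck hlk a1 b1 c1
  obtain ⟨d1, p2, hd1, hp2⟩ := clear P1
  obtain ⟨d2, q2, hd2, hq2⟩ := clear r1
  set d : ℂ[X] := d1 * d2 with hd
  have hd0 : d ≠ 0 := mul_ne_zero hd1 hd2
  have hdk : io d ≠ 0 := fun h0 => hd0 (io_inj (by rw [h0, map_zero]))
  set p : ℂ[X][X] := C d2 * p2 with hpd
  set q : ℂ[X][X] := C d1 * q2 with hqd
  set V := VV N Qp (kc s * hx) with hVV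
  set r : ℂ[X][X] := C d * V * Qp + q with hrd
  have hp3 : p.map io = C (io d) * P1 := by
    rw [hpd, Polynomial.map_mul, map_C, hp2, hd, RingHom.map_mul, C_mul]
    ring
  have hq3 : q.map io = C (io d) * r1 := by
    rw [hqd, Polynomial.map_mul, map_C, hq2, hd, RingHom.map_mul, C_mul]
    ring
  have hV3 : V.map io = C (-((Qp.map io).coeff (N - 1)) / 2 -
      ((kc s * hx).map io).coeff (N - 2) / 6) - C (1 / 2) * X := by
    have h2 : io (C (1 / 2)) = 1 / 2 := by
      have h3 : (2 : Kt) * io (C (1 / 2)) = 1 := by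
        have h4 : (2 : Kt) = io (C 2) := by
          rw [map_ofNat (C : ℂ →+* ℂ[X]) 2, map_ofNat io 2]
        rw [h4, ← RingHom.map_mul, ← C_mul, mul_one_div_cancel (two_ne_zero), C_1, RingHom.map_one]
      field_simp
      linear_combination h3
    have h6 : io (C (1 / 6)) = 1 / 6 := by
      have h3 : (6 : Kt) * io (C (1 / 6)) = 1 := by
        have h4 : (6 : Kt) = io (C 6) := by
          rw [map_ofNat (C : ℂ →+* ℂ[X]) 6, map_ofNat io 6]
        rw [h4, ← RingHom.map_mul, ← C_mul, mul_one_div_cancel (by norm_num), C_1, RingHom.map_one]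
      field_simp
      linear_combination h3
    rw [hVV, VV, Polynomial.map_sub, map_C, Polynomial.map_mul, map_C, map_X, h2, coeff_map,
      coeff_map, RingHom.map_sub, RingHom.map_neg, RingHom.map_mul, RingHom.map_mul, h2, h6]
    congr 2
    ring
  have hr3 : r.map io = C (io d) * R1 := by
    rw [hrd, Polynomial.map_add, Polynomial.map_mul, Polynomial.map_mul, map_C, hq3, hV3, hr1]
    ring
  refine ⟨d, p, r, q, hQ, hN, hγ, hQγ, hxE, htE, hxd, htd, hd0, ?_, rfl, ?_, ?_⟩
  · rw [← natDegree_map_eq_of_injective io_inj, hp3]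
    exact (natDegree_C_mul_le _ _).trans b1
  · rw [← natDegree_map_eq_of_injective io_inj, hq3]
    exact (natDegree_C_mul_le _ _).trans hr1d
  · apply map_injective io io_inj
    have hP' : P1 = C (io d)⁻¹ * p.map io := by
      rw [hp3, ← mul_assoc, ← C_mul, inv_mul_cancel₀ hdk, C_1, one_mul]
    have hR' : R1 = C (io d)⁻¹ * r.map io := by
      rw [hr3, ← mul_assoc, ← C_mul, inv_mul_cancel₀ hdk, C_1, one_mul]
    have i1 : (C (io d)⁻¹ * C (io d) : Kt[X]) = 1 := by rw [← C_mul, inv_mul_cancel₀ hdk, C_1]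
    have a2 := a1
    rw [Cl, hP', hR', dk_mul, dk_C, D_inv hdk, D_io, derivative_C_mul, dk_map, dk_map, C_0,
      derivative_map, derivative_map] at a2
    simp only [Polynomial.map_add, Polynomial.map_sub, Polynomial.map_mul, Polynomial.map_pow,
      map_C] at a2 ⊢
    simp only [C_mul, C_neg, C_pow, Nat.cast_one, one_mul] at a2
    linear_combination (C (io d) ^ 2) * a2 +
      (-(Qp.map io * C (io (derivative d)) * p.map io * (C (io d)⁻¹ * C (io d) + 1)) +
        Qp.map io * C (io d) * (dt p).map io +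
        C (io d) * ((kc s).map io * ht.map io - (dt Qp).map io) * p.map io +
        C (io d) * Qp.map io * (derivative r).map io +
        C (io d) * ((kc s).map io * hx.map io - (derivative Qp).map io) * r.map io) * i1

end Pool.Agent.H941.SC
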