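import Pool.Agent.H941.TF.Ode

set_option autoImplicit false
set_option linter.unusedSectionVars false
set_option linter.unusedVariables false

/-! # The total degree and the growth at infinity -/

namespace Pool.Agent.H941.SC

open Polynomial Finset Filter Topology Pool.Agent.Helper748.TP Pool.Agent.H941.TF

/-- the total degree is at most `k` -/
def TD (k : ℤ) (Z : ℂ[X][X]) : Prop := ∀ i j : ℕ, k < (i : ℤ) + j → (Z.coeff i).coeff j = 0

theorem TD.mono {k l : ℤ} {Z : ℂ[X][X]} (h : TD k Z) (hkl : k ≤ l) : TD l Z :=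
  fun i j hij => h i j (by omega)

theorem TD.add {k : ℤ} {Z W : ℂ[X][X]} (h : TD k Z) (h' : TD k W) : TD k (Z + W) := by
  intro i j hij
  rw [coeff_add, coeff_add, h i j hij, h' i j hij, add_zero]

theorem TD.sub {k : ℤ} {Z W : ℂ[X][X]} (h : TD k Z) (h' : TD k W) : TD k (Z - W) := by
  intro i j hij
  rw [coeff_sub, coeff_sub, h i j hij, h' i j hij, sub_zero]

theorem TD.mul {k l : ℤ} {Z W : ℂ[X][X]} (h : TD k Z) (h' : TD l W) : TD (k + l) (Z * W) := by
  intro i j hij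
  rw [coeff_mul, finsetSum_coeff]
  refine Finset.sum_eq_zero fun x hx => ?_
  rw [coeff_mul]
  refine Finset.sum_eq_zero fun y hy => ?_
  have h1 := mem_antidiagonal.1 hx
  have h2 := mem_antidiagonal.1 hy
  rcases lt_or_ge k ((x.1 : ℤ) + y.1) with h3 | h3
  · rw [h _ _ h3, zero_mul]
  · rw [h' x.2 y.2 (by omega), mul_zero]

theorem TD.kc_mul {k : ℤ} {Z : ℂ[X][X]} (h : TD k Z) (c : ℂ) : TD k (kc c * Z) := by
  intro i j hij
  rw [kc, coeff_C_mul, coeff_C_mul, h i j hij, mul_zero]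

theorem TD.der {k : ℤ} {Z : ℂ[X][X]} (h : TD k Z) : TD (k - 1) (derivative Z) := by
  intro i j hij
  rw [coeff_derivative]
  have h1 : ((i : ℂ[X]) + 1) = C ((i : ℂ) + 1) := by simp
  rw [h1, coeff_mul_C, h (i + 1) j (by push_cast; omega), zero_mul]

theorem TD.dt {k : ℤ} {Z : ℂ[X][X]} (h : TD k Z) : TD (k - 1) (dt Z) := by
  intro i j hij
  rw [coeff_dt, coeff_derivative, h i (j + 1) (by push_cast; omega), zero_mul]

/-- values of polynomials of bounded degree -/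
theorem coeff_lim {N : ℕ} {W : ℂ → ℂ[X]} {f : Filter ℂ}
    (hW : ∀ᶠ u in f, (W u).degree < (N : WithBot ℕ))
    (h : ∀ x : ℂ, ∃ l, Tendsto (fun u => (W u).eval x) f (𝓝 l)) (k : ℕ) :
    ∃ l, Tendsto (fun u => (W u).coeff k) f (𝓝 l) := by
  set v : Fin N → ℂ := fun i => (i : ℕ) with hv
  have hinj : Function.Injective v := by
    intro i j hij
    have : ((i : ℕ) : ℂ) = ((j : ℕ) : ℂ) := hij
    exact Fin.ext (Nat.cast_injective this)
  choose l hl using h
  refine ⟨∑ i, l (v i) * (Lagrange.basis univ v i).coeff k, ?_⟩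
  have h1 : (fun u => ∑ i, (W u).eval (v i) * (Lagrange.basis univ v i).coeff k) =ᶠ[f]
      fun u => (W u).coeff k := by
    filter_upwards [hW] with u hu
    have h2 := Lagrange.eq_interpolate (v := v) (s := univ) (fun a _ b _ h => hinj h)
      (by rwa [card_univ, Fintype.card_fin] : (W u).degree < (#(univ : Finset (Fin N)) : WithBot ℕ))
    conv_rhs => rw [h2]
    rw [Lagrange.interpolate_apply, finsetSum_coeff]
    refine Finset.sum_congr rfl fun i _ => ?_
    rw [coeff_C_mul]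
  exact Tendsto.congr' h1 (tendsto_finsetSum _ fun i _ => (hl _).mul_const _)

/-- Lagrange interpolation with moving nodes -/
theorem interp_lim {n : ℕ} {X : Fin n → ℂ → ℂ} {x0 : Fin n → ℂ} {f : Filter ℂ}
    (hX : ∀ j, Tendsto (X j) f (𝓝 (x0 j))) (hinj : Function.Injective x0) {W : ℂ → ℂ[X]}
    (hW : ∀ᶠ u in f, (W u).degree < (n : WithBot ℕ))
    (h : ∀ j, ∃ l, Tendsto (fun u => (W u).eval (X j u)) f (𝓝 l)) (x : ℂ) :
    ∃ l, Tendsto (fun u => (W u).eval x) f (𝓝 l) := by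
  choose l hl using h
  have hne : ∀ᶠ u in f, ∀ j i : Fin n, j ≠ i → X j u - X i u ≠ 0 := by
    rw [eventually_all]
    intro j
    rw [eventually_all]
    intro i
    by_cases hji : j = i
    · exact Eventually.of_forall fun u h => absurd hji h
    · have h1 := ((hX j).sub (hX i)).eventually_ne (sub_ne_zero.2 fun h => hji (hinj h))
      exact h1.mono fun u hu _ => hu
  refine ⟨∑ j, l j * ∏ i ∈ univ.erase j, ((x - x0 i) / (x0 j - x0 i)), ?_⟩
  have h1 : (fun u => ∑ j, (W u).eval (X j u) * ∏ i ∈ univ.erase j,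
      ((x - X i u) / (X j u - X i u))) =ᶠ[f] fun u => (W u).eval x := by
    filter_upwards [hW, hne] with u hu hnu
    have hi : Function.Injective fun j => X j u := by
      intro j i hji
      by_contra hne'
      exact hnu j i hne' (sub_eq_zero.2 hji)
    have h2 := Lagrange.eq_interpolate (v := fun j => X j u) (s := univ) (fun a _ b _ h => hi h)
      (by rwa [card_univ, Fintype.card_fin] : (W u).degree < (#(univ : Finset (Fin n)) : WithBot ℕ))
    conv_rhs => rw [h2]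
    rw [Lagrange.interpolate_apply, eval_finsetSum]
    refine Finset.sum_congr rfl fun i _ => ?_
    rw [eval_mul, eval_C, Lagrange.basis, eval_prod]
    congr 1
    refine Finset.prod_congr rfl fun k hk => ?_
    rw [Lagrange.basisDivisor, eval_mul, eval_C, eval_sub, eval_X, eval_C, div_eq_mul_inv, mul_comm]
  refine Tendsto.congr' h1 (tendsto_finsetSum _ fun j _ => (hl j).mul
    (tendsto_finsetProd _ fun i hi => ?_))
  exact (tendsto_const_nhds.sub (hX i)).div ((hX j).sub (hX i))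
    (sub_ne_zero.2 fun h => (Finset.ne_of_mem_erase hi) (hinj h).symm)

theorem ev2_sum (Z : ℂ[X][X]) {n : ℕ} (hn : Z.natDegree < n) (t x : ℂ) :
    ev2 Z t x = ∑ i ∈ range n, (Z.coeff i).eval t * x ^ i := by
  have h1 : (evt t Z).natDegree < n := lt_of_le_of_lt natDegree_map_le hn
  rw [ev2, eval_eq_sum_range' h1]
  refine Finset.sum_congr rfl fun i _ => ?_
  rw [coeff_evt']
where
  coeff_evt' {Z : ℂ[X][X]} {t : ℂ} {i : ℕ} : (evt t Z).coeff i = (Z.coeff i).eval t := by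
    rw [evt, coe_mapRingHom, coeff_map, coe_evalRingHom]

theorem TD.lim {k : ℤ} {Z : ℂ[X][X]} (h : TD k Z) {X : ℂ → ℂ} {x0 : ℂ}
    (hX : Tendsto X (𝓝[≠] 0) (𝓝 x0)) :
    ∃ l, Tendsto (fun u => u ^ k * ev2 Z u⁻¹ (X u / u)) (𝓝[≠] 0) (𝓝 l) := by
  have key : ∀ i j : ℕ, ∃ l, Tendsto (fun u : ℂ => u ^ k * ((Z.coeff i).coeff j * u⁻¹ ^ j *
      (X u / u) ^ i)) (𝓝[≠] 0) (𝓝 l) := by
    intro i j
    rcases lt_or_ge k ((i : ℤ) + j) with h1 | h1
    · refine ⟨0, ?_⟩
      rw [h i j h1]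
      simp
    · obtain ⟨m, hm⟩ := Int.eq_ofNat_of_zero_le (sub_nonneg.2 h1)
      refine ⟨0 ^ m * ((Z.coeff i).coeff j * x0 ^ i), ?_⟩
      have h2 : Tendsto (fun u : ℂ => u ^ m) (𝓝[≠] 0) (𝓝 (0 ^ m)) :=
        ((continuous_pow m).tendsto (0 : ℂ)).mono_left nhdsWithin_le_nhds
      refine Tendsto.congr' ?_ (h2.mul ((hX.pow i).const_mul ((Z.coeff i).coeff j)))
      filter_upwards [self_mem_nhdsWithin] with u hu
      have hu0 : u ≠ 0 := hu
      have h3 : k = (m : ℤ) + i + j := by omega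
      have hi : u ^ i * u⁻¹ ^ i = 1 := by rw [← mul_pow, mul_inv_cancel₀ hu0, one_pow]
      have hj : u ^ j * u⁻¹ ^ j = 1 := by rw [← mul_pow, mul_inv_cancel₀ hu0, one_pow]
      rw [h3, zpow_add₀ hu0, zpow_add₀ hu0, zpow_natCast, zpow_natCast, zpow_natCast,
        div_eq_mul_inv, mul_pow]
      linear_combination (-(u ^ m * (Z.coeff i).coeff j * X u ^ i) * (u ^ j * u⁻¹ ^ j)) * hi -
        (u ^ m * (Z.coeff i).coeff j * X u ^ i) * hj
  choose l hl using key
  refine ⟨∑ i ∈ range (Z.natDegree + 1), ∑ j ∈ range ((Z.coeff i).natDegree + 1), l i j, ?_⟩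
  refine Tendsto.congr' ?_ (tendsto_finsetSum _ fun i _ => tendsto_finsetSum _ fun j _ => hl i j)
  refine Eventually.of_forall fun u => ?_
  beta_reduce
  rw [ev2_sum Z (Nat.lt_succ_self _), Finset.mul_sum]
  refine Finset.sum_congr rfl fun i _ => ?_
  rw [eval_eq_sum_range, Finset.sum_mul, Finset.mul_sum]

theorem pol_gr {c : ℂ[X]} {k : ℤ} {i : ℕ} {l : ℂ}
    (h : Tendsto (fun u : ℂ => u ^ k * (c.eval u⁻¹ * u⁻¹ ^ i)) (𝓝[≠] 0) (𝓝 l)) (j : ℕ)
    (hij : k < (i : ℤ) + j) : c.coeff j = 0 := by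
  by_contra hc
  have hj : j ≤ c.natDegree := le_natDegree_of_ne_zero hc
  have hc0 : c ≠ 0 := by
    rintro rfl
    exact hc (coeff_zero j)
  obtain ⟨m, hm⟩ := Int.eq_ofNat_of_zero_le (by omega : 0 ≤ (i : ℤ) + c.natDegree - k - 1)
  have h1 : Tendsto (fun u : ℂ => u ^ (m + 1) * (u ^ k * (c.eval u⁻¹ * u⁻¹ ^ i)))
      (𝓝[≠] 0) (𝓝 (0 ^ (m + 1) * l)) :=
    (((continuous_pow (m + 1)).tendsto (0 : ℂ)).mono_left nhdsWithin_le_nhds).mul h
  have h2 : Tendsto (fun u : ℂ => ∑ j ∈ range (c.natDegree + 1), c.coeff j *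
      u ^ (c.natDegree - j)) (𝓝[≠] 0) (𝓝 (∑ j ∈ range (c.natDegree + 1), c.coeff j *
      0 ^ (c.natDegree - j))) := by
    have h3 : Continuous fun u : ℂ => ∑ j ∈ range (c.natDegree + 1), c.coeff j *
      u ^ (c.natDegree - j) := by fun_prop
    exact (h3.tendsto 0).mono_left nhdsWithin_le_nhds
  have h3 : (∑ j ∈ range (c.natDegree + 1), c.coeff j * (0 : ℂ) ^ (c.natDegree - j)) =
      c.leadingCoeff := by
    rw [Finset.sum_range_succ, Finset.sum_eq_zero, Nat.sub_self, pow_zero, mul_one, zero_add]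
    · rfl
    · intro j hj
      rw [zero_pow (by have := mem_range.1 hj; omega), mul_zero]
  rw [h3] at h2
  rw [zero_pow (Nat.succ_ne_zero m), zero_mul] at h1
  have h4 : (fun u : ℂ => ∑ j ∈ range (c.natDegree + 1), c.coeff j * u ^ (c.natDegree - j))
      =ᶠ[𝓝[≠] 0] fun u : ℂ => u ^ (m + 1) * (u ^ k * (c.eval u⁻¹ * u⁻¹ ^ i)) := by
    filter_upwards [self_mem_nhdsWithin] with u hu
    have hu0 : u ≠ 0 := hu
    have h5 : u ^ (m + 1) * (u ^ k * (c.eval u⁻¹ * u⁻¹ ^ i)) =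
        u ^ c.natDegree * c.eval u⁻¹ := by
      have h6 : u ^ (m + 1) * u ^ k = u ^ c.natDegree * u ^ i := by
        rw [← zpow_natCast, ← zpow_natCast, ← zpow_natCast, ← zpow_add₀ hu0, ← zpow_add₀ hu0]
        congr 1
        push_cast
        omega
      have hi : u ^ i * u⁻¹ ^ i = 1 := by rw [← mul_pow, mul_inv_cancel₀ hu0, one_pow]
      rw [← mul_assoc, h6]
      linear_combination (u ^ c.natDegree * c.eval u⁻¹) * hi
    rw [h5, eval_eq_sum_range, Finset.mul_sum]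
    refine Finset.sum_congr rfl fun j hj => ?_
    have h7 : c.natDegree = (c.natDegree - j) + j := by
      have := mem_range.1 hj
      omega
    have hi : u ^ j * u⁻¹ ^ j = 1 := by rw [← mul_pow, mul_inv_cancel₀ hu0, one_pow]
    have h8 : u ^ c.natDegree = u ^ (c.natDegree - j) * u ^ j := by rw [← pow_add, ← h7]
    rw [h8]
    linear_combination (-(c.coeff j * u ^ (c.natDegree - j))) * hi
  exact hc0 (leadingCoeff_eq_zero.1 (tendsto_nhds_unique h2 (h1.congr' h4.symm)))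

/-- **Interpolation at infinity.** -/
theorem TD_of_lim {n : ℕ} {X : Fin n → ℂ → ℂ} {x0 : Fin n → ℂ}
    (hX : ∀ j, Tendsto (X j) (𝓝[≠] 0) (𝓝 (x0 j))) (hinj : Function.Injective x0) {Z : ℂ[X][X]}
    (hZ : Z.degree < (n : WithBot ℕ)) {k : ℤ}
    (h : ∀ j, ∃ l, Tendsto (fun u => u ^ k * ev2 Z u⁻¹ (X j u / u)) (𝓝[≠] 0) (𝓝 l)) :
    TD k Z := by
  set W : ℂ → ℂ[X] := fun u => C (u ^ k) * (evt u⁻¹ Z).comp (C u⁻¹ * Polynomial.X) with hW
  have hWc : ∀ u i, (W u).coeff i = u ^ k * (((Z.coeff i).eval u⁻¹) * u⁻¹ ^ i) := by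
    intro u i
    rw [hW]
    beta_reduce
    rw [coeff_C_mul, comp_C_mul_X_coeff, evt, coe_mapRingHom, coeff_map, coe_evalRingHom]
  have hWe : ∀ u x, (W u).eval x = u ^ k * ev2 Z u⁻¹ (x / u) := by
    intro u x
    rw [hW]
    beta_reduce
    rw [eval_mul, eval_C, eval_comp, eval_mul, eval_C, eval_X, ev2]
    congr 2
    ring
  have hWd : ∀ u, (W u).degree < (n : WithBot ℕ) := by
    intro u
    rw [degree_lt_iff_coeff_zero] at hZ ⊢
    intro m hm
    rw [hWc, hZ m hm, eval_zero, zero_mul, mul_zero]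
  have h1 : ∀ x : ℂ, ∃ l, Tendsto (fun u => (W u).eval x) (𝓝[≠] 0) (𝓝 l) := fun x =>
    interp_lim hX hinj (Eventually.of_forall hWd) (fun j => by
      obtain ⟨l, hl⟩ := h j
      exact ⟨l, hl.congr fun u => (hWe u _).symm⟩) x
  intro i j hij
  obtain ⟨l, hl⟩ := coeff_lim (Eventually.of_forall hWd) h1 i
  exact pol_gr (hl.congr fun u => hWc u i) j hij

end Pool.Agent.H941.SC
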