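import Pool.Agent.H941.SC.Steps
import Pool.Agent.H941.SC.TD
import Pool.Agent.H941.SC.Lead
import Pool.Agent.H941.SC.Inf
import Pool.Agent.H941.SC.Stage

set_option autoImplicit false
set_option linter.unusedSectionVars false
set_option linter.unusedVariables false

/-! # The end of the proof: vector fields without poles -/

namespace Pool.Agent.H941.SC

open Polynomial Finset Filter Topology Metric Pool.Agent.Helper748.TP Pool.Agent.H941.TF

theorem natDegree_le_pred {A : Type} [CommRing A] {p : A[X]} {n : ℕ} (h : p.natDegree ≤ n + 1)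
    (h0 : p.coeff (n + 1) = 0) : p.natDegree ≤ n := by
  rw [natDegree_le_iff_coeff_eq_zero]
  intro k hk
  rcases (by omega : k = n + 1 ∨ n + 1 < k) with h4 | h4
  · rw [h4, h0]
  · exact coeff_eq_zero_of_natDegree_lt (lt_of_le_of_lt h h4)

theorem TD.natDegree {k : ℕ} {Z : ℂ[X][X]} (h : TD k Z) : Z.natDegree ≤ k := by
  rw [natDegree_le_iff_coeff_eq_zero]
  intro i hi
  ext j
  rw [coeff_zero]
  exact h i j (by omega)

/-- there is no vector field without poles -/
theorem fin_alg {Φ Q h l p1 ρ V Z a6 c6 : ℂ[X][X]} {e N : ℕ} (he : 2 ≤ e) (hN2 : 2 ≤ N)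
    (hΦ : Φ.Monic) (hΦd : Φ.natDegree = e) (hQ : Q.Monic) (hN : Q.natDegree = N)
    (hh : h.natDegree ≤ N - 1) (hhc : h.coeff (N - 1) = -3) (hl : l.natDegree ≤ N - 1)
    (hi : dt h * Q - h * dt Q = derivative l * Q - l * derivative Q)
    (hp : p1.natDegree ≤ N - 2) (hρ : (ρ - V * Q).natDegree ≤ N - 1) (hV : V.natDegree ≤ 1)
    (hZ : TD 3 Z) (E : EE Q h l p1 ρ) (h1 : p1 - (Q * derivative Z + h * Z) = Q * (Φ * a6))
    (h2 : ρ + (Q * dt Z + l * Z) = Q * (Φ * c6)) : False := by
  have hQN : Q.coeff N = 1 := by rw [← hN]; exact hQ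
  have hZ3 : Z.natDegree ≤ 3 := hZ.natDegree
  have hΦc : ∀ w : ℂ[X][X], w ≠ 0 → (Φ * w).natDegree = e + w.natDegree := by
    intro w hw
    rw [hΦ.natDegree_mul' hw, hΦd]
  have hQc : ∀ w : ℂ[X][X], w ≠ 0 → (Q * w).natDegree = N + w.natDegree := by
    intro w hw
    rw [hQ.natDegree_mul' hw, hN]
  have ha6 : a6 = 0 := by
    by_contra ha
    have h3 := deg_op (Q := Q) (g := h) (R := Z) hN.le (by omega) hh hZ3
    have h4 := lead_op (Q := Q) (g := h) (R := Z) hN.le hQN (by omega) hh hhc hZ3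
    have h5 : (Q * derivative Z + h * Z).coeff (N + 1 + 1) = 0 := by
      rw [(by omega : N + 1 + 1 = N - 1 + 3), h4]
      push_cast
      ring
    have h6 := natDegree_le_pred (n := N + 1) (by omega) h5
    have h7 : (Q * (Φ * a6)).natDegree ≤ N + 1 := by
      rw [← h1]
      exact (natDegree_sub_le _ _).trans (max_le (by omega) h6)
    rw [hQc _ (mul_ne_zero hΦ.ne_zero ha), hΦc _ ha] at h7
    omega
  have hρ1 : ρ.natDegree ≤ N + 1 := by
    have h3 : ρ = (ρ - V * Q) + V * Q := by ring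
    rw [h3]
    refine (natDegree_add_le _ _).trans (max_le (by omega) (natDegree_mul_le.trans ?_))
    omega
  have hdt : (dt Z).natDegree ≤ 2 := by
    rw [natDegree_le_iff_coeff_eq_zero]
    intro k hk
    rw [coeff_dt]
    have h3 : Z.coeff k = C ((Z.coeff k).coeff 0) := by
      ext j
      rw [coeff_C]
      split_ifs with h4
      · rw [h4]
      · exact hZ k j (by omega)
    rw [h3, derivative_C]
  have hR : (Q * (Φ * c6)).natDegree ≤ N + 2 := by
    rw [← h2]
    refine (natDegree_add_le _ _).trans (max_le (by omega) ((natDegree_add_le _ _).trans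
      (max_le ?_ ?_)))
    · exact natDegree_mul_le.trans (by omega)
    · exact natDegree_mul_le.trans (by omega)
  have hR2 : (Φ * c6).natDegree ≤ 2 := by
    by_cases h0 : Φ * c6 = 0
    · rw [h0, natDegree_zero]; omega
    · rw [hQc _ h0] at hR
      omega
  have E2 := E.gauge hi Z
  rw [h1, h2, ha6, mul_zero, mul_zero, EE] at E2
  have h3 : Q = Q * derivative (Φ * c6) + h * (Φ * c6) := by
    refine mul_left_cancel₀ hQ.ne_zero ?_
    rw [dt_zero, derivative_mul (f := Q)] at E2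
    linear_combination E2
  have h4 := lead_op (Q := Q) (g := h) (R := Φ * c6) hN.le hQN (by omega) hh hhc hR2
  rw [← h3, coeff_eq_zero_of_natDegree_lt (by omega : Q.natDegree < N - 1 + 2)] at h4
  have h5 : (Φ * c6).coeff (1 + 1) = 0 := by
    push_cast at h4
    linear_combination h4
  have h6 := natDegree_le_pred (n := 1) hR2 h5
  have hc6 : c6 = 0 := by
    by_contra hc
    rw [hΦc _ hc] at h6
    omega
  rw [hc6, mul_zero, derivative_zero, mul_zero, mul_zero, add_zero] at h3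
  exact hQ.ne_zero h3

/-- the logarithmic derivative has bounded degree -/
theorem TDh {N : ℕ} {Q Qi h : ℂ[X][X]} (hi : Inf Q Qi N) (hN1 : 1 ≤ N) {X : Fin N → ℂ → ℂ}
    (hX : ∀ j, AnalyticAt ℂ (X j) 0) (hinj : Function.Injective fun j => X j 0)
    (hh : h.natDegree ≤ N - 1) {b : Fin N → ℝ}
    (hb : ∀ᶠ u in 𝓝[≠] (0 : ℂ), ∀ j, ev2 h u⁻¹ (X j u / u) =
      b j * ev2 (derivative Q) u⁻¹ (X j u / u)) : TD ((N : ℤ) - 1) h := by
  refine TD_of_lim (fun j => (hX j).continuousAt.tendsto.mono_left nhdsWithin_le_nhds) hinj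
    (lt_of_le' hN1 hh) fun j => ⟨_, ((hi.lim' (hX j)).const_mul (b j : ℂ)).congr' ?_⟩
  filter_upwards [hb] with u hu
  rw [hu j]
  ring

theorem TD_VV {N : ℕ} {Q h : ℂ[X][X]} (hN : 2 ≤ N) (hQ : TD N Q) (hh : TD ((N : ℤ) - 1) h) :
    TD 1 (VV N Q h) := by
  intro i j hij
  rw [VV, coeff_sub, coeff_C_mul, coeff_C, coeff_X, coeff_sub]
  have h1 : (C (1 / 2 : ℂ) * (if 1 = i then (1 : ℂ[X]) else 0)).coeff j = 0 := by
    split_ifs with h2
    · rw [mul_one, coeff_C, if_neg (by omega)]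
    · rw [mul_zero, coeff_zero]
  rw [h1, sub_zero]
  split_ifs with h2
  · rw [coeff_sub, coeff_neg, coeff_C_mul, coeff_C_mul, hQ (N - 1) j (by omega),
      hh (N - 2) j (by omega)]
    ring
  · rw [coeff_zero]

theorem natDegree_VV (N : ℕ) (Q h : ℂ[X][X]) : (VV N Q h).natDegree ≤ 1 := by
  refine (natDegree_sub_le _ _).trans (max_le ?_ ?_)
  · rw [natDegree_C]; omega
  · exact (natDegree_C_mul_le _ _).trans natDegree_X_le

end Pool.Agent.H941.SC
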