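import Pool.Agent.H941.SC.Null
import Pool.Agent.H941.TF.Stage
import Pool.Agent.H941.TF.Par

set_option autoImplicit false
set_option linter.unusedSectionVars false
set_option linter.unusedVariables false

/-! # Gauge transformations -/

namespace Pool.Agent.H941.SC

open Polynomial Pool.Agent.Helper748.TP Pool.Agent.H941.TF

/-- the equation `div v = 1` -/
def EE (Q h l a c : ℂ[X][X]) : Prop :=
  Q ^ 2 = Q * (dt a + derivative c) + (l - dt Q) * a + (h - derivative Q) * c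

theorem EE.gauge {Q h l a c : ℂ[X][X]}
    (hi : dt h * Q - h * dt Q = derivative l * Q - l * derivative Q) (E : EE Q h l a c)
    (Z : ℂ[X][X]) : EE Q h l (a - (Q * derivative Z + h * Z)) (c + (Q * dt Z + l * Z)) := by
  rw [EE] at E ⊢
  rw [dt_sub, dt_add, dt_mul, dt_mul, derivative_add, derivative_add, derivative_mul,
    derivative_mul, dt_der]
  linear_combination E + Z * hi

/-- a curve `Φ = 0` and a curve `G = 0` which is transversal to it -/
structure Cv (Φ G hx ht γ : ℂ[X][X]) (B : Finset ℂ) : Prop where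
  Φm : Φ.Monic
  Gm : G.Monic
  sep : ∀ t ∉ B, (evt t (Φ * G)).Separable
  smooth : ∀ t x, ev2 Φ t x = 0 → ev2 (dt Φ) t x = 0 → ev2 (derivative Φ) t x ≠ 0
  trans : ∀ t x, ev2 Φ t x = 0 → ev2 G t x = 0 →
    ev2 (dt Φ) t x * ev2 (derivative G) t x - ev2 (derivative Φ) t x * ev2 (dt G) t x ≠ 0
  γ0 : γ ≠ 0
  dvd : G ∣ γ
  dvd' : ∃ k, γ ∣ G ^ k
  hxE : derivative γ * G = γ * hx
  htE : dt γ * G = γ * ht

theorem der_evx (P : ℂ[X][X]) (x : ℂ) : derivative (P.eval (C x)) = (dt P).eval (C x) := by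
  induction P using Polynomial.induction_on' with
  | add P Q hP hQ => rw [eval_add, derivative_add, hP, hQ, dt_add, eval_add]
  | monomial n c =>
    rw [eval_monomial, dt_monomial, eval_monomial, derivative_mul, ← C_pow, derivative_C,
      mul_zero, add_zero]

theorem eval_evx (P : ℂ[X][X]) (t x : ℂ) : (P.eval (C x)).eval t = ev2 P t x := by
  rw [ev2, evt, coe_mapRingHom, map_evalRingHom_eval]

section
variable {Φ G hx ht γ : ℂ[X][X]} {B : Finset ℂ}

/-- the multiplicity at a smooth point -/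
theorem Cv.kap (C : Cv Φ G hx ht γ B) {t x : ℂ} (h0 : ev2 G t x = 0)
    (hne : ev2 (dt G) t x ≠ 0 ∨ ev2 (derivative G) t x ≠ 0) :
    ∃ n : ℕ, 1 ≤ n ∧ ev2 hx t x = n * ev2 (derivative G) t x ∧
      ev2 ht t x = n * ev2 (dt G) t x := by
  have hpar : ev2 hx t x * ev2 (dt G) t x = ev2 ht t x * ev2 (derivative G) t x := by
    have h1 := congrArg (fun P => ev2 P t x) (integ 1 C.γ0 C.hxE C.htE)
    beta_reduce at h1
    rw [kc_one, one_mul, one_mul, ev2_sub, ev2_sub, ev2_mul, ev2_mul, ev2_mul, ev2_mul, h0] at h1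
    linear_combination -h1
  obtain ⟨k, hk⟩ := C.dvd'
  by_cases hx0 : ev2 (derivative G) t x = 0
  · have ht0 : ev2 (dt G) t x ≠ 0 := hne.resolve_right (fun h => h hx0)
    have e1 : derivative (γ.eval (Polynomial.C x)) * G.eval (Polynomial.C x) =
        γ.eval (Polynomial.C x) * ht.eval (Polynomial.C x) := by
      rw [der_evx, ← eval_mul, C.htE, eval_mul]
    have hG0 : G.eval (Polynomial.C x) ≠ 0 := by
      intro h
      apply ht0
      rw [← eval_evx, ← der_evx, h, derivative_zero, eval_zero]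
    have hγ0 : γ.eval (Polynomial.C x) ≠ 0 := by
      intro h
      obtain ⟨w, hw⟩ := hk
      have h1 := congrArg (eval (Polynomial.C x)) hw
      rw [eval_mul, h, zero_mul, eval_pow] at h1
      exact pow_ne_zero k hG0 h1
    have h2 := mult_val hγ0 e1 (c := t) (by rw [eval_evx]; exact h0)
    rw [eval_evx, der_evx, eval_evx] at h2
    refine ⟨_, ?_, ?_, h2⟩
    · rw [Nat.succ_le_iff, rootMultiplicity_pos hγ0]
      obtain ⟨w, hw⟩ := C.dvd
      rw [hw, eval_mul, IsRoot, eval_mul, eval_evx, h0, zero_mul]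
    · rw [hx0, mul_zero]
      rw [hx0, mul_zero] at hpar
      exact (mul_eq_zero.1 hpar).resolve_right ht0
  · have hGm : (evt t G).Monic := by
      rw [evt, coe_mapRingHom]
      exact C.Gm.map _
    have e1 : derivative (evt t γ) * evt t G = evt t γ * evt t hx := by
      rw [← evt_der, ← map_mul, C.hxE, map_mul]
    have hγ0 : evt t γ ≠ 0 := by
      intro h
      obtain ⟨w, hw⟩ := hk
      have h1 := congrArg (evt t) hw
      rw [map_mul, h, zero_mul, map_pow] at h1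
      exact pow_ne_zero k hGm.ne_zero h1
    have h2 := mult_val hγ0 e1 (c := x) h0
    have h3 : ev2 hx t x = ((evt t γ).rootMultiplicity x : ℂ) * ev2 (derivative G) t x := by
      rw [ev2, h2, ev2, evt_der]
    refine ⟨_, ?_, h3, ?_⟩
    · rw [Nat.succ_le_iff, rootMultiplicity_pos hγ0]
      obtain ⟨w, hw⟩ := C.dvd
      rw [hw, map_mul, IsRoot, eval_mul]
      have : (evt t G).eval x = 0 := h0
      rw [this, zero_mul]
    · refine mul_right_cancel₀ hx0 ?_
      rw [← hpar, h3]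
      ring

theorem sep_ne {P : ℂ[X]} {R : ℂ[X]} (h : (P * R).Separable) {x : ℂ} (h0 : P.eval x = 0) :
    R.eval x ≠ 0 := by
  obtain ⟨a, b, hab⟩ := h.isCoprime
  intro h1
  have h2 := congrArg (eval x) hab
  rw [eval_add, eval_mul, eval_mul, h0, h1, mul_zero, mul_zero, add_zero, eval_one] at h2
  exact zero_ne_one h2

theorem Cv.ne (C : Cv Φ G hx ht γ B) {t x : ℂ} (ht : t ∉ B) (h0 : ev2 Φ t x = 0) :
    ev2 G t x ≠ 0 := by
  have h1 := C.sep t ht
  rw [map_mul] at h1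
  exact sep_ne h1 h0

theorem Cv.ne' (C : Cv Φ G hx ht γ B) {t x : ℂ} (ht : t ∉ B) (h0 : ev2 G t x = 0) :
    ev2 Φ t x ≠ 0 := fun h => C.ne ht h h0

theorem Cv.sepΦ (C : Cv Φ G hx ht γ B) {t : ℂ} (ht : t ∉ B) : (evt t Φ).Separable := by
  have h1 := C.sep t ht
  rw [map_mul] at h1
  exact h1.of_mul_left

theorem Cv.sepG (C : Cv Φ G hx ht γ B) {t : ℂ} (ht : t ∉ B) : (evt t G).Separable := by
  have h1 := C.sep t ht
  rw [map_mul] at h1
  exact h1.of_mul_right

theorem Cv.canΦ (C : Cv Φ G hx ht γ B) {W : ℂ[X][X]} (h : Φ ∣ G * W) : Φ ∣ W := by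
  refine dvd_of_ev C.Φm (B := B) fun t ht => ⟨C.sepΦ ht, fun x h0 => ?_⟩
  obtain ⟨w, hw⟩ := h
  have h1 := congrArg (fun P => ev2 P t x) hw
  beta_reduce at h1
  rw [ev2_mul, ev2_mul, h0, zero_mul] at h1
  exact (mul_eq_zero.1 h1).resolve_left (C.ne ht h0)

theorem Cv.canG (C : Cv Φ G hx ht γ B) {W : ℂ[X][X]} (h : G ∣ Φ * W) : G ∣ W := by
  refine dvd_of_ev C.Gm (B := B) fun t ht => ⟨C.sepG ht, fun x h0 => ?_⟩
  obtain ⟨w, hw⟩ := h
  have h1 := congrArg (fun P => ev2 P t x) hw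
  beta_reduce at h1
  rw [ev2_mul, ev2_mul, h0, zero_mul] at h1
  exact (mul_eq_zero.1 h1).resolve_left (C.ne' ht h0)

theorem kc_cancel {Φ W : ℂ[X][X]} {c : ℂ} (hc : c ≠ 0) (h : Φ ∣ kc c * W) : Φ ∣ W := by
  obtain ⟨w, hw⟩ := h
  refine ⟨kc c⁻¹ * w, ?_⟩
  have h1 : (kc c⁻¹ * kc c : ℂ[X][X]) = 1 := by rw [← kc_mul, inv_mul_cancel₀ hc, kc_one]
  linear_combination (-W) * h1 + kc c⁻¹ * hw

theorem ev2_dvd {Φ W : ℂ[X][X]} (h : Φ ∣ W) {t x : ℂ} (h0 : ev2 Φ t x = 0) : ev2 W t x = 0 := by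
  obtain ⟨w, rfl⟩ := h
  rw [ev2_mul, h0, zero_mul]

variable {σ β : ℝ}

/-- the value at a transversal intersection -/
theorem Cv.vanq (C : Cv Φ G hx ht γ B) (hσ : σ < 0) {a c : ℂ[X][X]} {t x : ℂ}
    (hΦ : ev2 Φ t x = 0) (hG : ev2 G t x = 0)
    (h1 : ev2 (dt Φ * a + derivative Φ * c) t x = 0)
    (h2 : G ∣ (kc (σ : ℂ) * ht - dt G) * a + (kc (σ : ℂ) * hx - derivative G) * c) :
    ev2 a t x = 0 ∧ ev2 c t x = 0 := by
  have hJ := C.trans t x hΦ hG
  obtain ⟨n, hn, e1, e2⟩ := C.kap hG (by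
    by_contra hcon
    push Not at hcon
    apply hJ
    rw [hcon.1, hcon.2]
    ring)
  have h3 := ev2_dvd h2 hG
  rw [ev2_add, ev2_mul, ev2_mul, ev2_sub, ev2_sub, ev2_mul, ev2_mul, ev2_kc, e1, e2] at h3
  rw [ev2_add, ev2_mul, ev2_mul] at h1
  have h4 : (σ * n - 1 : ℂ) ≠ 0 := by
    intro h
    have h5 : ((σ * n - 1 : ℝ) : ℂ) = 0 := by
      push_cast
      exact h
    have h6 : (σ * n - 1 : ℝ) = 0 := by exact_mod_cast h5
    have h7 : (1 : ℝ) ≤ n := by exact_mod_cast hn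
    nlinarith
  have h5 : ev2 (dt G) t x * ev2 a t x + ev2 (derivative G) t x * ev2 c t x = 0 := by
    refine (mul_eq_zero.1 ?_).resolve_left h4
    linear_combination h3
  constructor
  · refine (mul_eq_zero.1 ?_).resolve_left hJ
    linear_combination ev2 (derivative G) t x * h1 - ev2 (derivative Φ) t x * h5
  · refine (mul_eq_zero.1 ?_).resolve_left hJ
    linear_combination ev2 (dt Φ) t x * h5 - ev2 (dt G) t x * h1

/-- a vector field tangent to `Φ = 0` which vanishes at the intersections -/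
theorem Cv.dir (C : Cv Φ G hx ht γ B) {a c : ℂ[X][X]} (h1 : Φ ∣ dt Φ * a + derivative Φ * c)
    (h2 : ∀ t x, ev2 Φ t x = 0 → ev2 G t x = 0 → ev2 a t x = 0 ∧ ev2 c t x = 0) :
    ∃ W : ℂ[X][X], W.degree < Φ.degree ∧ Φ ∣ a - derivative Φ * G * W ∧
      Φ ∣ c + dt Φ * G * W := by
  obtain ⟨α, β, κ, hu⟩ := smooth_unit C.smooth
  obtain ⟨A1, A2, hA⟩ := rad (F := α * a - β * c) C.trans (fun t x e1 e2 => by
    obtain ⟨e3, e4⟩ := h2 t x e1 e2
    rw [ev2_sub, ev2_mul, ev2_mul, e3, e4]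
    ring)
  obtain ⟨w, hw⟩ := h1
  refine ⟨A2 %ₘ Φ, degree_modByMonic_lt _ C.Φm, ?_, ?_⟩
  · refine ⟨β * w + κ * a + derivative Φ * A1 + derivative Φ * G * (A2 /ₘ Φ), ?_⟩
    have h3 := modByMonic_add_div A2 Φ
    linear_combination (-a) * hu + β * hw + derivative Φ * hA + (-(derivative Φ * G)) * h3
  · refine ⟨α * w + κ * c - dt Φ * A1 - dt Φ * G * (A2 /ₘ Φ), ?_⟩
    have h3 := modByMonic_add_div A2 Φ
    linear_combination (-c) * hu + α * hw - dt Φ * hA + (dt Φ * G) * h3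

end

end Pool.Agent.H941.SC
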