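import Pool.Agent.H941.TF.Stage
import Pool.Agent.H941.SC.Lead

set_option autoImplicit false
set_option linter.unusedSectionVars false
set_option linter.unusedVariables false

/-! # The normal form of the primitive, without a special line -/

namespace Pool.Agent.H941.SC

open Polynomial Pool.Agent.Helper748.TP Pool.Agent.H941.TF

theorem ee_zero (s : ℂ) : ee (s * ((0 : ℕ) : ℂ)) = 0 := by
  rw [ee, Nat.cast_zero, mul_zero, C_0, map_zero, zero_mul]

theorem natDegree_La_le (a : ℕ) (q : ℂ[X][X]) : (La a q).natDegree ≤ q.natDegree :=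
  (natDegree_C_mul_le _ _).trans natDegree_map_le

theorem lt_of_le' {A : Type} [CommRing A] {p : A[X]} {N : ℕ} (hN : 1 ≤ N)
    (h : p.natDegree ≤ N - 1) : p.degree < (N : WithBot ℕ) := by
  refine lt_of_le_of_lt degree_le_natDegree ?_
  have : p.natDegree < N := by omega
  exact_mod_cast this

theorem PP_nat {Q P w : Kt[X]} {N n : ℕ} (hN : Q.natDegree = N) (hN1 : 1 ≤ N) (hP : PP Q 1 P w)
    (hw : w.natDegree ≤ n) : P.natDegree ≤ N + n := by
  obtain ⟨r, h1, h2⟩ := hP
  rw [h1, pow_one]
  rw [one_mul, hN] at h2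
  have h3 : r.natDegree ≤ N := natDegree_le_of_degree_le h2.le
  refine (natDegree_add_le _ _).trans (max_le (natDegree_mul_le.trans ?_) (by omega))
  omega

/-- kill one coefficient -/
theorem kill {Q h l P R : Kt[X]} {N n : ℕ}
    (hi : dk h * Q - h * dk Q = derivative l * Q - l * derivative Q) (hQ : Q.Monic)
    (hN : Q.natDegree = N) (hN2 : 2 ≤ N) (hh : h.natDegree ≤ N - 1) (hhc : h.coeff (N - 1) = -3)
    (hl : l.natDegree ≤ N - 1) (hn : n ≤ 2) (hC : Cl Q h l 0 1 P R)
    (hP : P.natDegree ≤ N - 1 + n) (hR : R.natDegree ≤ N + 2) :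
    ∃ P' R' : Kt[X], Cl Q h l 0 1 P' R' ∧ P'.natDegree ≤ N - 2 + n ∧ R'.natDegree ≤ N + 2 := by
  have : CharZero Kt := charZero_of_injective_algebraMap (R := ℂ[X]) io_inj
  have hn3 : (n : Kt) + (-3) ≠ 0 := by
    intro h0
    have h1 : (n : Kt) = (3 : ℕ) := by
      push_cast
      linear_combination h0
    have := Nat.cast_injective h1
    omega
  set z : Kt := P.coeff (N - 1 + n) / ((n : Kt) + (-3)) with hz
  set Z : Kt[X] := C z * X ^ n with hZ
  have hZn : Z.natDegree ≤ n := natDegree_C_mul_X_pow_le _ _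
  have hZc : Z.coeff n = z := by rw [hZ, coeff_C_mul, coeff_X_pow, if_pos rfl, mul_one]
  have hgx : gx Q h 0 Z = Q * derivative Z + h * Z := by
    rw [gx, Nat.cast_zero]; ring
  have hgt : gt Q l 0 0 Z = Q * dk Z + l * Z := by
    rw [gt, Nat.cast_zero, C_0]; ring
  have h1 := hC.gauge (m := 0) hi Z
  refine ⟨_, _, h1, ?_, ?_⟩
  · rw [hgx]
    have h2 := deg_op (Q := Q) (g := h) (R := Z) hN.le (by omega) hh hZn
    have h3 := lead_op (Q := Q) (g := h) (R := Z) hN.le (by rw [← hN]; exact hQ) (by omega) hh hhc hZn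
    rw [hZc] at h3
    rw [natDegree_le_iff_coeff_eq_zero]
    intro k hk
    rcases (by omega : k = N - 1 + n ∨ N - 1 + n < k) with h4 | h4
    · rw [h4, coeff_sub, h3, hz]
      field_simp
      ring
    · rw [coeff_sub, coeff_eq_zero_of_natDegree_lt (lt_of_le_of_lt hP h4),
        coeff_eq_zero_of_natDegree_lt (lt_of_le_of_lt h2 h4), sub_zero]
  · rw [hgt]
    refine (natDegree_add_le _ _).trans (max_le hR ((natDegree_add_le _ _).trans (max_le ?_ ?_)))
    · have := natDegree_dk_le Z
      exact natDegree_mul_le.trans (by omega)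
    · exact natDegree_mul_le.trans (by omega)

/-- kill three coefficients -/
theorem nf1 {Q h l P R : Kt[X]} {N : ℕ}
    (hi : dk h * Q - h * dk Q = derivative l * Q - l * derivative Q) (hQ : Q.Monic)
    (hN : Q.natDegree = N) (hN2 : 2 ≤ N) (hh : h.natDegree ≤ N - 1) (hhc : h.coeff (N - 1) = -3)
    (hl : l.natDegree ≤ N - 1) (hC : Cl Q h l 0 1 P R)
    (hP : P.natDegree ≤ N + 1) (hR : R.natDegree ≤ N + 2) :
    ∃ P' R' : Kt[X], Cl Q h l 0 1 P' R' ∧ P'.natDegree ≤ N - 2 ∧ R'.natDegree ≤ N + 2 := by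
  obtain ⟨P1, R1, a1, b1, c1⟩ := kill (n := 2) hi hQ hN hN2 hh hhc hl le_rfl hC (by omega) hR
  obtain ⟨P2, R2, a2, b2, c2⟩ := kill (n := 1) hi hQ hN hN2 hh hhc hl (by omega) a1 (by omega) c1
  obtain ⟨P3, R3, a3, b3, c3⟩ := kill (n := 0) hi hQ hN hN2 hh hhc hl (by omega) a2 (by omega) c2
  exact ⟨P3, R3, a3, b3, c3⟩

/-- the polynomial part of `R / Q` -/
theorem nf2 {Q h l P R : Kt[X]} {N : ℕ} (hQ : Q.Monic)
    (hN : Q.natDegree = N) (hN2 : 2 ≤ N) (hh : h.natDegree ≤ N - 1) (hhc : h.coeff (N - 1) = -3)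
    (hl : l.natDegree ≤ N - 1) (hC : Cl Q h l 0 1 P R)
    (hP : P.natDegree ≤ N - 2) (hR : R.natDegree ≤ N + 2) :
    ∃ r : Kt[X], R = (C (-(Q.coeff (N - 1)) / 2 - h.coeff (N - 2) / 6) - C (1 / 2) * X) * Q + r ∧
      r.natDegree ≤ N - 1 := by
  have : CharZero Kt := charZero_of_injective_algebraMap (R := ℂ[X]) io_inj
  have hQN : Q.coeff N = 1 := by rw [← hN]; exact hQ
  set g : Kt[X] := h - derivative Q with hg
  set A : Kt[X] := Q * dk P + (l - dk Q) * P with hA
  have hdQ : (dk Q).natDegree ≤ N := by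
    have := natDegree_dk_le Q
    omega
  have hdQ' : (dk Q).natDegree ≤ N - 1 := by
    rw [natDegree_le_iff_coeff_eq_zero]
    intro k hk
    rcases (by omega : k = N ∨ N < k) with h4 | h4
    · rw [h4, coeff_dk, hQN, D_one]
    · exact coeff_eq_zero_of_natDegree_lt (lt_of_le_of_lt hdQ h4)
  have hQ' := natDegree_derivative_le Q
  have hg1 : g.natDegree ≤ N - 1 := (natDegree_sub_le _ _).trans (max_le hh (by omega))
  have hgc : g.coeff (N - 1) = -3 - N := by
    rw [hg, coeff_sub, hhc, coeff_derivative, (by omega : N - 1 + 1 = N), hQN]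
    have : ((N - 1 : ℕ) : Kt) + 1 = N := by
      rw [← Nat.cast_succ]
      congr 1
      omega
    rw [this]
    ring
  have hA1 : A.natDegree ≤ 2 * N - 2 := by
    have h1 := natDegree_dk_le P
    refine (natDegree_add_le _ _).trans (max_le (natDegree_mul_le.trans (by omega))
      (natDegree_mul_le.trans ?_))
    have h2 : (l - dk Q).natDegree ≤ N - 1 := (natDegree_sub_le _ _).trans (max_le hl hdQ')
    omega
  have hEq : Q * Q = A + (Q * derivative R + g * R) := by
    rw [Cl, C_0] at hC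
    push_cast at hC
    rw [hA, hg]
    linear_combination hC
  -- the leading coefficients
  have hQQ : (Q * Q).natDegree ≤ 2 * N := natDegree_mul_le.trans (by omega)
  have c2 : R.coeff (N + 2) = 0 := by
    have h1 := lead_op (Q := Q) (g := g) (R := R) hN.le hQN (by omega) hg1 hgc hR
    have h2 := congrArg (fun p => coeff p (N - 1 + (N + 2))) hEq
    beta_reduce at h2
    rw [coeff_add, h1, coeff_eq_zero_of_natDegree_lt (by omega : A.natDegree < _),
      coeff_eq_zero_of_natDegree_lt (by omega : (Q * Q).natDegree < _)] at h2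
    push_cast at h2
    linear_combination h2
  have hR1 : R.natDegree ≤ N + 1 := by
    rw [natDegree_le_iff_coeff_eq_zero]
    intro k hk
    rcases (by omega : k = N + 2 ∨ N + 2 < k) with h4 | h4
    · rw [h4, c2]
    · exact coeff_eq_zero_of_natDegree_lt (lt_of_le_of_lt hR h4)
  have c1 : R.coeff (N + 1) = -1 / 2 := by
    have h1 := lead_op (Q := Q) (g := g) (R := R) hN.le hQN (by omega) hg1 hgc hR1
    have h2 := congrArg (fun p => coeff p (N - 1 + (N + 1))) hEq
    beta_reduce at h2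
    have h3 : N - 1 + (N + 1) = N + N := by omega
    rw [coeff_add, h1, coeff_eq_zero_of_natDegree_lt (by omega : A.natDegree < _), h3,
      coeff_mul_add_eq_of_natDegree_le hN.le hN.le, hQN] at h2
    push_cast at h2
    linear_combination (1 / 2 : Kt) * h2
  set v : Kt := R.coeff N + Q.coeff (N - 1) / 2 with hv
  set V : Kt[X] := C v - C (1 / 2) * X with hV
  set r : Kt[X] := R - V * Q with hr
  have hVQ : ∀ k, (V * Q).coeff (k + 1) = v * Q.coeff (k + 1) - 1 / 2 * Q.coeff k := by
    intro k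
    rw [hV, sub_mul, coeff_sub, coeff_C_mul, mul_assoc, coeff_C_mul, coeff_X_mul]
  have hr1 : r.natDegree ≤ N - 1 := by
    rw [natDegree_le_iff_coeff_eq_zero]
    intro k hk
    obtain ⟨j, rfl⟩ : ∃ j, k = j + 1 := ⟨k - 1, by omega⟩
    rw [hr, coeff_sub, hVQ]
    rcases (by omega : j + 1 = N ∨ j = N ∨ N < j) with h4 | h4 | h4
    · have h5 : j = N - 1 := by omega
      rw [h4, h5, hQN, hv]
      ring
    · rw [h4, c1, coeff_eq_zero_of_natDegree_lt (by omega : Q.natDegree < N + 1), hQN]
      ring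
    · rw [coeff_eq_zero_of_natDegree_lt (by omega : R.natDegree < j + 1),
        coeff_eq_zero_of_natDegree_lt (by omega : Q.natDegree < j + 1),
        coeff_eq_zero_of_natDegree_lt (by omega : Q.natDegree < j)]
      ring
  have hVd : derivative V = -C (1 / 2) := by
    rw [hV, derivative_sub, derivative_C, derivative_C_mul, derivative_X]
    ring
  have h32 : (C (3 / 2) : Kt[X]) = 1 + C (1 / 2) := by
    rw [← C_1, ← C_add]
    congr 1
    ring
  set W : Kt[X] := C (3 / 2) * Q - h * V with hW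
  have hQW : Q * W = A + (Q * derivative r + g * r) := by
    have hRr : R = V * Q + r := by rw [hr]; ring
    rw [hRr, derivative_add, derivative_mul, hVd] at hEq
    rw [hW, h32]
    rw [hg] at hEq ⊢
    linear_combination hEq
  have hQW1 : (Q * W).natDegree ≤ 2 * N - 2 := by
    rw [hQW]
    refine (natDegree_add_le _ _).trans (max_le hA1 ?_)
    exact (deg_op hN.le (by omega) hg1 hr1).trans (by omega)
  have hV1 : V.natDegree ≤ 1 := by
    refine (natDegree_sub_le _ _).trans (max_le ?_ ?_)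
    · rw [natDegree_C]; omega
    · exact (natDegree_C_mul_le _ _).trans natDegree_X_le
  have hVc1 : V.coeff 1 = -(1 / 2) := by
    rw [hV, coeff_sub, coeff_C_mul, coeff_X_one, coeff_C, if_neg one_ne_zero]
    ring
  have hVc0 : V.coeff 0 = v := by
    rw [hV, coeff_sub, coeff_C_mul, coeff_X_zero, coeff_C_zero]
    ring
  have hW1 : W.natDegree ≤ N - 1 := by
    rw [natDegree_le_iff_coeff_eq_zero]
    intro k hk
    have h5 : (h * V).natDegree ≤ N := natDegree_mul_le.trans (by omega)
    rw [hW, coeff_sub, coeff_C_mul]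
    rcases (by omega : k = N ∨ N < k) with h4 | h4
    · have h6 : N - 1 + 1 = N := by omega
      have h7 := coeff_mul_add_eq_of_natDegree_le hh hV1
      rw [h6, hhc, hVc1] at h7
      rw [h4, hQN, h7]
      ring
    · rw [coeff_eq_zero_of_natDegree_lt (lt_of_le_of_lt h5 h4),
        coeff_eq_zero_of_natDegree_lt (by omega : Q.natDegree < k)]
      ring
  have hW0 : W.coeff (N - 1) = 0 := by
    have h1 := coeff_mul_add_eq_of_natDegree_le hN.le hW1
    rw [coeff_eq_zero_of_natDegree_lt (by omega : (Q * W).natDegree < _), hQN, one_mul] at h1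
    exact h1.symm
  have hhV : (h * V).coeff (N - 1) = -3 * v - 1 / 2 * h.coeff (N - 2) := by
    have h6 : N - 1 = (N - 2) + 1 := by omega
    rw [hV, mul_sub, coeff_sub, mul_comm h (C v), coeff_C_mul, hhc,
      show h * (C (1 / 2) * X) = C (1 / 2) * (h * X) by ring, coeff_C_mul, h6, coeff_mul_X]
    ring
  rw [hW, coeff_sub, coeff_C_mul, hhV] at hW0
  have hvv : v = -(Q.coeff (N - 1)) / 2 - h.coeff (N - 2) / 6 := by
    linear_combination (1 / 3 : Kt) * hW0
  refine ⟨r, ?_, hr1⟩
  rw [← hvv, hr]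
  ring

end Pool.Agent.H941.SC
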