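import Pool.Agent.H941.SC.Stage
import Pool.Agent.H941.TF.Lim

set_option autoImplicit false
set_option linter.unusedSectionVars false
set_option linter.unusedVariables false

/-! # The differential system of the residues -/

namespace Pool.Agent.H941.SC

open Polynomial Finset Filter Topology Pool.Agent.Helper748.TP Pool.Agent.H941.TF

/-- The differential equation along a family of roots. -/
theorem Dat.ode {N : ℕ} {Qp γ hx ht V : ℂ[X][X]} {s : ℂ} {d : ℂ[X]} {p r q : ℂ[X][X]}
    (D : Dat N Qp γ hx ht s V d p r q) (hN2 : 2 ≤ N) {T : ℂ → ℂ} {a : Fin N → ℂ → ℂ} {T' u : ℂ}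
    {a' b : Fin N → ℂ} (hT : HasDerivAt T T' u) (ha : ∀ j, HasDerivAt (a j) (a' j) u)
    (hroot : ∀ᶠ v in 𝓝 u, evt (T v) Qp = nod fun j => a j v)
    (hinj : Function.Injective fun j => a j u) (hd : d.eval (T u) ≠ 0)
    (hb : ∀ᶠ v in 𝓝 u, ∀ j, ev2 (kc s * hx) (T v) (a j v) = b j * ev2 (derivative Qp) (T v) (a j v))
    (hb0 : ∀ j, b j ≠ 0) (hb1 : ∀ j, b j ≠ 1) (j : Fin N) :
    deriv (fun v => yy s hx d p (T v) (a j v)) u +
      ∑ i ∈ univ.erase j, b i * (yy s hx d p (T u) (a j u) - yy s hx d p (T u) (a i u)) *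
        ((a' j - a' i) / (a j u - a i u)) = -(T' * ev2 V (T u) (a j u)) := by
  have hru := hroot.self_of_nhds
  have hbu := hb.self_of_nhds
  set t := T u with ht'
  set x : Fin N → ℂ := fun j => a j u with hxdef
  have hq0 : ∀ i, ev2 (derivative Qp) t (x i) ≠ 0 := by
    intro i
    rw [ev2, evt_der, hru]
    exact der_nod_ne hinj i
  have hQ0 : ∀ i, ev2 Qp t (x i) = 0 := by
    intro i
    rw [ev2, hru]
    exact eval_nod i
  have hQt : ∀ i, T' * ev2 (dt Qp) t (x i) = -(a' i * ev2 (derivative Qp) t (x i)) := by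
    intro i
    have h1 := (hasDerivAt_ev2 Qp hT (ha i)).deriv
    have h2 : (fun v => ev2 Qp (T v) (a i v)) =ᶠ[𝓝 u] fun _ => 0 := by
      filter_upwards [hroot] with v hv
      rw [ev2, hv]
      exact eval_nod (x := fun j => a j v) i
    rw [h2.deriv_eq, deriv_const] at h1
    linear_combination -h1
  have hlb : ∀ i, ev2 (kc s * ht) t (x i) = b i * ev2 (dt Qp) t (x i) := by
    intro i
    have h1 := congrArg (fun P => ev2 P t (x i)) (integ s D.γ0 D.hxE D.htE)
    have h2 : ∀ P P' : ℂ[X][X], ev2 (P - P') t (x i) = ev2 P t (x i) - ev2 P' t (x i) :=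
      fun P P' => by rw [ev2, map_sub, eval_sub]; rfl
    beta_reduce at h1
    rw [h2, h2, ev2_mul _ Qp, ev2_mul _ Qp, ev2_mul _ (dt Qp), ev2_mul _ (derivative Qp), hQ0] at h1
    have h3 : ev2 (kc s * hx) t (x i) = b i * ev2 (derivative Qp) t (x i) := hbu i
    rw [h3] at h1
    refine mul_right_cancel₀ (hq0 i) ?_
    linear_combination h1
  -- the derivative of `y`
  have hnum : HasDerivAt (fun v => ev2 p (T v) (a j v) / d.eval (T v))
      (((T' * ev2 (dt p) t (x j) + a' j * ev2 (derivative p) t (x j)) * d.eval t -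
        ev2 p t (x j) * ((derivative d).eval t * T')) / d.eval t ^ 2) u := by
    have h1 := hasDerivAt_ev2 p hT (ha j)
    have h2 : HasDerivAt (fun v => d.eval (T v)) ((derivative d).eval t * T') u :=
      (d.hasDerivAt t).comp u hT
    exact h1.fun_div h2 hd
  have hden := hasDerivAt_ev2 (derivative Qp) hT (ha j)
  have hyd : deriv (fun v => yy s hx d p (T v) (a j v)) u =
      ((((T' * ev2 (dt p) t (x j) + a' j * ev2 (derivative p) t (x j)) * d.eval t -
        ev2 p t (x j) * ((derivative d).eval t * T')) / d.eval t ^ 2) *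
          (b j * ev2 (derivative Qp) t (x j)) - (ev2 p t (x j) / d.eval t) *
          (b j * (T' * ev2 (dt (derivative Qp)) t (x j) +
            a' j * ev2 (derivative (derivative Qp)) t (x j)))) /
            (b j * ev2 (derivative Qp) t (x j)) ^ 2 := by
    have h1 := (hnum.fun_div (hden.const_mul (b j)) (mul_ne_zero (hb0 j) (hq0 j))).deriv
    rw [← h1]
    apply EventuallyEq.deriv_eq
    filter_upwards [hb] with v hv
    rw [yy, hv j, div_div]
  have hyv : ∀ i, yy s hx d p t (x i) = ev2 p t (x i) / d.eval t /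
      (b i * ev2 (derivative Qp) t (x i)) := by
    intro i
    rw [yy, hbu i, div_div]
  have hpd : (C (d.eval t)⁻¹ * evt t p).degree < (N : WithBot ℕ) :=
    lt_of_le_of_lt (degC_mul _ _) (evt_deg (lt_of_le' (by omega) (D.pd.trans (by omega))) t)
  have key := point (N := N) (x := x) (x' := a') hinj (Q := evt t Qp) (Qt := evt t (dt Qp))
    (P := C (d.eval t)⁻¹ * evt t p)
    (Pt := C ((d.eval t)⁻¹ ^ 2) * (C (d.eval t) * evt t (dt p) - C ((derivative d).eval t) * evt t p)
      + evt t Qp * evt t (derivative V) + evt t (kc s * hx) * evt t V)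
    (R := C (d.eval t)⁻¹ * evt t q) (h := evt t (kc s * hx)) (l := evt t (kc s * ht))
    (rP := C (d.eval t)⁻¹ * evt t p) (E := 0) (T' := T') (w := 0) (b := b)
    (y := fun i => yy s hx d p t (x i)) hru ?_ ?_ ?_ ?_ ?_ ?_ hpd ?_ ?_ ?_ hb0 hb1 j
  · rw [mul_zero, mul_zero, zero_mul, add_zero] at key
    have hq := hq0 j
    have hbj := hb0 j
    have c1 : (evt t (dt Qp)).eval (x j) = ev2 (dt Qp) t (x j) := rfl
    have c2 : (derivative (evt t Qp)).eval (x j) = ev2 (derivative Qp) t (x j) := by
      rw [ev2, evt_der]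
    have c3 : (derivative (evt t (dt Qp))).eval (x j) = ev2 (dt (derivative Qp)) t (x j) := by
      rw [ev2, dt_der, evt_der]
    have c4 : (derivative (derivative (evt t Qp))).eval (x j) =
        ev2 (derivative (derivative Qp)) t (x j) := by
      rw [ev2, evt_der, evt_der]
    have c5 : (derivative (C (d.eval t)⁻¹ * evt t p)).eval (x j) =
        (d.eval t)⁻¹ * ev2 (derivative p) t (x j) := by
      rw [derivative_C_mul, eval_mul, eval_C, ev2, evt_der]
    have c6 : (C (d.eval t)⁻¹ * evt t p).eval (x j) = (d.eval t)⁻¹ * ev2 p t (x j) := by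
      rw [eval_mul, eval_C]; rfl
    have c7 : (C ((d.eval t)⁻¹ ^ 2) * (C (d.eval t) * evt t (dt p) -
        C ((derivative d).eval t) * evt t p) + evt t Qp * evt t (derivative V) +
        evt t (kc s * hx) * evt t V).eval (x j) = (d.eval t)⁻¹ ^ 2 *
        (d.eval t * ev2 (dt p) t (x j) - (derivative d).eval t * ev2 p t (x j)) +
        b j * ev2 (derivative Qp) t (x j) * ev2 V t (x j) := by
      have e1 : (evt t Qp).eval (x j) = 0 := hQ0 j
      have e2 : (evt t (kc s * hx)).eval (x j) = b j * ev2 (derivative Qp) t (x j) := hbu j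
      rw [eval_add, eval_add, eval_mul, eval_mul (p := evt t Qp), eval_mul (p := evt t (kc s * hx)),
        e1, e2, eval_C, eval_sub, eval_mul, eval_mul, eval_C, eval_C, zero_mul, add_zero]
      rfl
    rw [c2, c3, c4, c5, c6, c7] at key
    have hyd' : deriv (fun v => yy s hx d p (T v) (a j v)) u + T' * ev2 V t (x j) =
        ((T' * ((d.eval t)⁻¹ ^ 2 * (d.eval t * ev2 (dt p) t (x j) -
          (derivative d).eval t * ev2 p t (x j)) + b j * ev2 (derivative Qp) t (x j) *
          ev2 V t (x j)) + a' j * ((d.eval t)⁻¹ * ev2 (derivative p) t (x j))) *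
          ev2 (derivative Qp) t (x j) - (d.eval t)⁻¹ * ev2 p t (x j) *
          (T' * ev2 (dt (derivative Qp)) t (x j) + a' j *
            ev2 (derivative (derivative Qp)) t (x j))) / (b j * ev2 (derivative Qp) t (x j) ^ 2) := by
      rw [hyd]
      field_simp
      ring
    rw [← hyd'] at key
    linear_combination key
  · intro i
    have c2 : (derivative (evt t Qp)).eval (x i) = ev2 (derivative Qp) t (x i) := by
      rw [ev2, evt_der]
    rw [c2]
    exact hQt i
  · exact evt_deg (lt_of_le' (by omega) ((natDegree_C_mul_le _ _).trans D.hxd)) t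
  · exact evt_deg (lt_of_le' (by omega) ((natDegree_C_mul_le _ _).trans D.htd)) t
  · intro i
    have c2 : (derivative (evt t Qp)).eval (x i) = ev2 (derivative Qp) t (x i) := by
      rw [ev2, evt_der]
    rw [c2]
    exact hbu i
  · exact hlb
  · rw [C_0, zero_mul, zero_add]
  · exact lt_of_le_of_lt (degC_mul _ _) (evt_deg (lt_of_le' (by omega) D.qd) t)
  · have h1 := congrArg (evt t) D.eq
    rw [D.rE] at h1
    simp only [map_add, map_sub, map_mul (evt t), map_pow, evt_C, evt_kc, evt_der,
      derivative_mul, derivative_C] at h1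
    rw [map_mul (evt t), map_mul (evt t), evt_kc, derivative_C_mul,
      C_0, C_pow]
    have h3 : (C (d.eval t)⁻¹ * C (d.eval t) : ℂ[X]) = 1 := by
      rw [← C_mul, inv_mul_cancel₀ hd, C_1]
    rw [evt_der t V]
    set A := (C (d.eval t)⁻¹ : ℂ[X])
    set B := (C (d.eval t) : ℂ[X])
    set Q1 := evt t Qp
    set p1 := evt t p
    set q1 := evt t q
    set V1 := evt t V
    set L1 := C s * evt t ht
    set H1 := C s * evt t hx
    rw [map_zero] at h1
    linear_combination (A ^ 2) * h1 - ((1 + A * B) * (Q1 ^ 2 - Q1 ^ 2 * derivative V1 -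
      Q1 * V1 * derivative Q1 - (H1 - derivative Q1) * V1 * Q1)) * h3 +
      (A * (L1 - evt t (dt Qp)) * p1 + Q1 * A * derivative q1 +
        (H1 - derivative Q1) * A * q1) * h3
  · intro i
    have c2 : (derivative (evt t Qp)).eval (x i) = ev2 (derivative Qp) t (x i) := by
      rw [ev2, evt_der]
    rw [c2, hyv i, eval_mul, eval_C]
    have h1 := hb0 i
    have h2 := hq0 i
    change (d.eval t)⁻¹ * ev2 p t (x i) = _
    field_simp

end Pool.Agent.H941.SC
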