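import Pool.Agent.H941.SC.Gauge

set_option autoImplicit false
set_option linter.unusedSectionVars false
set_option linter.unusedVariables false

/-! # The two gauge transformations -/

namespace Pool.Agent.H941.SC

open Polynomial Pool.Agent.Helper748.TP Pool.Agent.H941.TF

variable {Φ G hx ht γ : ℂ[X][X]} {B : Finset ℂ} {σ β : ℝ}

/-- the logarithmic derivatives of `Φ ^ m γ` -/
noncomputable def hh (Φ G hx : ℂ[X][X]) (σ β : ℝ) : ℂ[X][X] :=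
  kc (β : ℂ) * derivative Φ * G + Φ * (kc (σ : ℂ) * hx)

/-- the logarithmic derivatives of `Φ ^ m γ` -/
noncomputable def ll (Φ G ht : ℂ[X][X]) (σ β : ℝ) : ℂ[X][X] :=
  kc (β : ℂ) * dt Φ * G + Φ * (kc (σ : ℂ) * ht)

theorem kc_inv {c : ℂ} (hc : c ≠ 0) : (kc c⁻¹ * kc c : ℂ[X][X]) = 1 := by
  rw [← kc_mul, inv_mul_cancel₀ hc, kc_one]

/-- the first gauge transformation -/
theorem step1 (C : Cv Φ G hx ht γ B) (hσ : σ < 0) (hβ : β < 0) {a c : ℂ[X][X]}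
    (E : EE (Φ * G) (hh Φ G hx σ β) (ll Φ G ht σ β) a c) :
    ∃ Y a3 c3 : ℂ[X][X], Y.degree < Φ.degree ∧
      a - (Φ * G * derivative Y + hh Φ G hx σ β * Y) = Φ * a3 ∧
      c + (Φ * G * dt Y + ll Φ G ht σ β * Y) = Φ * c3 := by
  have hβ0 : (β : ℂ) ≠ 0 := by exact_mod_cast hβ.ne
  have hβ1 : (β - 1 : ℂ) ≠ 0 := by
    intro h
    have h1 : ((β - 1 : ℝ) : ℂ) = 0 := by push_cast; exact h
    have h2 : (β - 1 : ℝ) = 0 := by exact_mod_cast h1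
    linarith
  have hk1 : (kc ((β : ℂ) - 1) : ℂ[X][X]) = kc (β : ℂ) - 1 := by
    rw [← kc_one]
    simp [kc]
  rw [EE, hh, ll, dt_mul, derivative_mul] at E
  have h1 : Φ ∣ dt Φ * a + derivative Φ * c := by
    refine C.canΦ (kc_cancel hβ1 ⟨Φ * G ^ 2 - G * (dt a + derivative c) -
      ((kc (σ : ℂ) * ht - dt G) * a + (kc (σ : ℂ) * hx - derivative G) * c), ?_⟩)
    rw [hk1]
    linear_combination -E
  have h2 : G ∣ (kc (σ : ℂ) * ht - dt G) * a + (kc (σ : ℂ) * hx - derivative G) * c := by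
    refine C.canG ⟨Φ ^ 2 * G - Φ * (dt a + derivative c) - (kc (β : ℂ) - 1) *
      (dt Φ * a + derivative Φ * c), ?_⟩
    linear_combination -E
  obtain ⟨W, hW, ⟨u, hu⟩, ⟨v, hv⟩⟩ := C.dir h1 (fun t x e1 e2 =>
    C.vanq hσ e1 e2 (ev2_dvd h1 e1) h2)
  have hk := kc_inv hβ0
  refine ⟨kc (β : ℂ)⁻¹ * W, u - (G * (kc (β : ℂ)⁻¹ * derivative W) +
    (kc (σ : ℂ) * hx) * (kc (β : ℂ)⁻¹ * W)), v + (G * (kc (β : ℂ)⁻¹ * dt W) +
    (kc (σ : ℂ) * ht) * (kc (β : ℂ)⁻¹ * W)), lt_of_le_of_lt (degC_mul _ _) hW, ?_, ?_⟩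
  · rw [hh, der_kc]
    linear_combination hu - (derivative Φ * G * W) * hk
  · rw [ll, dt_kc]
    linear_combination hv + (dt Φ * G * W) * hk

/-- the direction of the vector field along `Φ = 0` -/
theorem step2 (C : Cv Φ G hx ht γ B) (hσ : σ < 0) (hβ : β < 0) {a3 c3 : ℂ[X][X]}
    (E : EE (Φ * G) (hh Φ G hx σ β) (ll Φ G ht σ β) (Φ * a3) (Φ * c3)) :
    ∃ Λ : ℂ[X][X], Λ.degree < Φ.degree ∧ Φ ∣ a3 - derivative Φ * G * Λ ∧
      Φ ∣ c3 + dt Φ * G * Λ := by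
  have hβ0 : (β : ℂ) ≠ 0 := by exact_mod_cast hβ.ne
  have hΦ0 := C.Φm.ne_zero
  rw [EE, hh, ll, dt_mul, derivative_mul, dt_mul, derivative_mul] at E
  have E' : Φ * G ^ 2 = kc (β : ℂ) * (G * (dt Φ * a3 + derivative Φ * c3)) +
      Φ * (G * (dt a3 + derivative c3)) + Φ * ((kc (σ : ℂ) * ht - dt G) * a3 +
        (kc (σ : ℂ) * hx - derivative G) * c3) := by
    refine mul_left_cancel₀ hΦ0 ?_
    linear_combination E
  have h1 : Φ ∣ dt Φ * a3 + derivative Φ * c3 := by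
    refine C.canΦ (kc_cancel hβ0 ⟨G ^ 2 - G * (dt a3 + derivative c3) -
      ((kc (σ : ℂ) * ht - dt G) * a3 + (kc (σ : ℂ) * hx - derivative G) * c3), ?_⟩)
    linear_combination -E'
  have h2 : G ∣ (kc (σ : ℂ) * ht - dt G) * a3 + (kc (σ : ℂ) * hx - derivative G) * c3 := by
    refine C.canG ⟨Φ * G - kc (β : ℂ) * (dt Φ * a3 + derivative Φ * c3) -
      Φ * (dt a3 + derivative c3), ?_⟩
    linear_combination -E'
  exact C.dir h1 (fun t x e1 e2 => C.vanq hσ e1 e2 (ev2_dvd h1 e1) h2)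

/-- the second gauge transformation -/
theorem step3 (hβ1 : β ≠ -1) {a3 c3 Λ : ℂ[X][X]}
    (h1 : Φ ∣ a3 - derivative Φ * G * Λ) (h2 : Φ ∣ c3 + dt Φ * G * Λ) :
    ∃ a5 c5 : ℂ[X][X],
      Φ * a3 - (Φ * G * derivative (kc ((1 : ℂ) + β)⁻¹ * (Φ * Λ)) +
        hh Φ G hx σ β * (kc ((1 : ℂ) + β)⁻¹ * (Φ * Λ))) = Φ ^ 2 * a5 ∧
      Φ * c3 + (Φ * G * dt (kc ((1 : ℂ) + β)⁻¹ * (Φ * Λ)) +
        ll Φ G ht σ β * (kc ((1 : ℂ) + β)⁻¹ * (Φ * Λ))) = Φ ^ 2 * c5 := by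
  have hb : (1 : ℂ) + β ≠ 0 := by
    intro h
    apply hβ1
    have h1 : ((1 + β : ℝ) : ℂ) = 0 := by push_cast; exact h
    have h2 : (1 + β : ℝ) = 0 := by exact_mod_cast h1
    linarith
  have hk := kc_inv hb
  have hk1 : (kc ((1 : ℂ) + β) : ℂ[X][X]) = 1 + kc (β : ℂ) := by
    rw [kc_add, kc_one]
  rw [hk1] at hk
  set k : ℂ[X][X] := kc ((1 : ℂ) + β)⁻¹ with hkd
  obtain ⟨u, hu⟩ := h1
  obtain ⟨v, hv⟩ := h2
  refine ⟨u - k * (G * derivative Λ + kc (σ : ℂ) * hx * Λ),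
    v + k * (G * dt Λ + kc (σ : ℂ) * ht * Λ), ?_, ?_⟩
  · rw [hkd, der_kc, ← hkd, derivative_mul, hh]
    linear_combination Φ * hu - (Φ * derivative Φ * G * Λ) * hk
  · rw [hkd, dt_kc, ← hkd, dt_mul, ll]
    linear_combination Φ * hv + (Φ * dt Φ * G * Λ) * hk

/-- the remaining vector field -/
theorem step4 (C : Cv Φ G hx ht γ B) (hσ : σ < 0) (hβ1 : β ≠ -1) {a5 c5 : ℂ[X][X]}
    (E : EE (Φ * G) (hh Φ G hx σ β) (ll Φ G ht σ β) (Φ ^ 2 * a5) (Φ ^ 2 * c5)) :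
    (∃ A A', a5 = Φ * A + G * A') ∧ (∃ A A', c5 = Φ * A + G * A') ∧
      G ∣ (kc (σ : ℂ) * ht - dt G) * a5 + (kc (σ : ℂ) * hx - derivative G) * c5 := by
  have hb : (1 : ℂ) + β ≠ 0 := by
    intro h
    apply hβ1
    have h1 : ((1 + β : ℝ) : ℂ) = 0 := by push_cast; exact h
    have h2 : (1 + β : ℝ) = 0 := by exact_mod_cast h1
    linarith
  have hΦ0 := C.Φm.ne_zero
  rw [EE, hh, ll, pow_two Φ] at E
  simp only [dt_mul, derivative_mul] at E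
  have E' : G ^ 2 = (1 + kc (β : ℂ)) * (G * (dt Φ * a5 + derivative Φ * c5)) +
      Φ * (G * (dt a5 + derivative c5)) + Φ * ((kc (σ : ℂ) * ht - dt G) * a5 +
        (kc (σ : ℂ) * hx - derivative G) * c5) := by
    refine mul_left_cancel₀ (pow_ne_zero 2 hΦ0) ?_
    linear_combination E
  have h1 : Φ ∣ G - (1 + kc (β : ℂ)) * (dt Φ * a5 + derivative Φ * c5) := by
    refine C.canΦ ⟨G * (dt a5 + derivative c5) +
      ((kc (σ : ℂ) * ht - dt G) * a5 + (kc (σ : ℂ) * hx - derivative G) * c5), ?_⟩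
    linear_combination E'
  have h2 : G ∣ (kc (σ : ℂ) * ht - dt G) * a5 + (kc (σ : ℂ) * hx - derivative G) * c5 := by
    refine C.canG ⟨G - (1 + kc (β : ℂ)) * (dt Φ * a5 + derivative Φ * c5) -
      Φ * (dt a5 + derivative c5), ?_⟩
    linear_combination -E'
  have hv : ∀ t x, ev2 Φ t x = 0 → ev2 G t x = 0 → ev2 a5 t x = 0 ∧ ev2 c5 t x = 0 := by
    intro t x e1 e2
    refine C.vanq hσ e1 e2 ?_ h2
    have h3 := ev2_dvd h1 e1
    rw [ev2_sub, e2, ev2_mul, ev2_add, ev2_one, ev2_kc, zero_sub, neg_eq_zero] at h3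
    exact (mul_eq_zero.1 h3).resolve_left hb
  exact ⟨rad C.trans fun t x e1 e2 => (hv t x e1 e2).1,
    rad C.trans fun t x e1 e2 => (hv t x e1 e2).2, h2⟩

end Pool.Agent.H941.SC
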