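import Pool.Agent.H941.SC.Ode
import Pool.Agent.H941.SC.TD

set_option autoImplicit false
set_option linter.unusedSectionVars false
set_option linter.unusedVariables false

/-! # The limits of the residues -/

namespace Pool.Agent.H941.SC

open Polynomial Finset Filter Topology Pool.Agent.Helper748.TP Pool.Agent.H941.TF

section
variable {N : ℕ} {Qp γ hx ht V : ℂ[X][X]} {σ : ℝ} {d : ℂ[X]} {p r q : ℂ[X][X]}

/-- **The differential system along a parametrized family of roots.** -/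
theorem Dat.system (D : Dat N Qp γ hx ht σ V d p r q) (hN2 : 2 ≤ N) (hσ : σ < 0) {M : ℕ}
    (hγ : γ ∣ Qp ^ M) {T : ℂ → ℂ} {a : Fin N → ℂ → ℂ} (P : Par N Qp T a)
    (hTd : ∀ᶠ u in 𝓝[≠] (0 : ℂ), d.eval (T u) ≠ 0) :
    ∃ b : Fin N → ℝ, (∀ j, b j < 0) ∧
      (∀ᶠ u in 𝓝[≠] (0 : ℂ), ∀ j, ev2 (kc σ * hx) (T u) (a j u) =
        b j * ev2 (derivative Qp) (T u) (a j u)) ∧
      (∀ j, MeromorphicAt (fun v => yy σ hx d p (T v) (a j v)) 0) ∧
      ∀ j, ∀ᶠ u in 𝓝[≠] (0 : ℂ), deriv (fun v => yy σ hx d p (T v) (a j v)) u +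
        ∑ i ∈ univ.erase j, b i * (yy σ hx d p (T u) (a j u) - yy σ hx d p (T u) (a i u)) *
        ((deriv (a j) u - deriv (a i) u) / (a j u - a i u)) =
          -(deriv T u * ev2 V (T u) (a j u)) := by
  obtain ⟨n, hn1, hn⟩ := P.mult D.hxE D.dvd hγ
  have hb : ∀ᶠ u in 𝓝[≠] (0 : ℂ), ∀ j, ev2 (kc σ * hx) (T u) (a j u) =
        ((σ * n j : ℝ) : ℂ) * ev2 (derivative Qp) (T u) (a j u) := by
    filter_upwards [hn] with u hu j
    rw [ev2_mul, hu j]
    have : ev2 (kc (σ : ℂ)) (T u) (a j u) = σ := by rw [ev2, evt_kc, eval_C]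
    rw [this]
    push_cast
    ring
  refine ⟨fun j => σ * n j, fun j => ?_, hb, fun j => ?_, fun j => ?_⟩
  · have : (1 : ℝ) ≤ n j := by exact_mod_cast hn1 j
    nlinarith
  · refine (mero_ev2 p P.hT (P.ha j)).div (MeromorphicAt.mul ?_ (mero_ev2 _ P.hT (P.ha j)))
    have h1 := mero_ev2 (C d) P.hT (P.ha j)
    refine h1.congr (Eventually.of_forall fun v => ?_)
    change ev2 (C d) (T v) (a j v) = _
    rw [ev2, evt_C, eval_C]
  · have hev : ∀ {p : ℂ → Prop}, (∀ᶠ u in 𝓝[≠] (0 : ℂ), p u) →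
        ∀ᶠ u in 𝓝[≠] (0 : ℂ), ∀ᶠ v in 𝓝 u, p v := by
      intro p hp
      have h1 := eventually_eventually_nhdsWithin.2 hp
      filter_upwards [h1, self_mem_nhdsWithin] with u hu hu0
      rwa [nhdsWithin_eq_nhds.2 (isOpen_compl_singleton.mem_nhds hu0)] at hu
    have hTa := P.hT.eventually_analyticAt
    have haa := eventually_all.2 fun j => (P.ha j).eventually_analyticAt
    filter_upwards [hev P.root, P.inj, hTd, hev hb, hTa, haa] with u h1 h2 h3 h4 h5 h6
    refine D.ode hN2 (T := T) (a := a) (b := fun j => ((σ * n j : ℝ) : ℂ))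
      (a' := fun j => deriv (a j) u) h5.differentiableAt.hasDerivAt
      (fun j => (h6 j).differentiableAt.hasDerivAt) h1 h2 h3 h4 (fun j => ?_) (fun j => ?_) j
    · have h7 : (1 : ℝ) ≤ n j := by exact_mod_cast hn1 j
      have h8 : σ * n j < 0 := by nlinarith
      exact_mod_cast h8.ne
    · have h7 : (1 : ℝ) ≤ n j := by exact_mod_cast hn1 j
      have h8 : σ * n j < 1 := by nlinarith
      exact_mod_cast h8.ne

/-- near a finite value -/
theorem lim_fin' (D : Dat N Qp γ hx ht σ V d p r q) (hN2 : 2 ≤ N) (hσ : σ < 0) {M : ℕ}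
    (hγ : γ ∣ Qp ^ M) {T : ℂ → ℂ} {a : Fin N → ℂ → ℂ} (P : Par N Qp T a) (hT : AnalyticAt ℂ T 0)
    (ha : ∀ j, AnalyticAt ℂ (a j) 0) (hd : ∀ᶠ u in 𝓝[≠] (0 : ℂ), d.eval (T u) ≠ 0) :
    ∃ L : Fin N → ℂ, ∀ j, Tendsto (fun u => yy σ hx d p (T u) (a j u)) (𝓝[≠] 0) (𝓝 (L j)) := by
  classical
  obtain ⟨b, hb, hbe, hme, hode⟩ := D.system hN2 hσ hγ P hd
  obtain ⟨c, hc1, hc2, hc3, hc4⟩ := ordc ha P.inj
  have tu := tendsto_u
  have tT' : Tendsto (deriv T) (𝓝[≠] 0) (𝓝 (deriv T 0)) :=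
    hT.deriv.continuousAt.tendsto.mono_left nhdsWithin_le_nhds
  have tV : ∀ j, Tendsto (fun u => ev2 V (T u) (a j u)) (𝓝[≠] 0) (𝓝 (ev2 V (T 0) (a j 0))) :=
    fun j => (hasDerivAt_ev2 V hT.differentiableAt.hasDerivAt
      (ha j).differentiableAt.hasDerivAt).continuousAt.tendsto.mono_left nhdsWithin_le_nhds
  obtain ⟨K, r', h1, h2, h3⟩ := loc (z := fun j v => yy σ hx d p (T v) (a j v)) hme
    (E := fun u => 0) (E0 := 0) tendsto_const_nhds
    (B := fun j i u => b i * (u * ((deriv (a j) u - deriv (a i) u) / (a j u - a i u))))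
    (β := fun j i => ((b i * c j i : ℝ) : ℂ))
    (fun j i hi => by
      have h := (hc1 j i (Ne.symm (Finset.ne_of_mem_erase hi))).const_mul (b i : ℂ)
      push_cast
      exact h)
    (f := fun j u => u * -(deriv T u * ev2 V (T u) (a j u))) (φ := fun _ => 0)
    (fun j => by
      have h := tu.mul (tT'.mul (tV j)).neg
      rwa [zero_mul] at h)
    (fun j => by
      filter_upwards [hode j] with u hu
      rw [← hu, mul_add, Finset.mul_sum, zero_mul, add_zero]
      congr 1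
      exact Finset.sum_congr rfl fun i _ => by ring)
  have h4 := energy hb (c := fun j i => (c j i : ℝ)) (fun j i => Nat.cast_nonneg _)
    (fun j i => by rw [hc4]) (K := (K : ℝ)) (Nat.cast_nonneg _) (r := r') (fun j => by
      have h := h3 j
      rw [ite_self, add_zero] at h
      push_cast at h ⊢
      exact h)
  have hK : K = 0 := by
    by_contra hK
    have h5 := h4.1 (by exact_mod_cast Nat.pos_of_ne_zero hK)
    rcases h2 with h2 | ⟨j, hj⟩
    · exact hK h2
    · exact hj (by rw [h5]; rfl)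
  refine ⟨r', fun j => ?_⟩
  have h := h1 j
  rw [hK] at h
  simpa using h

/-- the weighted sum of the residues -/
theorem sum_by (D : Dat N Qp γ hx ht σ V d p r q) (hN2 : 2 ≤ N) {t : ℂ} {x : Fin N → ℂ}
    (hr : evt t Qp = nod x) (hi : Function.Injective x) {b : Fin N → ℝ} (hb : ∀ j, b j < 0)
    (hbe : ∀ j, ev2 (kc σ * hx) t (x j) = b j * ev2 (derivative Qp) t (x j))
    (hd : d.eval t ≠ 0) : ∑ j, (b j : ℂ) * yy σ hx d p t (x j) = 0 := by
  have h4 := lag_lead hi (r := evt t p) (evt_deg (lt_of_le' (by omega)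
    (D.pd.trans (by omega))) _)
  have h5 : (evt t p).coeff (N - 1) = 0 := by
    refine coeff_eq_zero_of_natDegree_lt (lt_of_le_of_lt natDegree_map_le ?_)
    have := D.pd
    omega
  rw [h5] at h4
  have h6 : ∀ j, (b j : ℂ) * yy σ hx d p t (x j) =
      (d.eval t)⁻¹ * ((evt t p).eval (x j) / (derivative (nod x)).eval (x j)) := by
    intro j
    have h7 := der_nod_ne hi j
    have h8 : ev2 (derivative Qp) t (x j) = (derivative (nod x)).eval (x j) := by
      rw [ev2, evt_der, hr]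
    have h9 : (b j : ℂ) ≠ 0 := by exact_mod_cast (hb j).ne
    rw [yy, hbe j, h8]
    change (b j : ℂ) * ((evt t p).eval (x j) / _) = _
    field_simp
  rw [Finset.sum_congr rfl fun j _ => h6 j, ← Finset.mul_sum, ← h4, mul_zero]

/-- near infinity -/
theorem lim_inf' (D : Dat N Qp γ hx ht σ V d p r q) (hN2 : 2 ≤ N) (hσ : σ < 0) {M : ℕ}
    (hγ : γ ∣ Qp ^ M) {X : Fin N → ℂ → ℂ}
    (P : Par N Qp (fun u => u⁻¹) (fun j u => X j u / u))
    (hX : ∀ j, AnalyticAt ℂ (X j) 0) (hinj : Function.Injective fun j => X j 0)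
    (hd : ∀ᶠ u in 𝓝[≠] (0 : ℂ), d.eval u⁻¹ ≠ 0) {δ : ℕ}
    (hlc : hx.coeff (N - 1) = C (δ : ℂ)) (hsum : σ * δ = -3) (hV : TD 1 V) :
    ∀ j, ∃ L, Tendsto (fun u => u ^ 3 * yy σ hx d p u⁻¹ (X j u / u)) (𝓝[≠] 0) (𝓝 L) := by
  classical
  obtain ⟨b, hb, hbe, hme, hode⟩ := D.system hN2 hσ hγ P hd
  have hsb := sum_b P (lt_of_le' (by omega) D.hxd) hlc hbe
  have hXinj : ∀ᶠ u in 𝓝[≠] (0 : ℂ), Function.Injective fun j => X j u := by
    filter_upwards [P.inj] with u hu j i hji
    exact hu (by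
      have h : X j u = X i u := hji
      change X j u / u = X i u / u
      rw [h])
  obtain ⟨c, hc1, hc2, hc3, hc4⟩ := ordc hX hXinj
  have tX : ∀ j, Tendsto (X j) (𝓝[≠] 0) (𝓝 (X j 0)) := fun j =>
    (hX j).continuousAt.tendsto.mono_left nhdsWithin_le_nhds
  have hyan := eventually_all.2 fun j => (hme j).eventually_analyticAt
  have hXan := eventually_all.2 fun j => ((hX j).eventually_analyticAt).filter_mono
    (nhdsWithin_le_nhds (s := {0}ᶜ))
  have hdX : ∀ᶠ u in 𝓝[≠] (0 : ℂ), ∀ j, deriv (fun v => X j v / v) u =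
      (deriv (X j) u * u - X j u) / u ^ 2 := by
    filter_upwards [hXan, ev_ne] with u hu hu0 j
    have h1 := ((hu j).differentiableAt.hasDerivAt.fun_div (hasDerivAt_id' u) hu0).deriv
    rw [h1, mul_one]
  have hbc : (∑ j, (b j : ℂ)) = -3 := by
    have h : (∑ j, b j) = -3 := by rw [hsb, hsum]
    exact_mod_cast h
  have hby : ∀ᶠ u in 𝓝[≠] (0 : ℂ), ∑ i, (b i : ℂ) * yy σ hx d p u⁻¹ (X i u / u) = 0 := by
    filter_upwards [P.root, P.inj, hbe, hd] with u h1 h2 h3 h4
    exact sum_by D hN2 h1 h2 hb h3 h4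
  obtain ⟨K, r', h1, h2, h3⟩ := loc (z := fun j v => v ^ 3 * yy σ hx d p v⁻¹ (X j v / v))
    (fun j => (MeromorphicAt.pow (MeromorphicAt.id 0) 3).mul (hme j))
    (E := fun u => 0) (E0 := 0) tendsto_const_nhds
    (B := fun j i u => b i * (u * ((deriv (X j) u - deriv (X i) u) / (X j u - X i u))))
    (β := fun j i => 0)
    (fun j i hi => by
      have hne := Ne.symm (Finset.ne_of_mem_erase hi)
      have h := (hc1 j i hne)
      rw [hc3 j i hne (fun h => hne (hinj h))] at h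
      have h' := h.const_mul (b i : ℂ)
      simpa using h')
    (f := fun j u => u * (u ^ (1 : ℤ) * ev2 V u⁻¹ (X j u / u)))
    (φ := fun j => 0)
    (fun j => by
      obtain ⟨l, hl⟩ := hV.lim (tX j)
      have h := tendsto_u.mul hl
      rwa [zero_mul] at h)
    (fun j => by
      filter_upwards [hode j, ev_ne, hyan, hdX, hXinj, hby] with u hu hu0 hya hdu hXi hbu
      have hd1 := (hya j).differentiableAt.hasDerivAt
      have hd2 : HasDerivAt (fun v : ℂ => v ^ 3) (3 * u ^ 2) u := by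
        simpa using hasDerivAt_pow 3 u
      have hd4 : deriv (fun v => v ^ 3 * yy σ hx d p v⁻¹ (X j v / v)) u =
        3 * u ^ 2 * yy σ hx d p u⁻¹ (X j u / u) +
          u ^ 3 * deriv (fun v => yy σ hx d p v⁻¹ (X j v / v)) u := (hd2.fun_mul hd1).deriv
      have hS : ∑ i ∈ univ.erase j, (b i : ℂ) * (u * ((deriv (X j) u - deriv (X i) u) /
          (X j u - X i u))) * (u ^ 3 * yy σ hx d p u⁻¹ (X j u / u) -
            u ^ 3 * yy σ hx d p u⁻¹ (X i u / u)) =
          u ^ 4 * ∑ i ∈ univ.erase j, b i * (yy σ hx d p u⁻¹ (X j u / u) -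
            yy σ hx d p u⁻¹ (X i u / u)) *
            ((deriv (fun v => X j v / v) u - deriv (fun v => X i v / v) u) /
              (X j u / u - X i u / u)) +
          u ^ 3 * ∑ i ∈ univ.erase j, b i * (yy σ hx d p u⁻¹ (X j u / u) -
            yy σ hx d p u⁻¹ (X i u / u)) := by
        rw [Finset.mul_sum, Finset.mul_sum, ← Finset.sum_add_distrib]
        refine Finset.sum_congr rfl fun i hi => ?_
        have hne := Ne.symm (Finset.ne_of_mem_erase hi)
        have h5 : X j u - X i u ≠ 0 := sub_ne_zero.2 fun h => hne (hXi h)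
        rw [hdu j, hdu i, ← sub_div, ← sub_div]
        have h6 : ∀ b' y1 y2 A B C D' : ℂ, A - B ≠ 0 → b' * (u * ((C - D') / (A - B))) *
            (u ^ 3 * y1 - u ^ 3 * y2) = u ^ 4 * (b' * (y1 - y2) *
              (((C * u - A - (D' * u - B)) / u ^ 2) / ((A - B) / u))) +
              u ^ 3 * (b' * (y1 - y2)) := by
          intro b' y1 y2 A B C D' hAB
          field_simp
          ring
        exact h6 _ _ _ _ _ _ _ h5
      have hS2 : ∑ i ∈ univ.erase j, (b i : ℂ) * (yy σ hx d p u⁻¹ (X j u / u) -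
            yy σ hx d p u⁻¹ (X i u / u)) = -3 * yy σ hx d p u⁻¹ (X j u / u) := by
        have h6 : ∑ i ∈ univ.erase j, (b i : ℂ) * (yy σ hx d p u⁻¹ (X j u / u) -
            yy σ hx d p u⁻¹ (X i u / u)) = ∑ i, (b i : ℂ) * (yy σ hx d p u⁻¹ (X j u / u) -
            yy σ hx d p u⁻¹ (X i u / u)) := by
          rw [← Finset.add_sum_erase univ _ (mem_univ j), sub_self, mul_zero, zero_add]
        rw [h6]
        simp only [mul_sub]
        rw [Finset.sum_sub_distrib, ← Finset.sum_mul, hbc, hbu, sub_zero]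
      rw [hS, hd4, hS2]
      have hdi : deriv (fun v : ℂ => v⁻¹) u = -(u ^ 2)⁻¹ := by
        rw [deriv_inv]
      rw [hdi] at hu
      have h5 : ∑ i ∈ univ.erase j, b i * (yy σ hx d p u⁻¹ (X j u / u) -
            yy σ hx d p u⁻¹ (X i u / u)) *
            ((deriv (fun v => X j v / v) u - deriv (fun v => X i v / v) u) /
              (X j u / u - X i u / u)) =
          -(-(u ^ 2)⁻¹ * ev2 V u⁻¹ (X j u / u)) -
            deriv (fun v => yy σ hx d p v⁻¹ (X j v / v)) u := by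
        linear_combination hu
      rw [h5, zpow_one]
      field_simp
      ring)
  have hK : K = 0 := by
    by_contra hK
    rcases h2 with h2 | ⟨j, hj⟩
    · exact hK h2
    · have h := h3 j
      rw [if_neg hK, Finset.sum_eq_zero (fun i _ => zero_mul _), add_zero, add_zero] at h
      rcases mul_eq_zero.1 h with h | h
      · exact hK (by exact_mod_cast neg_eq_zero.1 h)
      · exact hj h
  intro j
  have h := h1 j
  rw [hK] at h
  exact ⟨r' j, by simpa using h⟩

end

end Pool.Agent.H941.SC
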